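import Mathlib

/-!
# MP_c40b0b_al: general definitions

Geometric actions on connected locally finite graphs, hyperbolic and one-ended groups, splittings
over virtually cyclic subgroups, the permutation topology on the automorphism group of a graph,
graphically discrete groups, and free-by-cyclic groups.
-/

namespace C40b0b

/-- The free-by-cyclic group `F_n ⋊_φ ℤ`: the generator of `ℤ` acts on `F_n` by `φ`. -/
abbrev FreeByCyclic (n : ℕ) (φ : MulAut (FreeGroup (Fin n))) : Type :=
  FreeGroup (Fin n) ⋊[zpowersHom (MulAut (FreeGroup (Fin n))) φ] Multiplicative ℤ

/-- `G` acts on the graph `X` (an action on the vertices is given) by graph automorphisms, with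
finite vertex stabilisers and finitely many orbits of vertices. For a connected locally finite
graph this says that the action is proper and cocompact, that is, geometric. -/
structure GeometricAction (G : Type*) [Group G] {V : Type*} (X : SimpleGraph V)
    [MulAction G V] : Prop where
  adj : ∀ (g : G) (x y : V), X.Adj x y → X.Adj (g • x) (g • y)
  finite_stab : ∀ x : V, Finite (MulAction.stabilizer G x)
  finite_orbits : Finite (MulAction.orbitRel.Quotient G V)

/-- Gromov's four point condition for the vertex metric of a graph. -/
def GromovHyperbolic {V : Type*} (X : SimpleGraph V) : Prop :=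
  ∃ δ : ℕ, ∀ x y z w : V,
    X.dist x y + X.dist z w ≤ max (X.dist x z + X.dist y w) (X.dist x w + X.dist y z) + 2 * δ

/-- A graph is one-ended if deleting any finite set of vertices leaves exactly one infinite
connected component. -/
def OneEnded {V : Type*} (X : SimpleGraph V) : Prop :=
  ∀ F : Finset V, ∃! C : (X.induce {x : V | x ∉ F}).ConnectedComponent, C.supp.Infinite

/-- `G` is a hyperbolic group: it acts geometrically on a connected locally finite graph which is
Gromov hyperbolic. (By the Milnor-Schwarz lemma this is the usual notion.) -/
def IsHyperbolicGroup (G : Type) [Group G] : Prop :=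
  ∃ (V : Type) (X : SimpleGraph V) (_ : MulAction G V), X.Connected ∧
    (∀ v, (X.neighborSet v).Finite) ∧ GeometricAction G X ∧ GromovHyperbolic X

/-- `G` is a one-ended group: it acts geometrically on a connected locally finite graph which is
one-ended. (The number of ends does not depend on the graph.) -/
def IsOneEndedGroup (G : Type) [Group G] : Prop :=
  ∃ (V : Type) (X : SimpleGraph V) (_ : MulAction G V), X.Connected ∧
    (∀ v, (X.neighborSet v).Finite) ∧ GeometricAction G X ∧ OneEnded X

/-- `H` is virtually cyclic: it has a cyclic subgroup of finite index. -/
def VirtCyclic (H : Type*) [Group H] : Prop :=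
  ∃ C : Subgroup H, IsCyclic C ∧ C.FiniteIndex

/-- The (pointwise) stabiliser of the edge `{u, v}`. -/
def edgeStab (G : Type*) {W : Type*} [Group G] [MulAction G W] (u v : W) : Subgroup G :=
  MulAction.stabilizer G u ⊓ MulAction.stabilizer G v

/-- Every action of `G` on a simplicial tree (by automorphisms of the tree) whose edge stabilisers
are virtually cyclic fixes a vertex. In particular `G` does not split over a virtually cyclic
subgroup, and every JSJ tree of `G` over such subgroups (a tree with a minimal action of `G` and
two-ended edge stabilisers) is a single vertex. -/
def TrivialJSJ (G : Type) [Group G] : Prop :=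
  ∀ (W : Type) (T : SimpleGraph W) [MulAction G W], T.IsTree →
    (∀ (g : G) (x y : W), T.Adj x y → T.Adj (g • x) (g • y)) →
    (∀ x y : W, T.Adj x y → VirtCyclic (edgeStab G x y)) → ∃ w : W, ∀ g : G, g • w = w

/-- The permutation topology (pointwise convergence on the vertices, which carry the discrete
topology) on the automorphism group of a simple graph. -/
@[reducible] def autTopology {V : Type*} (X : SimpleGraph V) : TopologicalSpace (X ≃g X) :=
  TopologicalSpace.induced (fun f : X ≃g X => (f : V → V))
    (@Pi.topologicalSpace V (fun _ => V) (fun _ => ⊥))

/-- `Aut(X)` is compact-by-discrete: it has a compact open normal subgroup. -/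
def AutCompactByDiscrete {V : Type*} (X : SimpleGraph V) : Prop :=
  ∃ K : Subgroup (X ≃g X), K.Normal ∧ @IsOpen _ (autTopology X) (K : Set (X ≃g X)) ∧
    @IsCompact _ (autTopology X) (K : Set (X ≃g X))

end C40b0b
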