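import Mathlib
import Pool.Agent.Lib_c40b0b.Defs

/-!
# MP_c40b0b_al, block E1: automorphism groups which are not compact-by-discrete
-/

namespace C40b0b

/-- Left translations as automorphisms of a left-invariant graph. -/
def leftIso {Γ : Type*} [Group Γ] (X : SimpleGraph Γ)
    (hleft : ∀ g x y, X.Adj x y → X.Adj (g * x) (g * y)) (g : Γ) : X ≃g X where
  toEquiv := Equiv.mulLeft g
  map_rel_iff' := by
    intro x y
    constructor
    · intro h
      have h2 := hleft g⁻¹ _ _ h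
      simpa using h2
    · intro h
      exact hleft g _ _ h

/-- Let `X` be a left-invariant graph on a group `Γ` and `τ` an automorphism of `X` with infinitely
many displacements `x⁻¹ τ(x)`, such that for every finite set `F` some conjugate of `τ` by a left
translation fixes `F` pointwise.  Then `Aut(X)` has no compact open normal subgroup.

Proof: a compact open normal `K` contains the pointwise stabiliser of a finite set `F`, hence
a translate-conjugate of `τ`, hence `τ` itself; the orbit `K·1` is finite (compactness), and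
`x⁻¹ k(x) = (L_x⁻¹ k L_x)(1) ∈ K·1` for all `k ∈ K` and `x`, as `K` is normal. -/
theorem not_autCompactByDiscrete {Γ : Type*} [Group Γ] (X : SimpleGraph Γ)
    (hleft : ∀ g x y, X.Adj x y → X.Adj (g * x) (g * y)) (τ : X ≃g X)
    (hτ : ∀ F : Finset Γ, ∃ v : Γ, ∀ x ∈ F, v * τ (v⁻¹ * x) = x)
    (hinf : {y : Γ | ∃ x : Γ, y = x⁻¹ * τ x}.Infinite) : ¬ AutCompactByDiscrete X := by
  rintro ⟨K, hN, hopen, hcomp⟩
  letI tΓ : TopologicalSpace Γ := ⊥
  haveI : DiscreteTopology Γ := ⟨rfl⟩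
  letI tX : TopologicalSpace (X ≃g X) := autTopology X
  have hopen' : IsOpen (K : Set (X ≃g X)) := hopen
  have hcomp' : IsCompact (K : Set (X ≃g X)) := hcomp
  have hev : Continuous (fun f : X ≃g X => (f : Γ → Γ)) := continuous_induced_dom
  have hev1 : Continuous (fun f : X ≃g X => f 1) := (continuous_apply (1 : Γ)).comp hev
  have hfin : ((fun f : X ≃g X => f 1) '' (K : Set (X ≃g X))).Finite :=
    (hcomp'.image hev1).finite_of_discrete
  let L := leftIso X hleft
  have hL : ∀ g x, L g x = g * x := fun _ _ => rfl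
  have hLi : ∀ g x, (L g)⁻¹ x = g⁻¹ * x := by
    intro g x
    have h1 : (L g)⁻¹ ((L g) (g⁻¹ * x)) = g⁻¹ * x := (L g).symm_apply_apply _
    rw [hL] at h1
    simpa using h1
  -- step 1: the stabiliser of a finite set is contained in K
  obtain ⟨U, hU, hUK⟩ := isOpen_induced_iff.1 hopen'
  have h1U : (fun x : Γ => x) ∈ U := by
    have h1K : (1 : X ≃g X) ∈ (K : Set (X ≃g X)) := K.one_mem
    rw [← hUK] at h1K
    exact h1K
  obtain ⟨F, u, hu1, hu2⟩ := isOpen_pi_iff.1 hU _ h1U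
  have hstab : ∀ k : X ≃g X, (∀ x ∈ F, k x = x) → k ∈ K := by
    intro k hk
    have h2 : k ∈ (fun f : X ≃g X => (f : Γ → Γ)) ⁻¹' U := by
      apply hu2
      intro x hx
      have h3 : (k : Γ → Γ) x = x := hk x hx
      show (k : Γ → Γ) x ∈ u x
      rw [h3]
      exact (hu1 x hx).2
    rw [hUK] at h2
    exact h2
  -- step 2: τ ∈ K
  obtain ⟨v, hv⟩ := hτ F
  have h3 : L v * τ * (L v)⁻¹ ∈ K := by
    apply hstab
    intro x hx
    have h4 : (L v * τ * (L v)⁻¹) x = L v (τ ((L v)⁻¹ x)) := rfl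
    rw [h4, hLi, hL]
    exact hv x hx
  have hτK : τ ∈ K := by
    have h4 := hN.conj_mem _ h3 (L v)⁻¹
    have h5 : (L v)⁻¹ * (L v * τ * (L v)⁻¹) * ((L v)⁻¹)⁻¹ = τ := by group
    rwa [h5] at h4
  -- step 3: displacements
  apply hinf
  refine hfin.subset ?_
  rintro y ⟨x, rfl⟩
  refine ⟨(L x)⁻¹ * τ * ((L x)⁻¹)⁻¹, hN.conj_mem _ hτK _, ?_⟩
  have h4 : ((L x)⁻¹ * τ * ((L x)⁻¹)⁻¹) 1 = (L x)⁻¹ (τ (L x 1)) := by
    rw [inv_inv]; rfl
  show ((L x)⁻¹ * τ * ((L x)⁻¹)⁻¹) 1 = _
  rw [h4, hLi, hL, mul_one]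

end C40b0b
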