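import Mathlib
import Pool.Agent.Lib_c40b0b.Defs

/-!
# MP_c40b0b_al, block A: the graph product of C4, C6, C4, C6, C4, C6 over a hexagon
-/

namespace C40b0b

/-- `i` and `j` are neighbours in the hexagon. -/
def Adj6 (i j : Fin 6) : Prop := j = i + 1 ∨ i = j + 1

instance : DecidableRel Adj6 := fun i j => inferInstanceAs (Decidable (j = i + 1 ∨ i = j + 1))

/-- the orders of the generators -/
def q : Fin 6 → ℕ := ![4, 6, 4, 6, 4, 6]

/-- weights: `wt i` has order `q i` in `ZMod 12` -/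
def wt : Fin 6 → ZMod 12 := ![3, 2, 3, 2, 3, 2]

/-- The relators `x_i ^ q_i` and `[x_i, x_j]`, `i` and `j` neighbours. -/
def rels : Set (FreeGroup (Fin 6)) :=
  {r | (∃ i, r = FreeGroup.of i ^ q i) ∨
    ∃ i j, Adj6 i j ∧
      r = FreeGroup.of i * FreeGroup.of j * (FreeGroup.of i)⁻¹ * (FreeGroup.of j)⁻¹}

/-- The graph product `Γ`. -/
def Gam : Type := PresentedGroup rels

instance : Group Gam := inferInstanceAs (Group (PresentedGroup rels))

/-- The generators. -/
def a (i : Fin 6) : Gam := (PresentedGroup.of i : PresentedGroup rels)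

/-- the star of `i` in the hexagon -/
def star (i : Fin 6) : Set (Fin 6) := {j | j = i ∨ Adj6 i j}

/-- the standard subgroup generated by the types in `J` -/
def Cl (J : Set (Fin 6)) : Subgroup Gam := Subgroup.closure (a '' J)

/-- the parabolic subgroup `⟨a_{i-1}, a_i, a_{i+1}⟩` -/
def P (i : Fin 6) : Subgroup Gam := Cl (star i)

/-- The Cayley graph of `Γ`: `x` and `x s` are adjacent for `1 ≠ s ∈ ⟨a_i⟩`. -/
def X : SimpleGraph Gam where
  Adj x y := x ≠ y ∧ ∃ i, x⁻¹ * y ∈ Subgroup.zpowers (a i)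
  symm := by
    constructor
    rintro x y ⟨h, i, hi⟩
    refine ⟨h.symm, i, ?_⟩
    have := (Subgroup.zpowers (a i)).inv_mem hi
    simpa using this
  loopless := ⟨fun x h => h.1 rfl⟩

/-- hyperplanes: a type and a coset of `P i` -/
abbrev Hyp : Type := Σ i : Fin 6, Gam ⧸ P i

/-- the hyperplane dual to the edges of type `i` at `x` -/
def hyp (i : Fin 6) (x : Gam) : Hyp := ⟨i, (x : Gam ⧸ P i)⟩

lemma a_pow (i : Fin 6) : a i ^ q i = 1 := by
  have : (QuotientGroup.mk (FreeGroup.of i ^ q i) : PresentedGroup rels) = 1 :=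
    (PresentedGroup.one_of_mem (Or.inl ⟨i, rfl⟩))
  exact this

lemma a_comm {i j : Fin 6} (h : Adj6 i j) : a i * a j = a j * a i := by
  have : (QuotientGroup.mk (FreeGroup.of i * FreeGroup.of j * (FreeGroup.of i)⁻¹ *
      (FreeGroup.of j)⁻¹) : PresentedGroup rels) = 1 :=
    (PresentedGroup.one_of_mem (Or.inr ⟨i, j, h, rfl⟩))
  have h2 : a i * a j * (a i)⁻¹ * (a j)⁻¹ = 1 := this
  rw [mul_inv_eq_one, mul_inv_eq_iff_eq_mul] at h2
  exact h2

/-- universal property -/
def lift {G : Type*} [Group G] (f : Fin 6 → G) (h1 : ∀ i, f i ^ q i = 1)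
    (h2 : ∀ i j, Adj6 i j → f i * f j = f j * f i) : Gam →* G :=
  PresentedGroup.toGroup (f := f) (rels := rels) (by
    rintro r (⟨i, rfl⟩ | ⟨i, j, hij, rfl⟩)
    · simp [h1]
    · simp only [map_mul, map_inv, FreeGroup.lift_apply_of]
      rw [mul_inv_eq_one, mul_inv_eq_iff_eq_mul]
      exact h2 i j hij)

lemma lift_a {G : Type*} [Group G] (f : Fin 6 → G) (h1 : ∀ i, f i ^ q i = 1)
    (h2 : ∀ i j, Adj6 i j → f i * f j = f j * f i) (i : Fin 6) :
    lift f h1 h2 (a i) = f i := by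
  unfold lift a
  exact PresentedGroup.toGroup.of _

lemma closure_a : Subgroup.closure (Set.range a) = ⊤ := PresentedGroup.closure_range_of rels

/-! ### the cocycles -/

/-- the base point of `Γ/P i` -/
def bp (i : Fin 6) : Gam ⧸ P i := ((1 : Gam) : Gam ⧸ P i)

open Classical in
/-- increments -/
noncomputable def inc (i j : Fin 6) (ω : Gam ⧸ P i) : ZMod 12 :=
  if j = i ∧ ω = bp i then wt i else 0

lemma a_mem_P {i j : Fin 6} (h : j ∈ star i) : a j ∈ P i :=
  Subgroup.subset_closure ⟨j, h, rfl⟩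

lemma mk_eq_bp {i : Fin 6} {γ : Gam} : (γ : Gam ⧸ P i) = bp i ↔ γ ∈ P i := by
  unfold bp
  rw [QuotientGroup.eq, mul_one, inv_mem_iff]

lemma smul_eq_bp {i : Fin 6} {γ : Gam} (hγ : γ ∈ P i) (ω : Gam ⧸ P i) :
    γ • ω = bp i ↔ ω = bp i := by
  induction ω using QuotientGroup.induction_on with
  | H x =>
    rw [MulAction.Quotient.smul_coe, mk_eq_bp, mk_eq_bp, smul_eq_mul]
    exact Subgroup.mul_mem_cancel_left _ hγ

lemma inc_smul {i j k : Fin 6} (h : j = i → k ∈ star i) (ω : Gam ⧸ P i) :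
    inc i j (a k • ω) = inc i j ω := by
  by_cases hj : j = i
  · have := smul_eq_bp (a_mem_P (h hj)) ω
    by_cases hω : ω = bp i
    · unfold inc
      rw [if_pos ⟨hj, this.2 hω⟩, if_pos ⟨hj, hω⟩]
    · unfold inc
      rw [if_neg (fun h => hω (this.1 h.2)), if_neg (fun h => hω h.2)]
  · unfold inc
    rw [if_neg (fun h => hj h.1), if_neg (fun h => hj h.1)]

/-- the permutation of `ZMod 12 × Γ/P i` given by `a j` -/
noncomputable def actGen (i j : Fin 6) : Equiv.Perm (ZMod 12 × (Gam ⧸ P i)) where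
  toFun x := (x.1 + inc i j x.2, a j • x.2)
  invFun x := (x.1 - inc i j ((a j)⁻¹ • x.2), (a j)⁻¹ • x.2)
  left_inv x := by simp
  right_inv x := by simp

lemma actGen_pow (i j : Fin 6) (n : ℕ) (x : ZMod 12 × (Gam ⧸ P i)) :
    (actGen i j ^ n) x = (x.1 + n • inc i j x.2, a j ^ n • x.2) := by
  induction n generalizing x with
  | zero => simp
  | succ n ih =>
    rw [pow_succ, Equiv.Perm.mul_apply, ih]
    have h1 : actGen i j x = (x.1 + inc i j x.2, a j • x.2) := rfl
    rw [h1]
    simp only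
    rw [inc_smul (by intro h; subst h; exact Or.inl rfl), smul_smul, ← pow_succ]
    congr 1
    rw [add_smul, one_smul]
    ring

lemma q_wt (i : Fin 6) : q i • wt i = 0 := by
  fin_cases i <;> decide

lemma Adj6.symm {i j : Fin 6} (h : Adj6 i j) : Adj6 j i := Or.symm h

lemma Adj6.ne {i j : Fin 6} (h : Adj6 i j) : i ≠ j := by
  revert i j; decide

/-- the action of `Γ` on `ZMod 12 × Γ/P i` -/
noncomputable def act (i : Fin 6) : Gam →* Equiv.Perm (ZMod 12 × (Gam ⧸ P i)) :=
  lift (actGen i) (by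
    intro j
    ext1 x
    rw [actGen_pow, a_pow]
    simp only [one_smul, Equiv.Perm.coe_one, id_eq]
    by_cases h : j = i ∧ x.2 = bp i
    · have : inc i j x.2 = wt i := by unfold inc; rw [if_pos h]
      rw [this, h.1, q_wt, add_zero]
    · have : inc i j x.2 = 0 := by unfold inc; rw [if_neg h]
      rw [this, smul_zero, add_zero]) (by
    intro j k hjk
    ext1 x
    have h1 : ∀ l x, actGen i l x = (x.1 + inc i l x.2, a l • x.2) := fun _ _ => rfl
    rw [Equiv.Perm.mul_apply, Equiv.Perm.mul_apply, h1, h1, h1, h1]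
    simp only
    rw [inc_smul (i := i) (j := j) (k := k) (by intro h; subst h; exact Or.inr hjk),
      inc_smul (i := i) (j := k) (k := j) (by intro h; subst h; exact Or.inr hjk.symm),
      smul_smul, smul_smul, a_comm hjk]
    congr 1
    ring)

lemma act_a (i j : Fin 6) (x : ZMod 12 × (Gam ⧸ P i)) :
    act i (a j) x = (x.1 + inc i j x.2, a j • x.2) := by
  unfold act
  rw [lift_a]; rfl

/-- induction principle for `Γ` -/
lemma gam_induction {p : Gam → Prop} (h1 : p 1) (ha : ∀ j γ, p γ → p (a j * γ)) (γ : Gam) : p γ := by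
  have hfin : ∀ j, ∀ n : ℕ, ∀ γ, p γ → p (a j ^ n * γ) := by
    intro j n
    induction n with
    | zero => intro γ h; simpa using h
    | succ n ih => intro γ h; rw [pow_succ, mul_assoc]; exact ih _ (ha j γ h)
  have hinv : ∀ j γ, p γ → p ((a j)⁻¹ * γ) := by
    intro j γ h
    have : (a j)⁻¹ = a j ^ (q j - 1) := by
      rw [inv_eq_iff_mul_eq_one, ← pow_succ']
      have : q j - 1 + 1 = q j := by fin_cases j <;> rfl
      rw [this, a_pow]
    rw [this]; exact hfin j _ γ h
  have hmem : γ ∈ Subgroup.closure (Set.range a) := by rw [closure_a]; trivial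
  have key : ∀ δ ∈ Subgroup.closure (Set.range a), ∀ γ, p γ → p (δ * γ) ∧ p (δ⁻¹ * γ) := by
    intro δ hδ
    induction hδ using Subgroup.closure_induction with
    | mem x hx => obtain ⟨j, rfl⟩ := hx; intro γ h; exact ⟨ha j γ h, hinv j γ h⟩
    | one => intro γ h; simpa using h
    | mul x y _ _ hx hy =>
      intro γ h
      refine ⟨?_, ?_⟩
      · rw [mul_assoc]; exact (hx _ (hy _ h).1).1
      · rw [mul_inv_rev, mul_assoc]; exact (hy _ (hx _ h).2).2
    | inv x _ hx => intro γ h; rw [inv_inv]; exact (hx _ h).symm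
  simpa using (key γ hmem 1 h1).1

lemma act_snd (i : Fin 6) (γ : Gam) (x : ZMod 12 × (Gam ⧸ P i)) : (act i γ x).2 = γ • x.2 := by
  induction γ using gam_induction with
  | h1 => simp
  | ha j γ ih => rw [map_mul, Equiv.Perm.mul_apply, act_a, ih, smul_smul]

lemma act_fst_add (i : Fin 6) (γ : Gam) (g h : ZMod 12) (ω : Gam ⧸ P i) :
    (act i γ (g + h, ω)).1 = g + (act i γ (h, ω)).1 := by
  induction γ using gam_induction with
  | h1 => simp
  | ha j γ ih =>
    rw [map_mul, Equiv.Perm.mul_apply, Equiv.Perm.mul_apply, act_a, act_a, act_snd, act_snd, ih]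
    simp only
    ring

/-- the type `i` tail of `γ` -/
noncomputable def T (i : Fin 6) (γ : Gam) : ZMod 12 := (act i γ (0, bp i)).1

@[simp] lemma T_one (i : Fin 6) : T i 1 = 0 := by simp [T]

lemma T_a_mul (i j : Fin 6) (γ : Gam) : T i (a j * γ) = T i γ + inc i j (γ : Gam ⧸ P i) := by
  unfold T
  rw [map_mul, Equiv.Perm.mul_apply, act_a, act_snd]
  simp only
  congr 2
  unfold bp
  rw [MulAction.Quotient.smul_coe, smul_eq_mul, mul_one]

lemma T_mul_of_mem {i : Fin 6} (γ : Gam) {p : Gam} (hp : p ∈ P i) :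
    T i (γ * p) = T i γ + T i p := by
  unfold T
  rw [map_mul, Equiv.Perm.mul_apply]
  have h : act i p (0, bp i) = ((act i p (0, bp i)).1 + 0, bp i) := by
    rw [add_zero]
    ext1
    · rfl
    · rw [act_snd]; simp only; rw [smul_eq_bp hp]
  conv_lhs => rw [h, act_fst_add]
  rw [add_comm]

lemma T_pow_mul_same (i : Fin 6) (k : ℕ) (γ : Gam) (hγ : γ ∈ P i) :
    T i (a i ^ k * γ) = T i γ + k • wt i := by
  induction k with
  | zero => simp
  | succ k ih =>
    rw [pow_succ', mul_assoc, T_a_mul, ih]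
    have : inc i i ((a i ^ k * γ : Gam) : Gam ⧸ P i) = wt i := by
      unfold inc
      rw [if_pos]
      refine ⟨rfl, ?_⟩
      rw [mk_eq_bp]
      exact (P i).mul_mem ((P i).pow_mem (a_mem_P (Or.inl rfl)) k) hγ
    rw [this, add_smul, one_smul, add_assoc]

lemma T_pow_mul_ne {i j : Fin 6} (k : ℕ) (γ : Gam) (h : ¬ (j = i ∧ γ ∈ P i)) :
    T i (a j ^ k * γ) = T i γ := by
  induction k with
  | zero => simp
  | succ k ih =>
    rw [pow_succ', mul_assoc, T_a_mul, ih]
    have : inc i j ((a j ^ k * γ : Gam) : Gam ⧸ P i) = 0 := by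
      unfold inc
      rw [if_neg]
      rintro ⟨rfl, h2⟩
      rw [mk_eq_bp] at h2
      exact h ⟨rfl, (Subgroup.mul_mem_cancel_left _
        ((P j).pow_mem (a_mem_P (Or.inl rfl)) k)).1 h2⟩
    rw [this, add_zero]

end C40b0b
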