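import Mathlib
import Pool.Agent.Lib_c40b0b.GP

/-!
# MP_c40b0b_al, block A2: hyperplanes, the metric (interface)
-/

namespace C40b0b

/-- The sector of the hyperplane `H` containing `x` (up to a constant depending on `H`): the
hyperplane `H` separates `x` and `y` iff `sg H x ≠ sg H y`. -/
noncomputable def sg (H : Hyp) (x : Gam) : ZMod 12 := T H.1 (x⁻¹ * H.2.out)

lemma sg_hyp (i : Fin 6) (γ : Gam) :
    ∃ c, ∀ x, sg (hyp i γ) x = T i (x⁻¹ * γ) + c := by
  obtain ⟨p, hp⟩ := QuotientGroup.mk_out_eq_mul (P i) γ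
  refine ⟨T i p, fun x => ?_⟩
  unfold sg hyp
  simp only
  rw [hp, ← mul_assoc, T_mul_of_mem _ p.2]

lemma sg_eq_iff (i : Fin 6) (γ x y : Gam) :
    sg (hyp i γ) x = sg (hyp i γ) y ↔ T i (x⁻¹ * γ) = T i (y⁻¹ * γ) := by
  obtain ⟨c, hc⟩ := sg_hyp i γ
  rw [hc, hc, add_left_inj]

lemma hyp_mul {i : Fin 6} (x : Gam) {p : Gam} (hp : p ∈ P i) : hyp i (x * p) = hyp i x := by
  unfold hyp
  congr 1
  rw [QuotientGroup.eq]
  simpa using (P i).inv_mem hp

lemma hyp_eq_iff {i : Fin 6} {x y : Gam} : hyp i x = hyp i y ↔ x⁻¹ * y ∈ P i := by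
  constructor
  · intro h
    unfold hyp at h
    rw [Sigma.mk.injEq] at h
    exact QuotientGroup.eq.1 (eq_of_heq h.2)
  · intro h
    have := hyp_mul x h
    rw [← this]; simp

lemma hyp_out (H : Hyp) : hyp H.1 H.2.out = H := by
  unfold hyp
  rw [QuotientGroup.out_eq']

lemma hyp_fst (i : Fin 6) (x : Gam) : (hyp i x).1 = i := rfl

/-- elements of `⟨a_j⟩` are natural powers -/
lemma zpowers_pow {j : Fin 6} {s : Gam} (hs : s ∈ Subgroup.zpowers (a j)) :
    ∃ k : ℕ, k < q j ∧ s = a j ^ k := by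
  obtain ⟨n, rfl⟩ := Subgroup.mem_zpowers_iff.1 hs
  have hq : 0 < q j := by fin_cases j <;> decide
  refine ⟨(n % (q j : ℤ)).toNat, ?_, ?_⟩
  · have h1 := Int.emod_nonneg n (b := (q j : ℤ)) (by omega)
    have h2 := Int.emod_lt_of_pos n (b := (q j : ℤ)) (by omega)
    omega
  · have h1 := Int.emod_nonneg n (b := (q j : ℤ)) (by omega)
    rw [← zpow_natCast, Int.toNat_of_nonneg h1]
    conv_lhs => rw [← Int.emod_add_mul_ediv n (q j : ℤ)]
    rw [zpow_add, zpow_mul, zpow_natCast (a j) (q j), a_pow, one_zpow, mul_one]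

lemma pow_mem_zpowers (j : Fin 6) (k : ℕ) : a j ^ k ∈ Subgroup.zpowers (a j) :=
  (Subgroup.zpowers (a j)).pow_mem (Subgroup.mem_zpowers _) k

lemma zpowers_le_P {i j : Fin 6} (h : j ∈ star i) : Subgroup.zpowers (a j) ≤ P i := by
  rw [Subgroup.zpowers_le]; exact a_mem_P h

/-- Only the hyperplane `hyp j x` separates `x` and `x s`, `s ∈ ⟨a_j⟩`. -/
lemma sg_step_ne {H : Hyp} {x s : Gam} {j : Fin 6} (hs : s ∈ Subgroup.zpowers (a j))
    (h : H ≠ hyp j x) : sg H (x * s) = sg H x := by
  obtain ⟨k, -, hk⟩ := zpowers_pow ((Subgroup.zpowers (a j)).inv_mem hs)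
  unfold sg
  rw [mul_inv_rev, hk, mul_assoc, T_pow_mul_ne]
  rintro ⟨rfl, h2⟩
  apply h
  refine (hyp_out H).symm.trans (hyp_eq_iff.2 ?_)
  have := (P H.1).inv_mem h2
  simpa using this

lemma sg_step (x : Gam) (j : Fin 6) (k : ℕ) :
    sg (hyp j x) (x * a j ^ k) = sg (hyp j x) x - k • wt j := by
  obtain ⟨c, hc⟩ := sg_hyp j x
  rw [hc, hc]
  have h1 : T j ((a j ^ k) * (a j ^ k)⁻¹) = T j (a j ^ k)⁻¹ + k • wt j :=
    T_pow_mul_same j k _ ((P j).inv_mem (zpowers_le_P (Or.inl rfl) (pow_mem_zpowers j k)))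
  rw [mul_inv_cancel, T_one] at h1
  have h2 : (x * a j ^ k)⁻¹ * x = (a j ^ k)⁻¹ := by group
  rw [h2, inv_mul_cancel, T_one]
  have h3 : T j (a j ^ k)⁻¹ = - (k • wt j) := by
    rw [eq_neg_iff_add_eq_zero]; exact h1.symm
  rw [h3]; ring

lemma wt_dvd {j : Fin 6} {k : ℕ} (h : k • wt j = 0) : q j ∣ k := by
  rw [nsmul_eq_mul] at h
  have h3 : ∀ j : Fin 6, wt j = ((12 / q j : ℕ) : ZMod 12) := by decide
  rw [h3, ← Nat.cast_mul, ZMod.natCast_eq_zero_iff] at h
  have h4 : ∀ j : Fin 6, 12 = q j * (12 / q j) ∧ 0 < 12 / q j := by decide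
  obtain ⟨h5, h6⟩ := h4 j
  rw [h5, Nat.mul_div_cancel_left _ (by fin_cases j <;> decide)] at h
  exact Nat.dvd_of_mul_dvd_mul_right h6 h

lemma pow_eq_one_iff {j : Fin 6} {k : ℕ} : a j ^ k = 1 ↔ k • wt j = 0 := by
  constructor
  · intro h
    have h1 := T_pow_mul_same j k 1 (P j).one_mem
    rw [mul_one, h, T_one, zero_add] at h1
    exact h1.symm
  · intro h
    obtain ⟨m, rfl⟩ := wt_dvd h
    rw [pow_mul, a_pow, one_pow]

lemma T_zpowers_ne_zero {j : Fin 6} {s : Gam} (hs : s ∈ Subgroup.zpowers (a j)) (h : s ≠ 1) :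
    T j s ≠ 0 := by
  obtain ⟨k, -, rfl⟩ := zpowers_pow hs
  have h1 := T_pow_mul_same j k 1 (P j).one_mem
  rw [mul_one, T_one, zero_add] at h1
  rw [h1]
  intro h2
  exact h (pow_eq_one_iff.2 h2)

/-- an edge crosses exactly one hyperplane -/
lemma adj_cross {x y : Gam} (h : X.Adj x y) :
    ∃ j, x⁻¹ * y ∈ Subgroup.zpowers (a j) ∧ hyp j x = hyp j y ∧
      ∀ H, sg H x ≠ sg H y ↔ H = hyp j x := by
  obtain ⟨hxy, j, hj⟩ := h
  refine ⟨j, hj, hyp_eq_iff.2 (zpowers_le_P (Or.inl rfl) hj), fun H => ?_⟩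
  have hy : y = x * (x⁻¹ * y) := by group
  constructor
  · intro h1
    by_contra h2
    apply h1
    rw [hy]
    exact (sg_step_ne hj h2).symm
  · rintro rfl
    obtain ⟨k, -, hk⟩ := zpowers_pow hj
    rw [hy, hk, sg_step]
    intro h3
    have h4 : k • wt j = 0 := by
      have : sg (hyp j x) x - k • wt j = sg (hyp j x) x - 0 := by rw [sub_zero]; exact h3.symm
      simpa using this
    apply hxy
    rw [hy, hk, pow_eq_one_iff.2 h4, mul_one]

lemma X_left (g x y : Gam) (h : X.Adj x y) : X.Adj (g * x) (g * y) := by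
  obtain ⟨hxy, j, hj⟩ := h
  refine ⟨fun h => hxy (mul_left_cancel h), j, ?_⟩
  have : (g * x)⁻¹ * (g * y) = x⁻¹ * y := by group
  rw [this]; exact hj

/-- left translation as a graph homomorphism -/
def leftHom (g : Gam) : X →g X where
  toFun x := g * x
  map_rel' := fun {x y} h => X_left g x y h

lemma X_adj_mul {x s : Gam} {j : Fin 6} (hs : s ∈ Subgroup.zpowers (a j)) (h : s ≠ 1) :
    X.Adj x (x * s) := by
  refine ⟨fun h2 => h ?_, j, by simpa using hs⟩
  have : x * s = x * 1 := by rw [mul_one]; exact h2.symm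
  exact mul_left_cancel this

lemma reach_mul {x s : Gam} {j : Fin 6} (hs : s ∈ Subgroup.zpowers (a j)) :
    X.Reachable x (x * s) := by
  by_cases h : s = 1
  · rw [h, mul_one]
  · exact (X_adj_mul hs h).reachable

lemma X_connected : X.Connected := by
  have key : ∀ γ, X.Reachable 1 γ := by
    intro γ
    induction γ using gam_induction with
    | h1 => exact SimpleGraph.Reachable.refl 1
    | ha j γ ih =>
      have h1 : X.Reachable 1 (1 * a j) := reach_mul (Subgroup.mem_zpowers _)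
      have h2 : X.Reachable (leftHom (a j) 1) (leftHom (a j) γ) := ih.map (leftHom (a j))
      have h3 : leftHom (a j) 1 = 1 * a j := by simp [leftHom]
      have h4 : leftHom (a j) γ = a j * γ := rfl
      rw [h3, h4] at h2
      exact h1.trans h2
  have : Nonempty Gam := ⟨1⟩
  exact ⟨fun x y => (key x).symm.trans (key y)⟩

lemma sep_subset_union (x y z : Gam) :
    {H | sg H x ≠ sg H z} ⊆ {H | sg H x ≠ sg H y} ∪ {H | sg H y ≠ sg H z} := by
  intro H hH
  by_contra h
  simp only [Set.mem_union, Set.mem_ofPred_eq, not_or, not_not] at h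
  exact hH (h.1.trans h.2)

lemma sep_walk {x y : Gam} (p : X.Walk x y) :
    {H | sg H x ≠ sg H y}.Finite ∧ {H | sg H x ≠ sg H y}.ncard ≤ p.length := by
  induction p with
  | nil => simp
  | @cons u v w h p ih =>
    obtain ⟨j, -, -, hj⟩ := adj_cross h
    have h1 : {H | sg H u ≠ sg H v} = {hyp j u} := by
      ext H; simp only [Set.mem_ofPred_eq, Set.mem_singleton_iff]; exact hj H
    have h2 := sep_subset_union u v w
    rw [h1] at h2
    have hfin : ({hyp j u} ∪ {H | sg H v ≠ sg H w}).Finite := (Set.finite_singleton _).union ih.1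
    refine ⟨hfin.subset h2, ?_⟩
    calc _ ≤ ({hyp j u} ∪ {H | sg H v ≠ sg H w}).ncard := Set.ncard_le_ncard h2 hfin
      _ ≤ ({hyp j u} : Set Hyp).ncard + {H | sg H v ≠ sg H w}.ncard := Set.ncard_union_le _ _
      _ ≤ 1 + p.length := by rw [Set.ncard_singleton]; exact Nat.add_le_add_left ih.2 1
      _ = _ := by rw [SimpleGraph.Walk.length_cons, add_comm]

lemma finite_sep (x y : Gam) : {H | sg H x ≠ sg H y}.Finite := by
  obtain ⟨p⟩ := X_connected.preconnected x y
  exact (sep_walk p).1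

/-- `a i` is central in `P i` -/
lemma central {i : Fin 6} {t p : Gam} (ht : t ∈ Subgroup.zpowers (a i)) (hp : p ∈ P i) :
    t * p = p * t := by
  have h1 : a i ∈ Subgroup.centralizer (P i : Set Gam) := by
    unfold P Cl
    rw [Subgroup.centralizer_closure, Subgroup.mem_centralizer_iff]
    rintro _ ⟨j, hj, rfl⟩
    rcases hj with rfl | hj
    · rfl
    · exact a_comm hj.symm
  have h2 : t ∈ Subgroup.centralizer (P i : Set Gam) := (Subgroup.zpowers_le.2 h1) ht
  exact (Subgroup.mem_centralizer_iff.1 h2 p hp).symm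

lemma X_dist_left (g x y : Gam) : X.dist (g * x) (g * y) = X.dist x y := by
  have key : ∀ g x y, X.dist (g * x) (g * y) ≤ X.dist x y := by
    intro g x y
    obtain ⟨p, hp⟩ := X_connected.exists_walk_length_eq_dist x y
    rw [← hp, ← SimpleGraph.Walk.length_map (leftHom g) p]
    exact SimpleGraph.dist_le _
  apply le_antisymm (key g x y)
  have := key g⁻¹ (g * x) (g * y)
  simpa using this

/-- a nontrivial element is the product of a letter and a shorter element -/
lemma exists_first {γ : Gam} (h : γ ≠ 1) : ∃ j t δ, t ∈ Subgroup.zpowers (a j) ∧ γ = t * δ ∧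
    X.dist 1 γ = X.dist 1 δ + 1 := by
  obtain ⟨p, hp⟩ := X_connected.exists_walk_length_eq_dist 1 γ
  cases p with
  | nil => exact absurd rfl h
  | @cons _ v _ hv p =>
    obtain ⟨j, hj⟩ := hv.2
    rw [inv_one, one_mul] at hj
    refine ⟨j, v, v⁻¹ * γ, hj, by group, ?_⟩
    have h1 : X.dist 1 (v⁻¹ * γ) = X.dist v γ := by
      have := X_dist_left v 1 (v⁻¹ * γ)
      rw [← this]; simp
    rw [h1]
    have h2 : X.dist v γ ≤ p.length := SimpleGraph.dist_le p
    have h3 : X.dist 1 γ ≤ X.dist 1 v + X.dist v γ := X_connected.dist_triangle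
    have h4 : X.dist 1 v ≤ 1 := by
      have := SimpleGraph.dist_le (SimpleGraph.Walk.cons hv SimpleGraph.Walk.nil)
      simpa using this
    rw [SimpleGraph.Walk.length_cons] at hp
    omega

lemma dist_one_inv (γ : Gam) : X.dist 1 γ⁻¹ = X.dist 1 γ := by
  have := X_dist_left γ 1 γ⁻¹
  rw [mul_one, mul_inv_cancel] at this
  rw [← this, SimpleGraph.dist_comm]

/-- a nontrivial element is the product of a shorter element and a letter -/
lemma exists_last {γ : Gam} (h : γ ≠ 1) : ∃ j s δ, s ∈ Subgroup.zpowers (a j) ∧ γ = δ * s ∧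
    X.dist 1 γ = X.dist 1 δ + 1 := by
  obtain ⟨j, t, δ, ht, h1, h2⟩ := exists_first (γ := γ⁻¹) (by simpa using h)
  refine ⟨j, t⁻¹, δ⁻¹, (Subgroup.zpowers (a j)).inv_mem ht, ?_, ?_⟩
  · rw [← mul_inv_rev, ← h1, inv_inv]
  · rw [dist_one_inv] at h2
    rw [h2, dist_one_inv]

lemma dist_one_mul_le (x y : Gam) : X.dist 1 (x * y) ≤ X.dist 1 x + X.dist 1 y := by
  have h3 : X.dist 1 (x * y) ≤ X.dist 1 x + X.dist x (x * y) := X_connected.dist_triangle
  have := X_dist_left x 1 y
  rw [mul_one] at this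
  omega

lemma dist_one_letter_le {j : Fin 6} {s : Gam} (hs : s ∈ Subgroup.zpowers (a j)) :
    X.dist 1 s ≤ 1 := by
  by_cases h : s = 1
  · rw [h, SimpleGraph.dist_self]; omega
  · have h1 : X.Adj 1 (1 * s) := X_adj_mul hs h
    rw [one_mul] at h1
    have := SimpleGraph.dist_le (SimpleGraph.Walk.cons h1 SimpleGraph.Walk.nil)
    simpa using this

lemma T_letter_mul {i j : Fin 6} {t : Gam} (ht : t ∈ Subgroup.zpowers (a j)) (δ : Gam)
    (h : ¬ (j = i ∧ δ ∈ P i)) : T i (t * δ) = T i δ := by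
  obtain ⟨k, -, rfl⟩ := zpowers_pow ht
  exact T_pow_mul_ne k δ h

/-- Lemma B: a minimal word ending in a letter `s` of type `i` has type `i` tail `s`. -/
lemma T_last {i : Fin 6} {s : Gam} (hs : s ∈ Subgroup.zpowers (a i)) : ∀ (n : ℕ) (γ : Gam),
    X.dist 1 γ = n → X.dist 1 (γ * s) = X.dist 1 γ + 1 → T i (γ * s) = T i s := by
  intro n
  induction n with
  | zero =>
    intro γ hγ _
    have : γ = 1 := ((X_connected.dist_eq_zero_iff).1 hγ).symm
    rw [this, one_mul]
  | succ n ih =>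
    intro γ hγ h
    have hne : γ ≠ 1 := by
      rintro rfl
      rw [SimpleGraph.dist_self] at hγ; omega
    obtain ⟨j, t, δ, ht, h1, h2⟩ := exists_first hne
    have h3 : X.dist 1 (γ * s) ≤ 1 + X.dist 1 (δ * s) := by
      rw [h1, mul_assoc]
      exact (dist_one_mul_le _ _).trans (Nat.add_le_add_right (dist_one_letter_le ht) _)
    have h4 : X.dist 1 (δ * s) ≤ X.dist 1 δ + 1 :=
      (dist_one_mul_le _ _).trans (Nat.add_le_add_left (dist_one_letter_le hs) _)
    have h5 := ih δ (by omega) (by omega)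
    rw [h1, mul_assoc, T_letter_mul ht, h5]
    rintro ⟨rfl, h6⟩
    have hsP : s ∈ P j := zpowers_le_P (Or.inl rfl) hs
    have hδ : δ ∈ P j := by
      have := (P j).mul_mem h6 ((P j).inv_mem hsP)
      simpa using this
    have h7 : γ * s = δ * (t * s) := by rw [h1, central ht hδ, mul_assoc]
    have h8 : X.dist 1 (γ * s) ≤ X.dist 1 δ + 1 := by
      rw [h7]
      exact (dist_one_mul_le _ _).trans (Nat.add_le_add_left
        (dist_one_letter_le ((Subgroup.zpowers (a j)).mul_mem ht hs)) _)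
    omega

/-- separation by the local hyperplanes -/
lemma exists_sep {x y : Gam} (h : x ≠ y) : ∃ i, sg (hyp i x) x ≠ sg (hyp i x) y := by
  have h1 : y⁻¹ * x ≠ 1 := by
    intro h2; exact h (inv_mul_eq_one.1 h2).symm
  obtain ⟨j, s, δ, hs, h2, h3⟩ := exists_last h1
  refine ⟨j, ?_⟩
  rw [Ne, sg_eq_iff, inv_mul_cancel, T_one, h2]
  rw [h2] at h3
  rw [T_last hs _ δ rfl h3]
  intro h4
  refine T_zpowers_ne_zero hs ?_ h4.symm
  rintro rfl
  rw [mul_one] at h3
  omega

lemma T_mem (i : Fin 6) (γ : Gam) : ∃ k : ℕ, T i γ = k • wt i := by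
  induction γ using gam_induction with
  | h1 => exact ⟨0, by simp⟩
  | ha j γ ih =>
    obtain ⟨k, hk⟩ := ih
    rw [T_a_mul, hk]
    unfold inc
    split_ifs with h
    · exact ⟨k + 1, by rw [add_smul, one_smul]⟩
    · exact ⟨k, by rw [add_zero]⟩

lemma exists_step {x y : Gam} {i : Fin 6} :
    ∃ s ∈ Subgroup.zpowers (a i), sg (hyp i x) (x * s) = sg (hyp i x) y := by
  obtain ⟨c, hc⟩ := sg_hyp i x
  obtain ⟨k, hk⟩ := T_mem i (y⁻¹ * x)
  obtain ⟨m, hm⟩ : ∃ m : ℕ, m + k = q i * k := by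
    have hq : 1 ≤ q i := by fin_cases i <;> decide
    exact ⟨q i * k - k, Nat.sub_add_cancel (Nat.le_mul_of_pos_left k hq)⟩
  refine ⟨a i ^ m, pow_mem_zpowers i m, ?_⟩
  rw [sg_step, hc, hc, hk, inv_mul_cancel, T_one]
  have h1 : (m + k) • wt i = 0 := by rw [hm, mul_comm, mul_smul, q_wt, smul_zero]
  rw [add_smul] at h1
  have h2 : k • wt i = - (m • wt i) := by rw [eq_neg_iff_add_eq_zero, add_comm]; exact h1
  rw [h2]; ring

lemma sep_step {x y s : Gam} {i : Fin 6} (hs : s ∈ Subgroup.zpowers (a i))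
    (h2 : sg (hyp i x) (x * s) = sg (hyp i x) y) :
    {H | sg H (x * s) ≠ sg H y} = {H | sg H x ≠ sg H y} \ {hyp i x} := by
  ext H
  simp only [Set.mem_ofPred_eq, Set.mem_sdiff, Set.mem_singleton_iff]
  by_cases h3 : H = hyp i x
  · subst h3
    simp [h2]
  · rw [sg_step_ne hs h3]
    simp [h3]

/-- the graph metric counts the separating hyperplanes -/
lemma dist_eq (x y : Gam) : X.dist x y = {H | sg H x ≠ sg H y}.ncard := by
  apply le_antisymm
  · generalize hn : {H | sg H x ≠ sg H y}.ncard = n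
    induction n generalizing x with
    | zero =>
      rw [Set.ncard_eq_zero (finite_sep x y)] at hn
      by_cases h : x = y
      · rw [h, SimpleGraph.dist_self]
      · obtain ⟨i, hi⟩ := exists_sep h
        have : hyp i x ∈ {H | sg H x ≠ sg H y} := hi
        rw [hn] at this
        exact absurd this (Set.notMem_empty _)
    | succ n ih =>
      by_cases h : x = y
      · rw [h, SimpleGraph.dist_self]; omega
      · obtain ⟨i, hi⟩ := exists_sep h
        obtain ⟨s, hs, h2⟩ := exists_step (x := x) (y := y) (i := i)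
        have h3 := sep_step hs h2
        have h4 := ih (x * s) (by
          rw [h3, Set.ncard_sdiff_singleton_of_mem hi, hn]; rfl)
        have h5 : X.dist x y ≤ X.dist x (x * s) + X.dist (x * s) y := X_connected.dist_triangle
        have h6 : X.dist x (x * s) ≤ 1 := by
          have := X_dist_left x 1 s
          rw [mul_one] at this
          rw [this]
          exact dist_one_letter_le hs
        omega
  · obtain ⟨p, hp⟩ := X_connected.exists_walk_length_eq_dist x y
    rw [← hp]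
    exact (sep_walk p).2

lemma T_zero_of_mem {J : Set (Fin 6)} {j : Fin 6} (hj : j ∉ J) {γ : Gam} (h : γ ∈ Cl J) :
    T j γ = 0 := by
  unfold Cl at h
  induction h using Subgroup.closure_induction_left with
  | one => simp
  | mul_left x hx y _ ih =>
    obtain ⟨k, hk, rfl⟩ := hx
    rw [T_letter_mul (Subgroup.mem_zpowers _), ih]
    rintro ⟨rfl, -⟩
    exact hj hk
  | inv_mul_cancel x hx y _ ih =>
    obtain ⟨k, hk, rfl⟩ := hx
    rw [T_letter_mul ((Subgroup.zpowers (a k)).inv_mem (Subgroup.mem_zpowers _)), ih]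
    rintro ⟨rfl, -⟩
    exact hj hk

lemma tails_aux {i j : Fin 6} (hij : i ≠ j) {s : Gam} (hs : s ∈ Subgroup.zpowers (a i)) :
    ∀ (n : ℕ) (γ : Gam), X.dist 1 γ = n → X.dist 1 (γ * s) = X.dist 1 γ + 1 →
      T j (γ * s) ≠ 0 → Adj6 i j := by
  intro n
  induction n with
  | zero =>
    intro γ hγ _ h
    have h1 : γ = 1 := ((X_connected.dist_eq_zero_iff).1 hγ).symm
    rw [h1, one_mul] at h
    exfalso
    apply h
    have : s ∈ Cl {i} := by
      unfold Cl
      rw [Set.image_singleton, ← Subgroup.zpowers_eq_closure]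
      exact hs
    exact T_zero_of_mem (fun h => hij h.symm) this
  | succ n ih =>
    intro γ hγ h hT
    have hne : γ ≠ 1 := by
      rintro rfl
      rw [SimpleGraph.dist_self] at hγ; omega
    obtain ⟨k, t, δ, ht, h1, h2⟩ := exists_first hne
    have h3 : X.dist 1 (γ * s) ≤ 1 + X.dist 1 (δ * s) := by
      rw [h1, mul_assoc]
      exact (dist_one_mul_le _ _).trans (Nat.add_le_add_right (dist_one_letter_le ht) _)
    have h4 : X.dist 1 (δ * s) ≤ X.dist 1 δ + 1 :=
      (dist_one_mul_le _ _).trans (Nat.add_le_add_left (dist_one_letter_le hs) _)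
    by_cases h5 : T j (δ * s) = 0
    · have h6 : k = j ∧ δ * s ∈ P j := by
        by_contra h7
        rw [h1, mul_assoc, T_letter_mul ht _ h7] at hT
        exact hT h5
      have h7 : T i (δ * s) ≠ 0 := by
        rw [T_last hs _ δ rfl (by omega)]
        apply T_zpowers_ne_zero hs
        rintro rfl
        rw [mul_one] at h; omega
      by_contra h8
      apply h7
      apply T_zero_of_mem (J := star j) _ h6.2
      rintro (h9 | h9)
      · exact hij h9
      · exact h8 h9.symm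
    · exact ih δ (by omega) (by omega) h5

/-- If two hyperplanes dual to edges at `x` of different types both separate `x` from `z` then
the types are adjacent. -/
lemma tails_adj {x z : Gam} {i j : Fin 6} (hi : sg (hyp i x) x ≠ sg (hyp i x) z)
    (hj : sg (hyp j x) x ≠ sg (hyp j x) z) (hij : i ≠ j) : Adj6 i j := by
  obtain ⟨s, hs, h2⟩ := exists_step (x := x) (y := z) (i := i)
  have h3 := sep_step hs h2
  have h4 : X.dist (x * s) z + 1 = X.dist x z := by
    rw [dist_eq, dist_eq, h3, Set.ncard_sdiff_singleton_of_mem hi]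
    have : 0 < {H | sg H x ≠ sg H z}.ncard :=
      (Set.ncard_pos (finite_sep x z)).2 ⟨_, hi⟩
    omega
  have e1 : X.dist (x * s) z = X.dist 1 (z⁻¹ * x * s) := by
    rw [← X_dist_left z 1, mul_one, SimpleGraph.dist_comm]
    congr 1; group
  have e2 : X.dist x z = X.dist 1 (z⁻¹ * x) := by
    rw [← X_dist_left z 1, mul_one, SimpleGraph.dist_comm]
    congr 1; group
  rw [e1, e2] at h4
  apply tails_aux hij ((Subgroup.zpowers (a i)).inv_mem hs) _ (z⁻¹ * x * s) rfl
  · rw [mul_assoc (z⁻¹ * x), mul_inv_cancel, mul_one]; exact h4.symm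
  · rw [mul_assoc (z⁻¹ * x), mul_inv_cancel, mul_one]
    rw [Ne, sg_eq_iff, inv_mul_cancel, T_one] at hj
    exact fun h => hj h.symm

/-- hyperplanes separating two points of a coset of `P i` -/
lemma sep_in_coset {i : Fin 6} {x y : Gam} (h : x⁻¹ * y ∈ P i) {H : Hyp} (hH : sg H x ≠ sg H y) :
    ∃ j, (j = i ∨ Adj6 i j) ∧ ∃ z, x⁻¹ * z ∈ P i ∧ H = hyp j z := by
  have key : ∀ p ∈ P i, ∀ x, sg H x ≠ sg H (x * p) →
      ∃ j, (j = i ∨ Adj6 i j) ∧ ∃ z, x⁻¹ * z ∈ P i ∧ H = hyp j z := by
    intro p hp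
    unfold P Cl at hp
    induction hp using Subgroup.closure_induction with
    | mem p hp =>
      obtain ⟨j, hj, rfl⟩ := hp
      intro x h
      refine ⟨j, hj, x, by simp [(P i).one_mem], ?_⟩
      by_contra h2
      exact h (sg_step_ne (Subgroup.mem_zpowers _) h2).symm
    | one => intro x h; simp at h
    | mul p p' hp hp' ih ih' =>
      intro x h
      by_cases h2 : sg H x = sg H (x * p)
      · rw [h2, ← mul_assoc] at h
        obtain ⟨j, hj, z, hz, hH⟩ := ih' _ h
        refine ⟨j, hj, z, ?_, hH⟩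
        have := (P i).mul_mem (show p ∈ P i from hp) hz
        have e : p * ((x * p)⁻¹ * z) = x⁻¹ * z := by group
        rwa [e] at this
      · exact ih x h2
    | inv p hp ih =>
      intro x h
      obtain ⟨j, hj, z, hz, hH⟩ := ih (x * p⁻¹) (by rw [inv_mul_cancel_right]; exact h.symm)
      refine ⟨j, hj, z, ?_, hH⟩
      have := (P i).mul_mem ((P i).inv_mem (show p ∈ P i from hp)) hz
      have e : p⁻¹ * ((x * p⁻¹)⁻¹ * z) = x⁻¹ * z := by group
      rwa [e] at this
  have e : y = x * (x⁻¹ * y) := by group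
  rw [e] at hH
  exact key _ h x hH

/-- the geodesics from `x` to `z` cross a separating hyperplane `H` at some edge -/
lemma exists_gate {H : Hyp} {x z : Gam} (h : sg H x ≠ sg H z) :
    ∃ u, H = hyp H.1 u ∧ sg H u = sg H x ∧ ∀ K, sg K x = sg K u ∨ sg K u = sg K z := by
  generalize hn : {H | sg H x ≠ sg H z}.ncard = n
  induction n generalizing x with
  | zero =>
    rw [Set.ncard_eq_zero (finite_sep x z)] at hn
    have : H ∈ {H | sg H x ≠ sg H z} := h
    rw [hn] at this
    exact absurd this (Set.notMem_empty _)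
  | succ n ih =>
    have hxz : x ≠ z := by rintro rfl; exact h rfl
    obtain ⟨i, hi⟩ := exists_sep hxz
    by_cases hH : H = hyp i x
    · refine ⟨x, by rw [hH, hyp_fst], rfl, fun K => Or.inl rfl⟩
    · obtain ⟨s, hs, h2⟩ := exists_step (x := x) (y := z) (i := i)
      have h3 := sep_step hs h2
      have h4 : sg H (x * s) = sg H x := sg_step_ne hs hH
      obtain ⟨u, hu1, hu2, hu3⟩ := ih (x := x * s) (by rw [h4]; exact h) (by
          rw [h3, Set.ncard_sdiff_singleton_of_mem hi, hn]; rfl)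
      refine ⟨u, hu1, hu2.trans h4, fun K => ?_⟩
      by_cases hK : K = hyp i x
      · subst hK
        right
        rcases hu3 (hyp i x) with h5 | h5
        · rw [← h5]; exact h2
        · exact h5
      · rw [← sg_step_ne hs hK]
        exact hu3 K

/-- left translations act on hyperplanes -/
noncomputable def trans (g : Gam) (H : Hyp) : Hyp := ⟨H.1, g • H.2⟩

lemma trans_hyp (g : Gam) (i : Fin 6) (x : Gam) : trans g (hyp i x) = hyp i (g * x) := rfl

lemma sg_trans (g : Gam) (H : Hyp) (x y : Gam) :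
    sg (trans g H) (g * x) = sg (trans g H) (g * y) ↔ sg H x = sg H y := by
  rw [← hyp_out H, trans_hyp, sg_eq_iff, sg_eq_iff]
  have e : ∀ x : Gam, (g * x)⁻¹ * (g * H.2.out) = x⁻¹ * H.2.out := by intro x; group
  rw [e, e]

lemma trans_mul (g h : Gam) (H : Hyp) : trans (g * h) H = trans g (trans h H) := by
  unfold trans
  rw [mul_smul]

lemma trans_one (H : Hyp) : trans 1 H = H := by
  unfold trans
  rw [one_smul]

lemma X_locallyFinite (x : Gam) : (X.neighborSet x).Finite := by
  have h1 : X.neighborSet x ⊆ ⋃ i : Fin 6, (fun k : ℕ => x * a i ^ k) '' (Set.Iio (q i)) := by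
    intro y hy
    obtain ⟨hxy, j, hj⟩ := hy
    obtain ⟨k, hk, hk2⟩ := zpowers_pow hj
    rw [Set.mem_iUnion]
    exact ⟨j, k, hk, by simp only; rw [← hk2]; group⟩
  exact (Set.finite_iUnion (fun i => (Set.finite_Iio _).image _)).subset h1

end C40b0b
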