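import Mathlib
import Pool.Agent.Lib_c40b0b.GP2

/-!
# MP_c40b0b_al, block C: superlevel sets
-/

namespace C40b0b

/-- `S` is nonempty and every hyperplane has points of `S` in at most two of its sectors. -/
def Good (S : Set Gam) : Prop := S.Nonempty ∧ ∀ H : Hyp, ∃ c d, ∀ s ∈ S, sg H s = c ∨ sg H s = d

/-- the number of hyperplanes separating `x` from all of `S` -/
noncomputable def fS (S : Set Gam) (x : Gam) : ℕ := {H | ∀ s ∈ S, sg H x ≠ sg H s}.ncard

lemma fS_finite {S : Set Gam} (hS : Good S) (x : Gam) : {H | ∀ s ∈ S, sg H x ≠ sg H s}.Finite := by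
  obtain ⟨s, hs⟩ := hS.1
  exact (finite_sep x s).subset fun H hH => hH s hs

lemma fS_le_dist {S : Set Gam} (hS : Good S) (x s : Gam) (hs : s ∈ S) : fS S x ≤ X.dist x s := by
  rw [dist_eq]
  exact Set.ncard_le_ncard (fun H hH => hH s hs) (finite_sep x s)

lemma fS_lipschitz {S : Set Gam} (hS : Good S) {x y : Gam} (h : X.Adj x y) :
    fS S x ≤ fS S y + 1 := by
  obtain ⟨j, -, -, hj⟩ := adj_cross h
  have hsub : {H | ∀ s ∈ S, sg H x ≠ sg H s} ⊆
      insert (hyp j x) {H | ∀ s ∈ S, sg H y ≠ sg H s} := by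
    intro H hH
    by_cases hHj : H = hyp j x
    · exact Or.inl hHj
    · right
      have h1 : sg H x = sg H y := by
        by_contra h2
        exact hHj ((hj H).1 h2)
      intro s hs
      rw [← h1]
      exact hH s hs
  exact (Set.ncard_le_ncard hsub ((fS_finite hS y).insert _)).trans (Set.ncard_insert_le _ _)

lemma fS_lipschitz_dist {S : Set Gam} (hS : Good S) (x y : Gam) :
    fS S x ≤ fS S y + X.dist x y := by
  obtain ⟨p, hp⟩ := X_connected.exists_walk_length_eq_dist x y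
  rw [← hp]
  clear hp
  induction p with
  | nil => simp
  | cons h p ih =>
    have := fS_lipschitz hS h
    rw [SimpleGraph.Walk.length_cons]
    omega

/-- the type `i` is up at `x` -/
def Up (S : Set Gam) (x : Gam) (i : Fin 6) : Prop := ∃ s ∈ S, sg (hyp i x) x = sg (hyp i x) s

/-- The step through `H = hyp i x` increases `fS` if `H` separates the new point from `S`, and
`i` is up. -/
lemma fS_step_up {S : Set Gam} (hS : Good S) {x t : Gam} {i : Fin 6}
    (ht : t ∈ Subgroup.zpowers (a i)) (hi : Up S x i)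
    (h : ∀ s ∈ S, sg (hyp i x) (x * t) ≠ sg (hyp i x) s) : fS S (x * t) = fS S x + 1 := by
  unfold fS
  have h1 : {H | ∀ s ∈ S, sg H (x * t) ≠ sg H s} =
      insert (hyp i x) {H | ∀ s ∈ S, sg H x ≠ sg H s} := by
    ext H
    by_cases hH : H = hyp i x
    · subst hH
      simp only [Set.mem_insert_iff, true_or, iff_true]
      exact h
    · have h2 := sg_step_ne ht hH
      simp only [Set.mem_insert_iff, hH, false_or, Set.mem_ofPred_eq, h2]
  rw [h1, Set.ncard_insert_of_notMem _ (fS_finite hS x)]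
  intro h2
  obtain ⟨s, hs, hse⟩ := hi
  exact h2 s hs hse

/-- the type of an upwards step is up, and the hyperplane separates the new point from `S` -/
lemma up_of_fS_step {S : Set Gam} (hS : Good S) {x t : Gam} {i : Fin 6}
    (ht : t ∈ Subgroup.zpowers (a i)) (h : fS S x < fS S (x * t)) :
    Up S x i ∧ ∀ s ∈ S, sg (hyp i x) (x * t) ≠ sg (hyp i x) s := by
  by_contra hcon
  rw [not_and_or] at hcon
  apply absurd h
  rw [not_lt]
  unfold fS
  refine Set.ncard_le_ncard ?_ (fS_finite hS x)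
  intro H hH
  by_cases hHi : H = hyp i x
  · subst hHi
    rcases hcon with hcon | hcon
    · intro s hs hse
      exact hcon ⟨s, hs, hse⟩
    · exact absurd hH hcon
  · have h2 := sg_step_ne ht hHi
    intro s hs
    rw [← h2]
    exact hH s hs

/-- at an up type there is an upwards step -/
lemma exists_up_step {S : Set Gam} (hS : Good S) {x : Gam} {i : Fin 6} (hi : Up S x i) :
    ∃ t ∈ Subgroup.zpowers (a i), t ≠ 1 ∧
      ∀ s ∈ S, sg (hyp i x) (x * t) ≠ sg (hyp i x) s := by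
  obtain ⟨c, d, hcd⟩ := hS.2 (hyp i x)
  have hw : ∀ i : Fin 6, wt i ≠ 0 ∧ 2 • wt i ≠ 0 ∧ wt i ≠ 2 • wt i := by decide
  obtain ⟨hw1, hw2, hw3⟩ := hw i
  have key : ∃ k : ℕ, sg (hyp i x) (x * a i ^ k) ≠ c ∧ sg (hyp i x) (x * a i ^ k) ≠ d := by
    by_contra hcon
    have hcon' : ∀ k : ℕ, sg (hyp i x) x - k • wt i = c ∨ sg (hyp i x) x - k • wt i = d := by
      intro k
      by_contra h
      rw [not_or] at h
      exact hcon ⟨k, by rw [sg_step]; exact h.1, by rw [sg_step]; exact h.2⟩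
    have h0 := hcon' 0
    have h1 := hcon' 1
    have h2 := hcon' 2
    rw [zero_smul, sub_zero] at h0
    rw [one_smul] at h1
    rw [two_smul] at h2 hw2 hw3
    rcases h0 with h0 | h0 <;> rcases h1 with h1 | h1 <;> rcases h2 with h2 | h2 <;>
      first
        | exact hw1 (by linear_combination h0 - h1)
        | exact hw2 (by linear_combination h0 - h2)
        | exact hw1 (by linear_combination h1 - h2)
  obtain ⟨k, hk1, hk2⟩ := key
  refine ⟨a i ^ k, pow_mem_zpowers i k, ?_, ?_⟩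
  · intro h1
    rw [h1, mul_one] at hk1 hk2
    obtain ⟨s, hs, hse⟩ := hi
    rcases hcd s hs with h2 | h2
    · exact hk1 (hse.trans h2)
    · exact hk2 (hse.trans h2)
  · intro s hs hse
    rcases hcd s hs with h2 | h2
    · exact hk1 (hse.trans h2)
    · exact hk2 (hse.trans h2)

/-- types which are not up are pairwise adjacent -/
lemma adj_of_not_up {S : Set Gam} (hS : Good S) {x : Gam} {i j : Fin 6} (hij : i ≠ j)
    (hi : ¬ Up S x i) (hj : ¬ Up S x j) : Adj6 i j := by
  obtain ⟨s, hs⟩ := hS.1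
  exact tails_adj (z := s) (fun h => hi ⟨s, hs, h⟩) (fun h => hj ⟨s, hs, h⟩) hij

lemma fS_ascend {S : Set Gam} (hS : Good S) (x : Gam) : ∃ y, X.Adj x y ∧ fS S y = fS S x + 1 := by
  have h : ∃ i, Up S x i := by
    by_contra hcon
    push Not at hcon
    have := adj_of_not_up hS (i := 0) (j := 2) (by decide) (hcon 0) (hcon 2)
    exact absurd this (by decide)
  obtain ⟨i, hi⟩ := h
  obtain ⟨t, ht, ht1, hts⟩ := exists_up_step hS hi
  exact ⟨x * t, X_adj_mul ht ht1, fS_step_up hS ht hi hts⟩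

lemma fS_ascend_n {S : Set Gam} (hS : Good S) (x : Gam) (k : ℕ) :
    ∃ y, X.dist x y ≤ k ∧ fS S y = fS S x + k := by
  induction k with
  | zero => exact ⟨x, by simp, by simp⟩
  | succ k ih =>
    obtain ⟨y, hy1, hy2⟩ := ih
    obtain ⟨z, hz1, hz2⟩ := fS_ascend hS y
    refine ⟨z, ?_, by omega⟩
    have h1 := X_connected.dist_triangle (u := x) (v := y) (w := z)
    have h2 : X.dist y z = 1 := SimpleGraph.dist_eq_one_iff_adj.2 hz1
    omega

/-! ### superlevel sets -/

/-- edges of the superlevel graph -/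
def E (S : Set Gam) (n : ℕ) (u v : Gam) : Prop := X.Adj u v ∧ n ≤ fS S u ∧ n ≤ fS S v

/-- being joined in the superlevel graph -/
def J (S : Set Gam) (n : ℕ) : Gam → Gam → Prop := Relation.ReflTransGen (E S n)

lemma J.symm {S : Set Gam} {n : ℕ} {u v : Gam} (h : J S n u v) : J S n v u := by
  induction h with
  | refl => exact Relation.ReflTransGen.refl
  | tail _ h ih => exact Relation.ReflTransGen.head ⟨h.1.symm, h.2.2, h.2.1⟩ ih

lemma J.trans {S : Set Gam} {n : ℕ} {u v w : Gam} (h : J S n u v) (h' : J S n v w) : J S n u w :=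
  Relation.ReflTransGen.trans h h'

lemma J_of_adj {S : Set Gam} {n : ℕ} {u v : Gam} (h : X.Adj u v) (hu : n ≤ fS S u)
    (hv : n ≤ fS S v) : J S n u v := Relation.ReflTransGen.single ⟨h, hu, hv⟩

/-- an upwards step of type `i` at `v` -/
def Ups (S : Set Gam) (v : Gam) (i : Fin 6) (t : Gam) : Prop :=
  t ∈ Subgroup.zpowers (a i) ∧ Up S v i ∧ ∀ s ∈ S, sg (hyp i v) (v * t) ≠ sg (hyp i v) s

lemma Ups.fS_eq {S : Set Gam} (hS : Good S) {v t : Gam} {i : Fin 6} (h : Ups S v i t) :
    fS S (v * t) = fS S v + 1 := fS_step_up hS h.1 h.2.1 h.2.2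

lemma zpowers_comm {i j : Fin 6} (h : Adj6 i j) {s t : Gam} (hs : s ∈ Subgroup.zpowers (a i))
    (ht : t ∈ Subgroup.zpowers (a j)) : s * t = t * s := by
  obtain ⟨m, rfl⟩ := Subgroup.mem_zpowers_iff.1 hs
  obtain ⟨n, rfl⟩ := Subgroup.mem_zpowers_iff.1 ht
  have : Commute (a i) (a j) := a_comm h
  exact (this.zpow_zpow m n).eq

/-- a step of type `j` commutes with a step of an adjacent type `i` -/
lemma Ups.transport {S : Set Gam} {v s t : Gam} {i j : Fin 6} (hij : Adj6 i j)
    (hs : s ∈ Subgroup.zpowers (a i)) (h : Ups S v j t) : Ups S (v * s) j t := by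
  have hP : hyp j (v * s) = hyp j v := hyp_mul v (zpowers_le_P (Or.inr hij.symm) hs)
  have hne : ∀ x, hyp j v ≠ hyp i x := by
    intro x he
    exact hij.ne (congrArg Sigma.fst he).symm
  refine ⟨h.1, ?_, ?_⟩
  · obtain ⟨s₀, hs₀, hse⟩ := h.2.1
    refine ⟨s₀, hs₀, ?_⟩
    rw [hP, sg_step_ne hs (hne v), hse]
  · intro s₀ hs₀
    rw [hP]
    have h1 : v * s * t = v * t * s := by
      rw [mul_assoc, zpowers_comm hij hs h.1, ← mul_assoc]
    rw [h1, sg_step_ne hs (hne (v * t))]
    exact h.2.2 s₀ hs₀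

lemma join_same {S : Set Gam} (hS : Good S) {v s t : Gam} {i : Fin 6} (hs : Ups S v i s)
    (ht : Ups S v i t) : J S (fS S v + 1) (v * s) (v * t) := by
  by_cases hst : s = t
  · subst hst
    exact Relation.ReflTransGen.refl
  · refine J_of_adj ?_ (hs.fS_eq hS).ge (ht.fS_eq hS).ge
    have h1 : v * t = v * s * (s⁻¹ * t) := by group
    rw [h1]
    refine X_adj_mul (j := i) (mul_mem (inv_mem hs.1) ht.1) ?_
    intro h2
    exact hst (inv_mul_eq_one.1 h2)

lemma ne_one_of_Ups {S : Set Gam} (hS : Good S) {v s : Gam} {i : Fin 6} (hs : Ups S v i s) :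
    s ≠ 1 := by
  rintro rfl
  have := hs.fS_eq hS
  rw [mul_one] at this
  omega

lemma join_adj {S : Set Gam} (hS : Good S) {v s t : Gam} {i j : Fin 6} (hij : Adj6 i j)
    (hs : Ups S v i s) (ht : Ups S v j t) : J S (fS S v + 1) (v * s) (v * t) := by
  have h1 := (ht.transport hij hs.1).fS_eq hS
  have h2 := hs.fS_eq hS
  have h3 := ht.fS_eq hS
  have h4 : v * s * t = v * t * s := by
    rw [mul_assoc, zpowers_comm hij hs.1 ht.1, ← mul_assoc]
  refine J.trans (v := v * s * t) (J_of_adj (X_adj_mul ht.1 (ne_one_of_Ups hS ht)) (by omega)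
    (by omega)) ?_
  rw [h4] at h1 ⊢
  exact J_of_adj (X_adj_mul hs.1 (ne_one_of_Ups hS hs)).symm (by omega) (by omega)

/-- the shifts of the hexagon -/
def sh (i : Fin 6) (t : ℕ) : Fin 6 := ⟨(i.1 + t) % 6, Nat.mod_lt _ (by decide)⟩

lemma sh_zero (i : Fin 6) : sh i 0 = i := by
  revert i; decide

lemma adj_sh (i : Fin 6) (t : ℕ) : Adj6 (sh i t) (sh i (t + 1)) := by
  left
  apply Fin.ext
  rw [Fin.val_add]
  simp only [sh, Fin.val_one]
  omega

lemma join_chain {S : Set Gam} (hS : Good S) {v : Gam} (i : Fin 6) (m : ℕ)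
    (h : ∀ t ≤ m, Up S v (sh i t)) {s t : Gam} (hs : Ups S v i s)
    (ht : Ups S v (sh i m) t) : J S (fS S v + 1) (v * s) (v * t) := by
  induction m generalizing t with
  | zero =>
    rw [sh_zero] at ht
    exact join_same hS hs ht
  | succ m ih =>
    obtain ⟨r, hr, -, hr2⟩ := exists_up_step hS (h m (Nat.le_succ m))
    have hr' : Ups S v (sh i m) r := ⟨hr, h m (Nat.le_succ m), hr2⟩
    exact (ih (fun t ht => h t (ht.trans (Nat.le_succ m))) hr').trans
      (join_adj hS (adj_sh i m) hr' ht)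

lemma hexagon_sep : ∀ i m t₁ t₂ : Fin 6, 0 < t₁.1 → t₁.1 < m.1 → 0 < t₂.1 → t₂.1 < 6 - m.1 →
    sh i t₁.1 ≠ sh (sh i m.1) t₂.1 ∧ ¬ Adj6 (sh i t₁.1) (sh (sh i m.1) t₂.1) := by decide

lemma exists_sh : ∀ i j : Fin 6, ∃ m : Fin 6, j = sh i m.1 := by decide

lemma sh_back : ∀ i m : Fin 6, sh (sh i m.1) (6 - m.1) = i := by decide

/-- two upwards steps at `v` are joined -/
lemma join_up {S : Set Gam} (hS : Good S) {v s t : Gam} {i j : Fin 6} (hs : Ups S v i s)
    (ht : Ups S v j t) : J S (fS S v + 1) (v * s) (v * t) := by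
  obtain ⟨m, rfl⟩ := exists_sh i j
  by_cases h1 : ∀ t ≤ m.1, Up S v (sh i t)
  · exact join_chain hS i m h1 hs ht
  · have h2 : ∀ t ≤ 6 - m.1, Up S v (sh (sh i m.1) t) := by
      intro t₂ ht₂
      by_contra h3
      push Not at h1
      obtain ⟨t₁, ht₁, h4⟩ := h1
      have hm6 : m.1 < 6 := m.2
      have ht10 : t₁ ≠ 0 := by
        rintro rfl
        apply h4
        rw [sh_zero]
        exact hs.2.1
      have ht1m : t₁ ≠ m.1 := by
        rintro rfl
        exact h4 ht.2.1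
      have ht20 : t₂ ≠ 0 := by
        rintro rfl
        apply h3
        rw [sh_zero]
        exact ht.2.1
      have ht2m : t₂ ≠ 6 - m.1 := by
        rintro rfl
        apply h3
        rw [sh_back]
        exact hs.2.1
      obtain ⟨h5, h6⟩ := hexagon_sep i m ⟨t₁, by omega⟩ ⟨t₂, by omega⟩
        (by simp only; omega) (by simp only; omega) (by simp only; omega) (by simp only; omega)
      exact h6 (adj_of_not_up hS h5 h4 h3)
    refine (join_chain hS (sh i m.1) (6 - m.1) h2 ht ?_).symm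
    rw [sh_back]
    exact hs

/-- a neighbour one level up is reached by an upwards step -/
lemma exists_Ups {S : Set Gam} (hS : Good S) {v u : Gam} (h : X.Adj v u) (hu : fS S v < fS S u) :
    ∃ i t, Ups S v i t ∧ u = v * t := by
  obtain ⟨-, i, hi⟩ := h
  have hu' : u = v * (v⁻¹ * u) := by group
  obtain ⟨h1, h2⟩ := up_of_fS_step hS hi (by rw [← hu']; exact hu)
  exact ⟨i, v⁻¹ * u, ⟨hi, h1, h2⟩, hu'⟩

/-- the replacements of `v` -/
def Rep (S : Set Gam) (n : ℕ) (v u : Gam) : Prop :=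
  (u = v ∧ n + 1 ≤ fS S v) ∨ (fS S v = n ∧ X.Adj v u ∧ fS S u = n + 1)

lemma exists_Rep {S : Set Gam} (hS : Good S) {n : ℕ} {v : Gam} (hv : n ≤ fS S v) :
    ∃ u, Rep S n v u := by
  rcases hv.lt_or_eq with h | h
  · exact ⟨v, Or.inl ⟨rfl, h⟩⟩
  · obtain ⟨y, hy1, hy2⟩ := fS_ascend hS v
    exact ⟨y, Or.inr ⟨h.symm, hy1, by omega⟩⟩

lemma join_Rep {S : Set Gam} (hS : Good S) {n : ℕ} {v u u' : Gam} (h : Rep S n v u)
    (h' : Rep S n v u') : J S (n + 1) u u' := by
  rcases h with ⟨rfl, h⟩ | ⟨hv, h1, h2⟩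
  · rcases h' with ⟨rfl, h'⟩ | ⟨hv, -⟩
    · exact Relation.ReflTransGen.refl
    · omega
  · rcases h' with ⟨rfl, h'⟩ | ⟨-, h3, h4⟩
    · omega
    · obtain ⟨i, s, hs, rfl⟩ := exists_Ups hS h1 (by omega)
      obtain ⟨j, t, ht, rfl⟩ := exists_Ups hS h3 (by omega)
      rw [← hv]
      exact join_up hS hs ht

lemma join_Rep_edge {S : Set Gam} (hS : Good S) {n : ℕ} {v w u u' : Gam} (he : E S n v w)
    (h : Rep S n v u) (h' : Rep S n w u') : J S (n + 1) u u' := by
  obtain ⟨hadj, hv, hw⟩ := he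
  rcases hv.lt_or_eq with hv' | hv'
  · rcases hw.lt_or_eq with hw' | hw'
    · -- both high
      have h1 : u = v := by
        rcases h with ⟨h, -⟩ | ⟨h, -⟩
        · exact h
        · omega
      have h2 : u' = w := by
        rcases h' with ⟨h, -⟩ | ⟨h, -⟩
        · exact h
        · omega
      rw [h1, h2]
      exact J_of_adj hadj hv' hw'
    · -- `v` high, `w` low
      have h1 : u = v := by
        rcases h with ⟨h, -⟩ | ⟨h, -⟩
        · exact h
        · omega
      have h2 := fS_lipschitz hS hadj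
      rw [h1]
      exact join_Rep hS (v := w) (Or.inr ⟨hw'.symm, hadj.symm, by omega⟩) h'
  · rcases hw.lt_or_eq with hw' | hw'
    · have h1 : u' = w := by
        rcases h' with ⟨h, -⟩ | ⟨h, -⟩
        · exact h
        · omega
      have h2 := fS_lipschitz hS hadj.symm
      rw [h1]
      exact join_Rep hS (v := v) h (Or.inr ⟨hv'.symm, hadj, by omega⟩)
    · -- both low
      obtain ⟨hne, i, hi⟩ := hadj
      have hw2 : w = v * (v⁻¹ * w) := by group
      set s := v⁻¹ * w with hs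
      have hs1 : s ≠ 1 := by
        intro h1
        rw [h1, mul_one] at hw2
        exact hne hw2.symm
      have hU : ∃ j, Adj6 i j ∧ Up S v j := by
        by_contra hcon
        push Not at hcon
        have h1 : ∀ i : Fin 6, Adj6 i (i + 1) ∧ Adj6 i (i - 1) ∧ i + 1 ≠ i - 1 ∧
            ¬ Adj6 (i + 1) (i - 1) := by decide
        obtain ⟨h2, h3, h4, h5⟩ := h1 i
        exact h5 (adj_of_not_up hS h4 (hcon _ h2) (hcon _ h3))
      obtain ⟨j, hij, hj⟩ := hU
      obtain ⟨t, ht, -, ht2⟩ := exists_up_step hS hj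
      have hU1 : Ups S v j t := ⟨ht, hj, ht2⟩
      have hU2 : Ups S (v * s) j t := hU1.transport hij hi
      rw [← hw2] at hU2
      have h1 := hU1.fS_eq hS
      have h2 := hU2.fS_eq hS
      have ht1 := ne_one_of_Ups hS hU1
      have e1 : w * t = v * t * s := by
        rw [hw2, mul_assoc, zpowers_comm hij hi ht, ← mul_assoc]
      have j1 : J S (n + 1) u (v * t) := join_Rep hS h
        (Or.inr ⟨hv'.symm, X_adj_mul ht ht1, by omega⟩)
      have j2 : J S (n + 1) (w * t) u' := join_Rep hS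
        (Or.inr ⟨hw'.symm, X_adj_mul ht ht1, by omega⟩) h'
      have j3 : J S (n + 1) (v * t) (w * t) := by
        refine J_of_adj ?_ (by omega) (by omega)
        rw [e1]
        exact X_adj_mul hi hs1
      exact (j1.trans j3).trans j2

lemma J_superlevel {S : Set Gam} (hS : Good S) (n : ℕ) :
    ∀ x y, n ≤ fS S x → n ≤ fS S y → J S n x y := by
  induction n with
  | zero =>
    intro x y _ _
    obtain ⟨p⟩ := X_connected.preconnected x y
    induction p with
    | nil => exact Relation.ReflTransGen.refl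
    | cons h p ih =>
      exact Relation.ReflTransGen.head ⟨h, Nat.zero_le _, Nat.zero_le _⟩
        (ih (Nat.zero_le _) (Nat.zero_le _))
  | succ n ih =>
    intro x y hx hy
    have hxy := ih x y (by omega) (by omega)
    have key : ∀ z, J S n x z → ∀ z', Rep S n z z' → J S (n + 1) x z' := by
      intro z hz
      induction hz with
      | refl => intro z' hz'; exact join_Rep hS (v := x) (Or.inl ⟨rfl, hx⟩) hz'
      | @tail b c hb hbc ih2 =>
        intro z' hz'
        obtain ⟨u, hu⟩ := exists_Rep hS hbc.2.1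
        exact (ih2 u hu).trans (join_Rep_edge hS hbc hu hz')
    exact key y hxy y (Or.inl ⟨rfl, hy⟩)

lemma reach_of_J {S : Set Gam} {n : ℕ} {x y : Gam} (h : J S n x y) (hx : n ≤ fS S x) :
    ∃ hy : n ≤ fS S y, (X.induce {x | n ≤ fS S x}).Reachable ⟨x, hx⟩ ⟨y, hy⟩ := by
  induction h with
  | refl => exact ⟨hx, SimpleGraph.Reachable.refl _⟩
  | @tail b c _ hbc ih =>
    obtain ⟨hb, hr⟩ := ih
    refine ⟨hbc.2.2, hr.trans ?_⟩
    exact SimpleGraph.Adj.reachable (G := X.induce {x | n ≤ fS S x})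
      (u := ⟨b, hb⟩) (v := ⟨c, hbc.2.2⟩) hbc.1

/-- superlevel sets are connected -/
theorem fS_superlevel {S : Set Gam} (hS : Good S) (n : ℕ) :
    (X.induce {x | n ≤ fS S x}).Preconnected := by
  rintro ⟨x, hx⟩ ⟨y, hy⟩
  obtain ⟨hy', h⟩ := reach_of_J (J_superlevel hS n x y hx hy) hx
  exact h

lemma trans_injective (g : Gam) : Function.Injective (trans g) := by
  intro H K h
  have h1 := congrArg (trans g⁻¹) h
  rwa [← trans_mul, ← trans_mul, inv_mul_cancel, trans_one, trans_one] at h1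

lemma fS_trans (g : Gam) (S : Set Gam) (x : Gam) : fS ((fun s => g * s) '' S) (g * x) = fS S x := by
  unfold fS
  have h : {H | ∀ s ∈ (fun s => g * s) '' S, sg H (g * x) ≠ sg H s} =
      trans g '' {H | ∀ s ∈ S, sg H x ≠ sg H s} := by
    ext H
    constructor
    · intro hH
      have hHe : trans g (trans g⁻¹ H) = H := by rw [← trans_mul, mul_inv_cancel, trans_one]
      refine ⟨trans g⁻¹ H, fun s hs he => ?_, hHe⟩
      refine hH (g * s) ⟨s, hs, rfl⟩ ?_
      have := (sg_trans g (trans g⁻¹ H) x s).2 he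
      rwa [hHe] at this
    · rintro ⟨H', hH', rfl⟩ _ ⟨s, hs, rfl⟩ he
      exact hH' s hs ((sg_trans g H' x s).1 he)
  rw [h, Set.ncard_image_of_injective _ (trans_injective g)]

lemma good_trans (g : Gam) {S : Set Gam} (hS : Good S) : Good ((fun s => g * s) '' S) := by
  classical
  refine ⟨hS.1.image _, fun H => ?_⟩
  have hHe : trans g (trans g⁻¹ H) = H := by rw [← trans_mul, mul_inv_cancel, trans_one]
  obtain ⟨c, d, hcd⟩ := hS.2 (trans g⁻¹ H)
  have key : ∀ c, ∃ c', ∀ s ∈ S, sg (trans g⁻¹ H) s = c → sg H (g * s) = c' := by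
    intro c
    by_cases h : ∃ s ∈ S, sg (trans g⁻¹ H) s = c
    · obtain ⟨s₀, hs₀, he⟩ := h
      refine ⟨sg H (g * s₀), fun s hs hse => ?_⟩
      have := (sg_trans g (trans g⁻¹ H) s s₀).2 (hse.trans he.symm)
      rwa [hHe] at this
    · exact ⟨0, fun s hs he => absurd ⟨s, hs, he⟩ h⟩
  obtain ⟨c', hc'⟩ := key c
  obtain ⟨d', hd'⟩ := key d
  refine ⟨c', d', ?_⟩
  rintro _ ⟨s, hs, rfl⟩
  rcases hcd s hs with h | h
  · exact Or.inl (hc' s hs h)
  · exact Or.inr (hd' s hs h)

lemma good_one : Good {1} :=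
  ⟨⟨1, rfl⟩, fun H => ⟨sg H 1, sg H 1, fun s hs => Or.inl (by rw [Set.mem_singleton_iff.1 hs])⟩⟩

lemma fS_one (x : Gam) : fS {1} x = X.dist 1 x := by
  rw [dist_eq]
  unfold fS
  congr 1
  ext H
  simp only [Set.mem_singleton_iff, forall_eq, Set.mem_ofPred_eq]
  exact ne_comm

lemma ball_finite (n : ℕ) : {x | X.dist 1 x ≤ n}.Finite := by
  induction n with
  | zero =>
    refine (Set.finite_singleton (1 : Gam)).subset ?_
    intro x hx
    have h1 : X.dist 1 x = 0 := Nat.le_zero.1 hx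
    exact (X_connected.dist_eq_zero_iff.1 h1).symm
  | succ n ih =>
    refine ((ih.biUnion fun x _ => X_locallyFinite x).union ih).subset ?_
    intro x hx
    by_cases h : X.dist 1 x ≤ n
    · exact Or.inr h
    · left
      obtain ⟨p, hp⟩ := X_connected.exists_walk_length_eq_dist x 1
      have h1 : X.dist x 1 = n + 1 := by
        rw [SimpleGraph.dist_comm]
        have : X.dist 1 x ≤ n + 1 := hx
        omega
      cases p with
      | nil => simp at h1
      | @cons _ m _ hadj p =>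
        rw [h1, SimpleGraph.Walk.length_cons] at hp
        refine Set.mem_biUnion (x := m) ?_ hadj.symm
        have h2 : X.dist m 1 ≤ p.length := SimpleGraph.dist_le p
        change X.dist 1 m ≤ n
        rw [SimpleGraph.dist_comm]
        omega

/-- The Cayley graph is one-ended. -/
theorem X_oneEnded : OneEnded X := by
  intro F
  -- a ball containing `F`
  obtain ⟨n, hn⟩ : ∃ n, ∀ x ∈ F, X.dist 1 x < n :=
    ⟨F.sup (fun x => X.dist 1 x) + 1, fun x hx => Nat.lt_succ_of_le (Finset.le_sup (f := fun x => X.dist 1 x) hx)⟩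
  have hBF : ∀ x, n ≤ X.dist 1 x → x ∉ F := fun x hx hxF => by
    have := hn x hxF
    omega
  have hBc : {x | ¬ n ≤ X.dist 1 x}.Finite := (ball_finite n).subset fun x hx => by
    have : ¬ n ≤ X.dist 1 x := hx
    change X.dist 1 x ≤ n
    omega
  -- arbitrarily far points
  have hfar : ∀ m, ∃ x, X.dist 1 x = m := by
    intro m
    obtain ⟨y, -, hy⟩ := fS_ascend_n good_one 1 m
    refine ⟨y, ?_⟩
    rw [fS_one, fS_one, SimpleGraph.dist_self, zero_add] at hy
    exact hy
  have hBinf : {x | n ≤ X.dist 1 x}.Infinite := by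
    intro hfin
    obtain ⟨M, hM⟩ := (hfin.image (fun x => X.dist 1 x)).bddAbove
    obtain ⟨x, hx⟩ := hfar (max n (M + 1))
    have h1 : n ≤ X.dist 1 x := by rw [hx]; exact le_max_left _ _
    have h2 := hM ⟨x, h1, rfl⟩
    simp only at h2
    have h3 : M + 1 ≤ X.dist 1 x := by rw [hx]; exact le_max_right _ _
    omega
  -- reachability
  have hreach : ∀ x y (hx : n ≤ X.dist 1 x) (hy : n ≤ X.dist 1 y),
      (X.induce {x : Gam | x ∉ F}).Reachable ⟨x, hBF x hx⟩ ⟨y, hBF y hy⟩ := by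
    intro x y hx hy
    have h1 := fS_superlevel good_one n ⟨x, by change n ≤ fS {1} x; rwa [fS_one]⟩
      ⟨y, by change n ≤ fS {1} y; rwa [fS_one]⟩
    let φ : X.induce {x | n ≤ fS {1} x} →g X.induce {x : Gam | x ∉ F} :=
      { toFun := fun x => ⟨x.1, hBF x.1 (by
          have : n ≤ fS {1} x.1 := x.2
          rwa [fS_one] at this)⟩
        map_rel' := fun {a b} h => h }
    exact h1.map φ
  obtain ⟨b, hb⟩ := hfar n
  refine ⟨(X.induce {x : Gam | x ∉ F}).connectedComponentMk ⟨b, hBF b hb.ge⟩, ?_, ?_⟩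
  · -- infinite
    intro hfin
    apply hBinf
    refine (hfin.image Subtype.val).subset ?_
    intro x hx
    refine ⟨⟨x, hBF x hx⟩, ?_, rfl⟩
    rw [SimpleGraph.ConnectedComponent.mem_supp_iff, SimpleGraph.ConnectedComponent.eq]
    exact hreach x b hx hb.ge
  · intro C hC
    have h1 : ∃ x ∈ C.supp, n ≤ X.dist 1 x.1 := by
      by_contra hcon
      push Not at hcon
      apply hC
      refine Set.Finite.of_finite_image (f := Subtype.val) (hBc.subset ?_)
        Subtype.val_injective.injOn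
      rintro _ ⟨x, hx, rfl⟩
      exact not_le.2 (hcon x hx)
    obtain ⟨x, hx, hxn⟩ := h1
    rw [SimpleGraph.ConnectedComponent.mem_supp_iff] at hx
    rw [← hx, SimpleGraph.ConnectedComponent.eq]
    exact hreach x.1 b hxn hb.ge

/-- thin sets -/
def Thin (A : Set Gam) : Prop := ∃ S : Set Gam, ∃ R : ℕ, Good S ∧ ∀ x ∈ A, fS S x ≤ R

lemma thin_subset (A B : Set Gam) (h : A ⊆ B) (hB : Thin B) : Thin A := by
  obtain ⟨S, R, hS, hR⟩ := hB
  exact ⟨S, R, hS, fun x hx => hR x (h hx)⟩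

lemma thin_trans (g : Gam) (A : Set Gam) (h : Thin A) : Thin ((fun x => g * x) '' A) := by
  obtain ⟨S, R, hS, hR⟩ := h
  refine ⟨(fun s => g * s) '' S, R, good_trans g hS, ?_⟩
  rintro _ ⟨x, hx, rfl⟩
  rw [fS_trans]
  exact hR x hx

lemma thin_compl (A : Set Gam) (h : Thin A) : ¬ Thin Aᶜ := by
  rintro ⟨S₂, R₂, hS₂, hR₂⟩
  obtain ⟨S, R, hS, hR⟩ := h
  obtain ⟨x₁, -, hx₁⟩ := fS_ascend_n hS 1 (R + R₂ + 2)
  obtain ⟨x₂, hd, hx₂⟩ := fS_ascend_n hS₂ x₁ (R₂ + 1)
  have h1 := fS_lipschitz_dist hS x₁ x₂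
  by_cases hA : x₂ ∈ A
  · have := hR x₂ hA
    omega
  · have := hR₂ x₂ hA
    omega

lemma thin_ball (A : Set Gam) (h : Thin A) : ∃ n : ℕ, ∀ x : Gam, ∃ y : Gam, X.dist x y ≤ n ∧ y ∉ A := by
  obtain ⟨S, R, hS, hR⟩ := h
  refine ⟨R + 1, fun x => ?_⟩
  obtain ⟨y, hy1, hy2⟩ := fS_ascend_n hS x (R + 1)
  refine ⟨y, hy1, fun hA => ?_⟩
  have := hR y hA
  omega

/-- the boundary property, for a set whose edge boundary stays close to a good set -/
lemma thin_bdry (S : Set Gam) (hS : Good S) (R : ℕ) (A : Set Gam)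
    (h : ∀ x y, X.Adj x y → x ∈ A → y ∉ A → ∃ s ∈ S, X.dist x s ≤ R) : Thin A ∨ Thin Aᶜ := by
  by_contra hcon
  rw [not_or] at hcon
  obtain ⟨hA, hB⟩ := hcon
  have h1 : ∃ x ∈ A, R + 1 ≤ fS S x := by
    by_contra hcon
    push Not at hcon
    exact hA ⟨S, R, hS, fun x hx => Nat.lt_succ_iff.1 (hcon x hx)⟩
  have h2 : ∃ x ∉ A, R + 1 ≤ fS S x := by
    by_contra hcon
    push Not at hcon
    exact hB ⟨S, R, hS, fun x hx => Nat.lt_succ_iff.1 (hcon x hx)⟩
  obtain ⟨x, hxA, hx⟩ := h1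
  obtain ⟨y, hyA, hy⟩ := h2
  have key : ∀ z, J S (R + 1) x z → z ∈ A := by
    intro z hz
    induction hz with
    | refl => exact hxA
    | @tail b c _ hbc ih =>
      by_contra hc
      obtain ⟨s, hs, hd⟩ := h b c hbc.1 ih hc
      have h3 := fS_le_dist hS b s hs
      have h4 := hbc.2.1
      omega
  exact hyA (key y (J_superlevel hS (R + 1) x y hx hy))

end C40b0b
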