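import Mathlib
import Pool.Agent.Lib_c40b0b.Morse

/-!
# MP_c40b0b_al, block C6: cyclic subgroups stay close to good sets
-/

namespace C40b0b

lemma T_ne_iff_sep (i : Fin 6) (x y : Gam) :
    sg (hyp i x) x ≠ sg (hyp i x) y ↔ T i (y⁻¹ * x) ≠ 0 := by
  rw [Ne, sg_eq_iff, inv_mul_cancel, T_one]
  exact not_congr ⟨fun h => h.symm, fun h => h.symm⟩

lemma dist_pos_step {x y s : Gam} {i : Fin 6} (hs : s ∈ Subgroup.zpowers (a i))
    (h2 : sg (hyp i x) (x * s) = sg (hyp i x) y) (h : sg (hyp i x) x ≠ sg (hyp i x) y) :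
    X.dist (x * s) y + 1 = X.dist x y := by
  rw [dist_eq, dist_eq, sep_step hs h2]
  have h3 : hyp i x ∈ {H | sg H x ≠ sg H y} := h
  rw [Set.ncard_sdiff_singleton_of_mem h3]
  have : 0 < {H | sg H x ≠ sg H y}.ncard := (Set.ncard_pos (finite_sep x y)).2 ⟨_, h3⟩
  omega

/-- The hyperplanes of type `m` are constant on the carriers of type `i` if `m ∉ star i`. -/
lemma sg_const_carrier {i m : Fin 6} (hm : m ∉ star i) {g h k : Gam} (hgh : g⁻¹ * h ∈ P i) :
    sg (hyp m k) g = sg (hyp m k) h := by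
  by_contra hne
  obtain ⟨j, hj, z, -, hz⟩ := sep_in_coset hgh hne
  have : m = j := by
    have := congrArg Sigma.fst hz
    simpa [hyp_fst] using this
  exact hm (this ▸ hj)

/-- If some hyperplane separates `1` from `x` and from `y`, then a hyperplane at `1` does. -/
lemma sep_at_one {x y : Gam} : ∀ (n : ℕ) (H : Hyp) (h : Gam), H = hyp H.1 h → X.dist 1 h = n →
    sg H 1 ≠ sg H x → sg H 1 ≠ sg H y →
    ∃ i, sg (hyp i 1) 1 ≠ sg (hyp i 1) x ∧ sg (hyp i 1) 1 ≠ sg (hyp i 1) y := by
  intro n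
  induction n using Nat.strong_induction_on with
  | _ n ih =>
    intro H h hH hn hx hy
    by_cases h1 : h = 1
    · subst h1
      refine ⟨H.1, ?_, ?_⟩
      · rw [← hH]; exact hx
      · rw [← hH]; exact hy
    · obtain ⟨m, s, δ, hs, hhs, hd⟩ := exists_last h1
      by_cases hm : m ∈ star H.1
      · refine ih (X.dist 1 δ) (by omega) H δ ?_ rfl hx hy
        rw [hH, hyp_fst, hhs]
        exact (hyp_mul δ (zpowers_le_P hm hs))
      · -- the hyperplane `M`
        have hsne : s ≠ 1 := by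
          rintro rfl
          rw [mul_one] at hhs
          rw [hhs] at hd
          omega
        have hM1 : hyp m h = hyp m δ := by
          rw [hhs]; exact hyp_mul δ (zpowers_le_P (Or.inl rfl) hs)
        have hT : T m h ≠ 0 := by
          rw [hhs, T_last hs _ δ rfl (by rw [← hhs]; exact hd)]
          exact T_zpowers_ne_zero hs hsne
        have hMsep : sg (hyp m δ) h ≠ sg (hyp m δ) 1 := by
          rw [← hM1, T_ne_iff_sep]
          simpa using hT
        have key : ∀ w, sg H 1 ≠ sg H w → sg (hyp m δ) 1 ≠ sg (hyp m δ) w := by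
          intro w hw
          obtain ⟨u, hu1, -, hu3⟩ := exists_gate hw
          have hcar : u⁻¹ * h ∈ P H.1 := by
            rw [← hyp_eq_iff, ← hu1, ← hH]
          have hc : sg (hyp m δ) u = sg (hyp m δ) h := sg_const_carrier hm hcar
          rcases hu3 (hyp m δ) with h5 | h5
          · exact absurd (hc.symm.trans h5.symm) hMsep
          · rw [← h5, hc]; exact hMsep.symm
        exact ih (X.dist 1 δ) (by omega) (hyp m δ) δ rfl rfl (key x hx) (key y hy)

/-- product lemma -/
lemma dist_mul_of_disjoint {u v : Gam} (h : ∀ i, T i v⁻¹ ≠ 0 → T i u = 0) :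
    X.dist 1 (u * v) = X.dist 1 u + X.dist 1 v := by
  have hdis : Disjoint {H | sg H 1 ≠ sg H u⁻¹} {H | sg H 1 ≠ sg H v} := by
    rw [Set.disjoint_left]
    intro H h1 h2
    obtain ⟨i, hi1, hi2⟩ := sep_at_one _ H H.2.out (hyp_out H).symm rfl h1 h2
    rw [T_ne_iff_sep] at hi1 hi2
    rw [inv_inv, mul_one] at hi1
    rw [mul_one] at hi2
    exact hi1 (h i hi2)
  have e1 : X.dist 1 (u * v) = X.dist u⁻¹ v := by
    rw [← X_dist_left u u⁻¹ v, mul_inv_cancel]
  have e2 : X.dist 1 u = X.dist 1 u⁻¹ := (dist_one_inv u).symm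
  rw [e1, e2]
  apply le_antisymm
  · have : X.dist u⁻¹ v ≤ X.dist u⁻¹ 1 + X.dist 1 v := X_connected.dist_triangle
    rw [SimpleGraph.dist_comm (u := u⁻¹) (v := 1)] at this
    exact this
  · rw [dist_eq, dist_eq, dist_eq, ← Set.ncard_union_eq hdis (finite_sep _ _) (finite_sep _ _)]
    refine Set.ncard_le_ncard ?_ (finite_sep _ _)
    rintro H (h1 | h1)
    · by_cases h2 : sg H 1 = sg H v
      · change sg H u⁻¹ ≠ sg H v
        rw [← h2]; exact h1.symm
      · exact absurd h2 (Set.disjoint_left.1 hdis h1)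
    · by_cases h2 : sg H 1 = sg H u⁻¹
      · change sg H u⁻¹ ≠ sg H v
        rw [← h2]; exact h1
      · exact absurd h1 (Set.disjoint_left.1 hdis h2)

/-- `y` lies between `x` and `z` -/
lemma between_of_dist {x y z : Gam} (h : X.dist x z = X.dist x y + X.dist y z) (H : Hyp) :
    sg H x = sg H y ∨ sg H y = sg H z := by
  by_contra hcon
  rw [not_or] at hcon
  have h1 : {H | sg H x ≠ sg H z} ⊆ {H | sg H x ≠ sg H y} ∪ {H | sg H y ≠ sg H z} :=
    sep_subset_union x y z
  have hf1 := finite_sep x y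
  have hf2 := finite_sep y z
  have h2 : ({H | sg H x ≠ sg H y} ∪ {H | sg H y ≠ sg H z}).ncard +
      ({H | sg H x ≠ sg H y} ∩ {H | sg H y ≠ sg H z}).ncard =
      {H | sg H x ≠ sg H y}.ncard + {H | sg H y ≠ sg H z}.ncard :=
    Set.ncard_union_add_ncard_inter _ _ hf1 hf2
  have h3 := Set.ncard_le_ncard h1 (hf1.union hf2)
  have h4 : 0 < ({H | sg H x ≠ sg H y} ∩ {H | sg H y ≠ sg H z}).ncard :=
    (Set.ncard_pos (hf1.inter_of_left _)).2 ⟨H, hcon.1, hcon.2⟩
  rw [dist_eq, dist_eq, dist_eq] at h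
  omega

/-- convexity of carriers -/
lemma carrier_convex {i : Fin 6} {g w u : Gam} (hgw : g⁻¹ * w ∈ P i)
    (hb : ∀ K, sg K g = sg K u ∨ sg K u = sg K w) : g⁻¹ * u ∈ P i := by
  have key : ∀ (n : ℕ) (h : Gam), g⁻¹ * h ∈ P i → X.dist 1 (h⁻¹ * u) = n → g⁻¹ * u ∈ P i := by
    intro n
    induction n using Nat.strong_induction_on with
    | _ n ih =>
      intro h hh hn
      by_cases h1 : h⁻¹ * u = 1
      · rw [inv_mul_eq_one] at h1
        rw [← h1]; exact hh
      · obtain ⟨m, t, δ, ht, hht, hd⟩ := exists_first h1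
        by_cases hm : m ∈ star i
        · refine ih (X.dist 1 δ) (by omega) (h * t) ?_ ?_
          · rw [← mul_assoc]
            exact (P i).mul_mem hh (zpowers_le_P hm ht)
          · have : (h * t)⁻¹ * u = δ := by
              rw [mul_inv_rev, mul_assoc, hht]; group
            rw [this]
        · exfalso
          have htne : t ≠ 1 := by
            rintro rfl
            rw [one_mul] at hht
            rw [hht] at hd
            omega
          -- `M = hyp m h` separates `h` and `u`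
          have hsep : sg (hyp m h) h ≠ sg (hyp m h) u := by
            rw [T_ne_iff_sep]
            have e : u⁻¹ * h = δ⁻¹ * t⁻¹ := by
              have : (h⁻¹ * u)⁻¹ = (t * δ)⁻¹ := by rw [hht]
              rw [mul_inv_rev, inv_inv, mul_inv_rev] at this
              exact this
            rw [e, T_last ((Subgroup.zpowers (a m)).inv_mem ht) _ δ⁻¹ rfl]
            · exact T_zpowers_ne_zero ((Subgroup.zpowers (a m)).inv_mem ht) (by simpa using htne)
            · rw [← mul_inv_rev, ← hht, dist_one_inv, dist_one_inv]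
              exact hd
          have c1 : sg (hyp m h) g = sg (hyp m h) h := sg_const_carrier hm hh
          have c2 : sg (hyp m h) g = sg (hyp m h) w := sg_const_carrier hm hgw
          rcases hb (hyp m h) with h5 | h5
          · exact hsep (c1.symm.trans h5)
          · exact hsep (c1.symm.trans (c2.trans h5.symm))
  exact key _ g (by rw [inv_mul_cancel]; exact (P i).one_mem) rfl

lemma tail_mul {u v : Gam} {i : Fin 6} (h : X.dist 1 (u * v) = X.dist 1 u + X.dist 1 v)
    (hT : T i (u * v) ≠ 0) : T i v ≠ 0 ∨ v ∈ P i := by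
  have hd : X.dist 1 (u * v) = X.dist 1 u + X.dist u (u * v) := by
    rw [h]
    congr 1
    rw [← X_dist_left u 1 v, mul_one]
  have hbt := between_of_dist hd
  by_cases h1 : T i v = 0
  · right
    have hH1 : sg (hyp i (u * v)) (u * v) ≠ sg (hyp i (u * v)) 1 := by
      rw [T_ne_iff_sep]; simpa using hT
    have hH2 : sg (hyp i (u * v)) u = sg (hyp i (u * v)) (u * v) := by
      rw [sg_eq_iff, inv_mul_cancel, T_one, ← mul_assoc, inv_mul_cancel, one_mul]
      exact h1
    obtain ⟨g, hg1, -, hg3⟩ := exists_gate (H := hyp i (u * v)) (x := u) (z := 1)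
      (by rw [hH2]; exact hH1)
    rw [hyp_fst] at hg1
    have hgw : g⁻¹ * (u * v) ∈ P i := hyp_eq_iff.1 hg1.symm
    have hb : ∀ K, sg K g = sg K u ∨ sg K u = sg K (u * v) := by
      intro K
      rcases hg3 K with h5 | h5
      · exact Or.inl h5.symm
      · rcases hbt K with h6 | h6
        · left; rw [h5, h6]
        · exact Or.inr h6
    have hu := carrier_convex hgw hb
    have := (P i).mul_mem ((P i).inv_mem hu) hgw
    have e : (g⁻¹ * u)⁻¹ * (g⁻¹ * (u * v)) = v := by group
    rwa [e] at this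
  · exact Or.inl h1

/-- powers of a cyclically reduced element -/
lemma dist_pow {z : Gam} (h1 : ∀ i, T i z⁻¹ ≠ 0 → T i z = 0) (h2 : ∀ i, T i z⁻¹ ≠ 0 → z ∉ P i)
    (n : ℕ) : X.dist 1 (z ^ n) = n * X.dist 1 z ∧ ∀ i, T i z⁻¹ ≠ 0 → T i (z ^ n) = 0 := by
  induction n with
  | zero => simp
  | succ n ih =>
    have hd := dist_mul_of_disjoint (u := z ^ n) (v := z) ih.2
    rw [pow_succ]
    refine ⟨by rw [hd, ih.1]; ring, fun i hi => ?_⟩
    by_contra hT
    rcases tail_mul hd hT with h3 | h3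
    · exact h3 (h1 i hi)
    · exact h2 i hi h3

lemma good_powers {z : Gam} (h1 : ∀ i, T i z⁻¹ ≠ 0 → T i z = 0)
    (h2 : ∀ i, T i z⁻¹ ≠ 0 → z ∉ P i) : Good (Set.range (fun n : ℤ => z ^ n)) := by
  have hd : ∀ m n : ℤ, m ≤ n → (X.dist (z ^ m) (z ^ n) : ℤ) = (n - m) * X.dist 1 z := by
    intro m n hmn
    obtain ⟨k, rfl⟩ := Int.le.dest hmn
    have e : X.dist (z ^ m) (z ^ (m + (k : ℤ))) = X.dist 1 (z ^ k) := by
      rw [← X_dist_left (z ^ m) 1 (z ^ k), mul_one, zpow_add, zpow_natCast]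
    rw [e, (dist_pow h1 h2 k).1]
    push_cast
    ring
  have hbt : ∀ l m n : ℤ, l ≤ m → m ≤ n → ∀ H, sg H (z ^ l) = sg H (z ^ m) ∨
      sg H (z ^ m) = sg H (z ^ n) := by
    intro l m n hlm hmn H
    apply between_of_dist
    have e1 := hd l m hlm
    have e2 := hd m n hmn
    have e3 := hd l n (hlm.trans hmn)
    zify
    rw [e1, e2, e3]
    ring
  refine ⟨Set.range_nonempty _, fun H => ?_⟩
  by_cases hall : ∀ n : ℤ, sg H (z ^ n) = sg H (z ^ (0 : ℤ))
  · refine ⟨sg H (z ^ (0 : ℤ)), sg H (z ^ (0 : ℤ)), ?_⟩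
    rintro _ ⟨n, rfl⟩
    exact Or.inl (hall n)
  · push Not at hall
    obtain ⟨n0, hn0⟩ := hall
    refine ⟨sg H (z ^ (0 : ℤ)), sg H (z ^ n0), ?_⟩
    rintro _ ⟨n, rfl⟩
    by_contra hcon
    rw [not_or] at hcon
    obtain ⟨c1, c2⟩ := hcon
    simp only at c1 c2
    have key : ∀ l m n : ℤ, sg H (z ^ l) ≠ sg H (z ^ m) → sg H (z ^ m) ≠ sg H (z ^ n) →
        ¬ (l ≤ m ∧ m ≤ n) := by
      intro l m n h3 h4 h5
      rcases hbt l m n h5.1 h5.2 H with h6 | h6
      · exact h3 h6
      · exact h4 h6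
    have k1 := key 0 n0 n (Ne.symm hn0) (Ne.symm c2)
    have k2 := key n n0 0 c2 hn0
    have k3 := key n0 0 n hn0 (Ne.symm c1)
    have k4 := key n 0 n0 c1 (Ne.symm hn0)
    have k5 := key 0 n n0 (Ne.symm c1) c2
    have k6 := key n0 n 0 (Ne.symm c2) c1
    omega

/-- Every cyclic subgroup lies in a bounded neighbourhood of a good set. -/
theorem axis (z : Gam) : ∃ S : Set Gam, ∃ R : ℕ, Good S ∧ ∀ n : ℤ, ∃ s ∈ S, X.dist (z ^ n) s ≤ R := by
  generalize hN : X.dist 1 z = N
  induction N using Nat.strong_induction_on generalizing z with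
  | _ N ih =>
    -- conjugation by a letter which shortens
    have hconj : ∀ i, ∀ s ∈ Subgroup.zpowers (a i), X.dist 1 (s⁻¹ * z * s) < N →
        ∃ S : Set Gam, ∃ R : ℕ, Good S ∧ ∀ n : ℤ, ∃ s ∈ S, X.dist (z ^ n) s ≤ R := by
      intro i s hs hlt
      obtain ⟨S, R, hS, hR⟩ := ih _ hlt (s⁻¹ * z * s) rfl
      refine ⟨(fun x => s * x) '' S, R + 1, good_trans s hS, fun n => ?_⟩
      obtain ⟨t, ht, htR⟩ := hR n
      refine ⟨s * t, ⟨t, ht, rfl⟩, ?_⟩
      have e : z ^ n = s * (s⁻¹ * z * s) ^ n * s⁻¹ := by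
        have : s⁻¹ * z * s = s⁻¹ * z * (s⁻¹)⁻¹ := by rw [inv_inv]
        rw [this, conj_zpow, inv_inv]
        group
      have h3 : X.dist (z ^ n) (s * (s⁻¹ * z * s) ^ n) ≤ 1 := by
        rw [e]
        have := X_dist_left (s * (s⁻¹ * z * s) ^ n) s⁻¹ 1
        rw [mul_one] at this
        rw [this, SimpleGraph.dist_comm, dist_one_inv]
        exact dist_one_letter_le hs
      have h4 : X.dist (z ^ n) (s * t) ≤ X.dist (z ^ n) (s * (s⁻¹ * z * s) ^ n) +
          X.dist (s * (s⁻¹ * z * s) ^ n) (s * t) := X_connected.dist_triangle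
      rw [X_dist_left] at h4
      omega
    by_cases hA : ∃ i, T i z⁻¹ ≠ 0 ∧ z ∈ P i
    · -- a central letter
      obtain ⟨i, hi, hz⟩ := hA
      obtain ⟨s, hs, h2⟩ := exists_step (x := 1) (y := z) (i := i)
      have hsep : sg (hyp i 1) 1 ≠ sg (hyp i 1) z := by
        rw [T_ne_iff_sep]; simpa using hi
      have h3 := dist_pos_step hs h2 hsep
      rw [one_mul] at h3
      have h4 : X.dist 1 (s⁻¹ * z) = X.dist s z := by
        rw [← X_dist_left s 1 (s⁻¹ * z)]; simp
      obtain ⟨S, R, hS, hR⟩ := ih (X.dist 1 (s⁻¹ * z)) (by omega) (s⁻¹ * z) rfl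
      refine ⟨S, R + 1, hS, fun n => ?_⟩
      obtain ⟨t, ht, htR⟩ := hR n
      refine ⟨t, ht, ?_⟩
      have hcomm : Commute (s⁻¹ * z) s := by
        have h5 : s⁻¹ * z ∈ P i := (P i).mul_mem ((P i).inv_mem (zpowers_le_P (Or.inl rfl) hs)) hz
        exact (central hs h5).symm
      have e : z ^ n = (s⁻¹ * z) ^ n * s ^ n := by
        rw [← hcomm.mul_zpow]
        congr 1
        have := central hs hz
        rw [mul_assoc, ← this]; group
      have h6 : X.dist (z ^ n) ((s⁻¹ * z) ^ n) ≤ 1 := by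
        rw [e]
        have := X_dist_left ((s⁻¹ * z) ^ n) (s ^ n) 1
        rw [mul_one] at this
        rw [this, SimpleGraph.dist_comm]
        exact dist_one_letter_le ((Subgroup.zpowers (a i)).zpow_mem hs n)
      have h7 : X.dist (z ^ n) t ≤ X.dist (z ^ n) ((s⁻¹ * z) ^ n) + X.dist ((s⁻¹ * z) ^ n) t :=
        X_connected.dist_triangle
      omega
    · push Not at hA
      by_cases hB : ∃ i, T i z⁻¹ ≠ 0 ∧ T i z ≠ 0
      · obtain ⟨i, hi1, hi2⟩ := hB
        have hzP := hA i hi1
        obtain ⟨s, hs, h2⟩ := exists_step (x := 1) (y := z) (i := i)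
        have hsep : sg (hyp i 1) 1 ≠ sg (hyp i 1) z := by
          rw [T_ne_iff_sep]; simpa using hi1
        have h3 := dist_pos_step hs h2 hsep
        rw [one_mul] at h3
        have hsep2 : sg (hyp i z) z ≠ sg (hyp i z) s := by
          have hne : hyp i z ≠ hyp i 1 := by
            intro h
            have := hyp_eq_iff.1 h
            rw [mul_one] at this
            exact hzP (by simpa using (P i).inv_mem this)
          have h5 : sg (hyp i z) (1 * s) = sg (hyp i z) 1 := sg_step_ne hs hne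
          rw [one_mul] at h5
          rw [h5, T_ne_iff_sep]
          simpa using hi2
        obtain ⟨s2, hs2, h6⟩ := exists_step (x := z) (y := s) (i := i)
        have h7 := dist_pos_step hs2 h6 hsep2
        apply hconj i s hs
        have e1 : X.dist 1 (s⁻¹ * z * s) = X.dist s (z * s) := by
          rw [← X_dist_left s 1 (s⁻¹ * z * s)]
          congr 1
          · simp
          · group
        have h8 : X.dist s (z * s) ≤ X.dist s (z * s2) + X.dist (z * s2) (z * s) :=
          X_connected.dist_triangle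
        have h9 : X.dist (z * s2) (z * s) ≤ 1 := by
          rw [X_dist_left]
          have := X_dist_left s2 1 (s2⁻¹ * s)
          rw [mul_one, mul_inv_cancel_left] at this
          rw [this]
          exact dist_one_letter_le ((Subgroup.zpowers (a i)).mul_mem
            ((Subgroup.zpowers (a i)).inv_mem hs2) hs)
        rw [SimpleGraph.dist_comm (u := z * s2) (v := s)] at h7
        rw [SimpleGraph.dist_comm (u := z) (v := s)] at h7
        omega
      · push Not at hB
        exact ⟨Set.range (fun n : ℤ => z ^ n), 0, good_powers hB hA,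
          fun n => ⟨z ^ n, ⟨n, rfl⟩, by rw [SimpleGraph.dist_self]⟩⟩

end C40b0b
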