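import Mathlib

/-!
# MP_c40b0b_al, block F: explicit data

A torsion-free subgroup of index 24 of the graph product of `C4, C6, C4, C6, C4, C6` over a
hexagon, isomorphic to `F_20 ⋊ ℤ`.  Words in the free group of rank 20 are lists of natural
numbers, `2 j` standing for the generator `x_j` and `2 j + 1` for its inverse.
-/

namespace C40b0b


/-- images of the letters under the automorphism `φ` -/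
def phiT : List (List ℕ) := [
  [14, 17, 32, 15, 9, 2, 25, 0, 24, 7, 14, 17, 32, 15, 9, 2, 39, 15, 27, 32, 15, 9, 2, 34],
  [35, 3, 8, 14, 33, 26, 14, 38, 3, 8, 14, 33, 16, 15, 6, 25, 1, 24, 3, 8, 14, 33, 16, 15],
  [29, 3, 6, 25, 1, 26, 24, 30, 5, 25, 14, 33, 16, 15, 24],
  [25, 14, 17, 32, 15, 24, 4, 31, 25, 27, 0, 24, 7, 2, 28],
  [10],
  [11],
  [29, 3, 8, 14, 33, 0, 14, 14, 17, 32, 15, 9, 2, 39, 15, 27, 32, 15, 9, 2, 34],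
  [35, 3, 8, 14, 33, 26, 14, 38, 3, 8, 14, 33, 16, 15, 15, 1, 32, 15, 9, 2, 28],
  [29, 3, 6, 25, 1, 26, 24, 30, 3, 8, 14, 33, 16, 15, 11],
  [10, 14, 17, 32, 15, 9, 2, 31, 25, 27, 0, 24, 7, 2, 28],
  [29, 3, 6, 25, 1, 26, 24, 30, 21, 15, 32, 15, 9, 6, 25, 1, 16, 15, 13, 3, 6, 25, 1, 24, 31, 25,
  27, 0, 24, 7, 2, 28],
  [29, 3, 6, 25, 1, 26, 24, 30, 25, 0, 24, 7, 2, 12, 14, 17, 0, 24, 7, 8, 14, 33, 14, 20, 31, 25,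
  27, 0, 24, 7, 2, 28],
  [25, 14, 17, 22, 14, 17, 32, 15, 9, 2, 21, 15, 32, 15, 9, 2, 18],
  [19, 3, 8, 14, 33, 14, 20, 3, 8, 14, 33, 16, 15, 23, 16, 15, 24],
  [19, 3, 8, 14, 33, 14, 20, 3, 8, 14, 33, 16, 15, 23, 32, 15, 9, 6, 25, 1, 24, 31, 25, 27, 0, 24,
  7, 8, 14, 33, 0, 14, 11],
  [10, 15, 1, 32, 15, 9, 6, 25, 1, 26, 24, 30, 25, 0, 24, 7, 8, 14, 33, 22, 14, 17, 32, 15, 9, 2,
  21, 15, 32, 15, 9, 2, 18],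
  [14, 17, 32, 15, 9, 2, 25, 0, 24, 7, 8, 14, 33, 14, 20, 31, 25, 27, 0, 24, 7, 8, 14, 33, 0, 14],
  [15, 1, 32, 15, 9, 6, 25, 1, 26, 24, 30, 21, 15, 32, 15, 9, 6, 25, 1, 24, 3, 8, 14, 33, 16, 15],
  [25, 14, 17, 14, 17, 0, 24, 7, 8, 14, 33, 14, 20, 31, 25, 27, 0, 24, 7, 2, 28],
  [29, 3, 6, 25, 1, 26, 24, 30, 21, 15, 32, 15, 9, 6, 25, 1, 16, 15, 16, 15, 24],
  [19, 3, 8, 14, 33, 14, 20, 3, 8, 14, 33, 16, 15],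
  [14, 17, 32, 15, 9, 2, 21, 15, 32, 15, 9, 2, 18],
  [14, 17, 32, 15, 9, 2, 25, 0, 24, 7, 2, 31, 25, 27, 0, 24, 7, 2, 28],
  [29, 3, 6, 25, 1, 26, 24, 30, 3, 6, 25, 1, 24, 3, 8, 14, 33, 16, 15],
  [19, 3, 8, 14, 33, 14, 20, 3, 8, 14, 33, 16, 15, 23, 0, 24, 7, 2, 31, 25, 27, 0, 24, 7, 8, 14,
  33, 0, 14, 14, 17, 32, 15, 9, 2, 21, 15, 32, 15, 9, 2, 18],
  [19, 3, 8, 14, 33, 14, 20, 3, 8, 14, 33, 16, 15, 15, 1, 32, 15, 9, 6, 25, 1, 26, 24, 30, 3, 6,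
  25, 1, 22, 14, 17, 32, 15, 9, 2, 21, 15, 32, 15, 9, 2, 18],
  [14, 17, 32, 15, 9, 2, 25, 26, 24, 30, 3, 8, 14, 33, 16, 15, 37],
  [36, 14, 17, 32, 15, 9, 2, 31, 25, 27, 24, 3, 8, 14, 33, 16, 15],
  [25, 14, 17, 0, 14, 17, 0, 24, 7, 8, 14, 33, 14, 20, 31, 25, 27, 0, 24, 7, 2, 28],
  [29, 3, 6, 25, 1, 26, 24, 30, 21, 15, 32, 15, 9, 6, 25, 1, 16, 15, 1, 16, 15, 24],
  [36],
  [37],
  [14, 17, 32, 15, 9, 2, 25, 0, 24, 7, 8, 14, 33, 26, 14, 38, 31, 25, 27, 0, 24, 7, 8, 14, 33, 0,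
  14, 37],
  [36, 15, 1, 32, 15, 9, 6, 25, 1, 26, 24, 30, 39, 15, 27, 32, 15, 9, 6, 25, 1, 24, 3, 8, 14, 33,
  16, 15],
  [25, 14, 17, 26, 14, 17, 0, 24, 7, 8, 14, 33, 14, 20, 31, 25, 27, 0, 24, 7, 2, 28],
  [29, 3, 6, 25, 1, 26, 24, 30, 21, 15, 32, 15, 9, 6, 25, 1, 16, 15, 27, 16, 15, 24],
  [29, 3, 6, 25, 1, 26, 24, 30, 21, 15, 32, 15, 9, 6, 25, 1, 16, 33, 0, 24, 7, 8, 14, 33, 26, 14,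
  38, 31, 25, 27, 0, 24, 7, 2, 28],
  [29, 3, 6, 25, 1, 26, 24, 30, 39, 15, 27, 32, 15, 9, 6, 25, 1, 32, 17, 0, 24, 7, 8, 14, 33, 14,
  20, 31, 25, 27, 0, 24, 7, 2, 28],
  [35, 3, 8, 14, 33, 26, 14, 38, 3, 8, 14, 33, 16, 15],
  [14, 17, 32, 15, 9, 2, 39, 15, 27, 32, 15, 9, 2, 34]]

/-- images of the letters under the inverse of `φ` -/
def psiT : List (List ℕ) := [
  [5, 9, 23, 5, 9, 6, 38, 5, 15, 24, 20, 39, 7, 23, 16, 39, 7, 19, 28, 6, 38, 17, 22, 6, 38, 21,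
  25, 14, 4, 39, 7, 8, 4, 22, 8, 4],
  [5, 9, 23, 5, 9, 6, 38, 5, 15, 24, 20, 39, 7, 23, 16, 39, 7, 29, 18, 6, 38, 17, 22, 6, 38, 21,
  25, 14, 4, 39, 7, 8, 4, 22, 8, 4],
  [39, 1, 22, 8, 4, 22, 6, 38, 21, 25, 13, 18, 6, 38, 17, 22, 6, 38, 21, 25, 13],
  [12, 24, 20, 39, 7, 23, 16, 39, 7, 19, 12, 24, 20, 39, 7, 23, 5, 9, 23, 0, 38],
  [12, 24, 20, 39, 7, 23, 16, 39, 7, 36, 6, 38, 31, 33, 22, 6, 38, 21, 25, 13, 3, 8, 4, 22, 6, 38,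
  21, 25, 13, 18, 6, 38, 17, 22, 6, 38, 21, 25, 13],
  [12, 24, 20, 39, 7, 23, 16, 39, 7, 19, 12, 24, 20, 39, 7, 23, 5, 9, 2, 12, 24, 20, 39, 7, 23,
  32, 30, 39, 7, 37, 6, 38, 17, 22, 6, 38, 21, 25, 13],
  [39, 1, 22, 6, 38, 21, 25, 13, 28, 6, 38, 17, 22, 6, 38, 21, 25, 13],
  [12, 24, 20, 39, 7, 23, 16, 39, 7, 29, 12, 24, 20, 39, 7, 23, 0, 38],
  [39, 1, 5, 9, 6, 38, 5, 15, 24, 20, 39, 7, 23, 32, 30, 39, 7, 37, 6, 38, 17, 22, 6, 38, 21, 25,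
  14, 4, 39, 7, 8, 4, 22, 8, 4],
  [5, 9, 23, 5, 9, 6, 38, 5, 15, 24, 20, 39, 7, 23, 16, 39, 7, 36, 6, 38, 31, 33, 22, 6, 38, 21,
  25, 14, 4, 39, 7, 8, 4, 0, 38],
  [4],
  [5],
  [12, 24, 20, 39, 7, 23, 16, 39, 7, 19, 12, 24, 20, 39, 7, 23, 5, 9, 23, 5, 9, 11, 6, 38, 17, 22,
  6, 38, 21, 25, 14, 4, 39, 7, 8, 4, 22, 8, 4],
  [5, 9, 23, 5, 9, 6, 38, 5, 15, 24, 20, 39, 7, 23, 16, 39, 7, 10, 8, 4, 22, 8, 4, 22, 6, 38, 21,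
  25, 13, 18, 6, 38, 17, 22, 6, 38, 21, 25, 13],
  [5, 9, 23, 5, 9, 6, 38, 5, 15, 24, 20, 39, 7, 23, 16, 39, 7, 29, 12, 14, 4, 39, 7, 8, 4, 26, 30,
  5, 9, 6, 38],
  [39, 7, 8, 4, 31, 27, 5, 9, 6, 38, 5, 15, 13, 28, 6, 38, 17, 22, 6, 38, 21, 25, 14, 4, 39, 7, 8,
  4, 22, 8, 4],
  [5, 9, 23, 5, 9, 6, 38, 5, 15, 24, 20, 39, 7, 23, 16, 39, 7, 19, 12, 24, 20, 39, 7, 23, 16, 39,
  7, 29, 12, 14, 4, 39, 7, 8, 4, 26, 30, 5, 9, 6, 38],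
  [39, 7, 8, 4, 31, 27, 5, 9, 6, 38, 5, 15, 13, 28, 6, 38, 17, 22, 6, 38, 21, 25, 13, 18, 6, 38,
  17, 22, 6, 38, 21, 25, 14, 4, 39, 7, 8, 4, 22, 8, 4],
  [12, 24, 20, 39, 7, 23, 16, 39, 7, 19, 12, 24, 20, 39, 7, 23, 5, 9, 23, 16, 39, 7, 8, 4, 21],
  [20, 5, 9, 6, 38, 17, 22, 8, 4, 22, 6, 38, 21, 25, 13, 18, 6, 38, 17, 22, 6, 38, 21, 25, 13],
  [39, 7, 8, 4, 31, 27, 5, 9, 6, 38, 5, 15, 13, 28, 19, 12, 14, 4, 39, 7, 8, 4, 16, 39, 7, 8, 4,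
  22, 6, 38, 21, 25, 13, 18, 6, 38, 17, 22, 6, 38, 21, 25, 13],
  [12, 24, 20, 39, 7, 23, 16, 39, 7, 19, 12, 24, 20, 39, 7, 23, 5, 9, 6, 38, 17, 5, 9, 6, 38, 5,
  15, 13, 18, 29, 12, 14, 4, 39, 7, 8, 4, 26, 30, 5, 9, 6, 38],
  [5, 9, 23, 5, 9, 6, 38, 5, 15, 24, 20, 39, 7, 23, 16, 39, 7, 19, 12, 20],
  [21, 13, 18, 6, 38, 17, 22, 6, 38, 21, 25, 14, 4, 39, 7, 8, 4, 22, 8, 4],
  [5, 9, 23, 5, 9, 6, 38, 5, 15, 13],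
  [12, 14, 4, 39, 7, 8, 4, 22, 8, 4],
  [5, 9, 23, 5, 9, 6, 38, 5, 15, 24, 20, 39, 7, 23, 16, 39, 7, 19, 34, 6, 38, 17, 22, 6, 38, 21,
  25, 14, 4, 39, 7, 8, 4, 22, 8, 4],
  [5, 9, 23, 5, 9, 6, 38, 5, 15, 24, 20, 39, 7, 23, 16, 39, 7, 35, 18, 6, 38, 17, 22, 6, 38, 21,
  25, 14, 4, 39, 7, 8, 4, 22, 8, 4],
  [12, 24, 20, 39, 7, 23, 16, 39, 7, 19, 12, 24, 20, 39, 7, 23, 5, 9, 23, 26, 30, 5, 9],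
  [8, 4, 31, 27, 22, 8, 4, 22, 6, 38, 21, 25, 13, 18, 6, 38, 17, 22, 6, 38, 21, 25, 13],
  [12, 24, 20, 39, 7, 23, 16, 39, 7, 35, 12, 24, 20, 39, 7, 23, 26, 30, 22, 6, 38, 21, 25, 13, 18,
  6, 38, 17, 22, 6, 38, 21, 25, 13],
  [12, 24, 20, 39, 7, 23, 16, 39, 7, 19, 12, 24, 20, 39, 7, 23, 31, 27, 22, 6, 38, 21, 25, 13, 34,
  6, 38, 17, 22, 6, 38, 21, 25, 13],
  [5, 9, 23, 5, 9, 6, 38, 5, 15, 24, 20, 39, 7, 23, 16, 39, 7, 19, 12, 24, 20, 39, 7, 23, 32, 30,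
  39, 7, 37, 29, 12, 14, 4, 39, 7, 8, 4, 26, 30, 5, 9, 6, 38],
  [39, 7, 8, 4, 31, 27, 5, 9, 6, 38, 5, 15, 13, 28, 36, 6, 38, 31, 33, 22, 6, 38, 21, 25, 13, 18,
  6, 38, 17, 22, 6, 38, 21, 25, 14, 4, 39, 7, 8, 4, 22, 8, 4],
  [12, 24, 20, 39, 7, 23, 16, 39, 7, 19, 12, 24, 20, 39, 7, 23, 5, 9, 23, 32, 30, 39, 7, 8, 4, 39],
  [38, 5, 9, 6, 38, 31, 33, 22, 8, 4, 22, 6, 38, 21, 25, 13, 18, 6, 38, 17, 22, 6, 38, 21, 25, 13],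
  [30],
  [31],
  [39, 7, 8, 4, 31, 27, 5, 9, 6, 38, 5, 15, 13, 28, 35, 12, 14, 4, 39, 7, 8, 4, 32, 30, 39, 7, 8,
  4, 22, 6, 38, 21, 25, 13, 18, 6, 38, 17, 22, 6, 38, 21, 25, 13],
  [12, 24, 20, 39, 7, 23, 16, 39, 7, 19, 12, 24, 20, 39, 7, 23, 5, 9, 6, 38, 31, 33, 5, 9, 6, 38,
  5, 15, 13, 34, 29, 12, 14, 4, 39, 7, 8, 4, 26, 30, 5, 9, 6, 38]]

/-- images of the letters (and of `t`, `t⁻¹`: letters 40, 41) in the graph product, as lists of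
  syllables `(i, k)` standing for `a_i ^ k` -/
def XT : List (List (ℕ × ℕ)) := [
  [(4, 1), (1, 3), (4, 3), (3, 4)],
  [(3, 2), (4, 1), (1, 3), (4, 3)],
  [(4, 3), (3, 1), (0, 1), (5, 2), (1, 5), (5, 4)],
  [(5, 2), (1, 1), (5, 4), (0, 3), (3, 5), (4, 1)],
  [(3, 4), (5, 1)],
  [(5, 5), (3, 2)],
  [(4, 3), (3, 1), (0, 2), (5, 2), (3, 4)],
  [(3, 2), (5, 4), (0, 2), (3, 5), (4, 1)],
  [(4, 3), (3, 1), (0, 3), (4, 3), (5, 2), (3, 2)],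
  [(3, 4), (5, 4), (4, 1), (0, 1), (3, 5), (4, 1)],
  [(3, 1), (5, 4), (3, 4), (5, 3), (3, 5)],
  [(3, 1), (5, 3), (3, 2), (5, 2), (3, 5)],
  [(5, 2), (2, 1), (1, 4), (4, 3), (3, 1)],
  [(3, 5), (4, 1), (1, 2), (2, 3), (5, 4)],
  [(3, 1), (4, 1), (2, 2), (4, 2)],
  [(4, 2), (2, 2), (4, 3), (3, 5)],
  [(4, 1), (1, 4), (4, 2)],
  [(4, 2), (1, 2), (4, 3)],
  [(5, 2), (1, 2), (3, 1), (5, 2), (3, 5), (4, 1)],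
  [(4, 3), (3, 1), (5, 4), (3, 5), (1, 4), (5, 4)],
  [(3, 5), (5, 5), (4, 2)],
  [(4, 2), (5, 1), (3, 1)],
  [(4, 1), (1, 2), (5, 1), (3, 5), (4, 1)],
  [(4, 3), (3, 1), (5, 5), (1, 4), (4, 3)],
  [(4, 1), (2, 1)],
  [(2, 3), (4, 3)],
  [(4, 1), (1, 1), (4, 3), (3, 3)],
  [(3, 3), (4, 1), (1, 5), (4, 3)],
  [(5, 2), (1, 5), (3, 5), (5, 2), (3, 5), (4, 1)],
  [(4, 3), (3, 1), (5, 4), (3, 1), (1, 1), (5, 4)],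
  [(3, 3), (5, 3)],
  [(5, 3), (3, 3)],
  [(4, 1), (1, 5), (4, 2), (3, 3)],
  [(3, 3), (4, 2), (1, 1), (4, 3)],
  [(5, 2), (1, 3), (3, 4), (5, 2), (3, 5), (4, 1)],
  [(4, 3), (3, 1), (5, 4), (3, 2), (1, 3), (5, 4)],
  [(3, 1), (5, 4), (3, 3), (5, 5), (3, 5)],
  [(3, 1), (5, 1), (3, 3), (5, 2), (3, 5)],
  [(3, 2), (5, 2), (4, 2)],
  [(4, 2), (5, 4), (3, 4)],
  [(3, 1), (5, 4)],
  [(5, 2), (3, 5)]]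

/-- the elements `w_t(e)` of `F_20 ⋊ ℤ`: a word and an exponent -/
def WT : List (List (List ℕ × ℤ)) := [
  [
    ([31, 25, 27, 0, 24, 7, 8, 14, 33, 0, 14, 14, 17, 32, 15, 9, 2, 39, 15, 27, 32, 15, 9, 2, 34,
    19, 3, 8, 14, 33, 14, 20, 3, 8, 14, 33, 16, 15, 15, 1, 32, 15, 9, 6, 25, 1, 26, 24, 30, 3, 6,
    25, 1, 22, 14, 17, 32, 15, 9, 2, 21, 15, 32, 15, 9, 2, 18, 35, 3, 8, 14, 33, 26, 14, 38, 3, 8,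
    14, 33, 16, 15, 6, 25, 1, 24, 3, 8, 14, 33, 16, 15, 19, 3, 8, 14, 33, 14, 20, 3, 8, 14, 33,
    16, 15, 23, 0, 24, 7, 2, 31, 25, 27, 0, 24, 7, 8, 14, 33, 0, 14, 14, 17, 32, 15, 9, 2, 21, 15,
    32, 15, 9, 2, 18], 1),
    ([], 0),
    ([21, 15, 32, 15, 9, 6, 25, 1, 24], 0),
    ([3, 6, 25, 1, 24], 0),
    ([31, 25, 27, 24], 0),
    ([39, 15, 27, 32, 15, 9, 6, 25, 1, 24], 0)],
  [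
    ([3, 8, 14, 33, 16, 15, 19, 3, 8, 14, 33, 14, 20, 3, 8, 14, 33, 16, 15, 23, 0, 24, 7, 2, 31,
    25, 27, 0, 24, 7, 8, 14, 33, 0, 14, 14, 17, 32, 15, 9, 2, 21, 15, 32, 15, 9, 2, 18], 1),
    ([25, 0, 24, 7, 2, 18, 6, 38, 17, 22, 6, 38, 21, 25, 13], -1),
    ([], 0),
    ([25, 0, 24, 7, 8, 14, 33, 24], 0)],
  [
    ([25, 0, 24, 7, 2, 31, 25, 27, 0, 24, 7, 8, 14, 33, 0, 14, 14, 17, 32, 15, 9, 2, 21, 15, 32,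
    15, 9, 2, 18], 1),
    ([25, 0, 24], 0),
    ([25, 16, 15, 24], 0),
    ([25, 32, 15, 24], 0),
    ([], 0),
    ([25, 26, 24], 0)],
  [
    ([25, 14, 17, 0, 24, 7, 8, 14, 33, 14, 20, 31, 25, 27, 0, 24, 7, 2, 28], 2),
    ([25], 0),
    ([], 0),
    ([25, 14], 0)],
  [
    ([], 1),
    ([38], 0),
    ([30], 0),
    ([4], 0),
    ([20], 0),
    ([], 0)],
  [
    ([], 0),
    ([22, 6, 38, 21, 25, 13, 18, 6, 38, 17, 22, 6, 38, 21, 25, 13], -1),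
    ([39, 7, 8, 4, 22, 6, 38, 21, 25, 13, 18, 6, 38, 17, 22, 6, 38, 21, 25, 13], -1),
    ([39, 1, 5, 9, 6, 38, 5, 15, 24, 20, 39, 7, 23, 32, 30, 39, 7, 37, 6, 38, 17, 22, 6, 38, 21,
    25, 14, 4, 39, 7, 8, 4, 22, 8, 4, 12, 24, 20, 39, 7, 23, 16, 39, 7, 36, 6, 38, 31, 33, 22, 6,
    38, 21, 25, 13, 3, 8, 4, 22, 6, 38, 21, 25, 13, 18, 6, 38, 17, 22, 6, 38, 21, 25, 13, 5, 9,
    23, 5, 9, 6, 38, 5, 15, 24, 20, 39, 7, 23, 16, 39, 7, 19, 12, 20, 39, 1, 22, 6, 38, 21, 25,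
    13, 28, 6, 38, 17, 22, 6, 38, 21, 25, 13, 39, 7, 8, 4, 31, 27, 5, 9, 6, 38, 5, 15, 13, 28, 35,
    12, 14, 4, 39, 7, 8, 4, 32, 30, 17, 5, 9, 6, 38, 5, 15, 13, 18, 29, 12, 14, 4, 39, 7, 8, 4,
    26, 30, 5, 9, 6, 38, 12, 24, 20, 39, 7, 23, 16, 39, 7, 10, 8, 4, 16, 39, 7, 8, 4, 21, 39, 1,
    22, 6, 38, 21, 25, 13, 28, 6, 38, 17, 22, 6, 38, 21, 25, 13, 39, 7, 8, 4, 31, 27, 5, 9, 6, 38,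
    5, 15, 13, 28, 35, 12, 14, 4, 39, 7, 8, 4, 32, 30, 39, 7, 8, 4, 22, 6, 38, 21, 25, 13, 18, 6,
    38, 17, 22, 6, 38, 21, 25, 13, 39, 7, 8, 4, 31, 27, 5, 9, 6, 38, 5, 15, 13, 28, 6, 38, 17, 22,
    6, 38, 21, 25, 20, 39, 1, 22, 6, 38, 21, 25, 13, 28, 6, 38, 17, 22, 6, 38, 21, 25, 13, 39, 7,
    8, 4, 31, 27, 5, 9, 6, 38, 5, 15, 13, 28, 35, 12, 14, 4, 39, 7, 8, 4, 32, 30, 17, 5, 9, 6, 38,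
    5, 15, 13, 18, 29, 12, 14, 4, 39, 7, 8, 4, 26, 30, 5, 9, 6, 38, 12, 24, 20, 39, 7, 23, 16, 39,
    7, 10, 8, 4, 22, 8, 4, 22, 6, 38, 21, 25, 13, 18, 6, 38, 17, 22, 6, 38, 21, 25, 13], -2)]]

/-- labels of the edges of the 24 chambers -/
def labT : List (List ℕ) := [
  [0, 0, 1, 1, 1, 3],
  [0, 1, 3, 2, 3, 0],
  [0, 2, 1, 2, 1, 2],
  [0, 3, 3, 1, 3, 1],
  [1, 0, 4, 1, 5, 1],
  [1, 1, 0, 0, 3, 3],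
  [1, 2, 4, 2, 5, 0],
  [1, 3, 0, 3, 3, 2],
  [2, 0, 2, 3, 5, 2],
  [2, 1, 4, 0, 4, 1],
  [2, 2, 2, 0, 5, 3],
  [2, 3, 4, 3, 4, 0],
  [3, 0, 0, 1, 4, 3],
  [3, 1, 2, 2, 0, 0],
  [3, 2, 0, 2, 4, 2],
  [3, 3, 2, 1, 0, 1],
  [4, 0, 5, 1, 2, 1],
  [4, 1, 1, 0, 0, 3],
  [4, 2, 5, 2, 2, 0],
  [4, 3, 1, 3, 0, 2],
  [5, 0, 3, 3, 2, 2],
  [5, 1, 5, 0, 1, 1],
  [5, 2, 3, 0, 2, 3],
  [5, 3, 5, 3, 1, 0]]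

/-- action of the generators on the 24 chambers: `actT[i][k] = k · a_i` -/
def actT : List (List ℕ) := [
  [1, 2, 3, 0, 5, 6, 7, 4, 9, 10, 11, 8, 13, 14, 15, 12, 17, 18, 19, 16, 21, 22, 23, 20],
  [8, 9, 10, 11, 16, 17, 18, 19, 20, 21, 22, 23, 0, 1, 2, 3, 12, 13, 14, 15, 4, 5, 6, 7],
  [2, 20, 19, 1, 6, 12, 11, 5, 10, 4, 15, 9, 14, 8, 7, 13, 18, 0, 23, 17, 22, 16, 3, 21],
  [16, 14, 18, 12, 15, 9, 13, 11, 19, 10, 17, 8, 4, 2, 6, 0, 3, 21, 1, 23, 7, 22, 5, 20],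
  [23, 3, 0, 7, 8, 1, 4, 5, 10, 14, 6, 9, 11, 15, 12, 19, 20, 13, 16, 17, 22, 2, 18, 21],
  [5, 6, 7, 4, 9, 10, 11, 8, 14, 15, 12, 13, 17, 18, 19, 16, 21, 22, 23, 20, 2, 3, 0, 1]]

/-- `uT[i][k] = (x, y)`: the base chamber is sent to `k` by `a_{i-1} ^ x a_i ^ y` -/
def uT : List (List (ℕ × ℕ)) := [
  [(5, 3), (5, 0), (5, 1), (5, 2), (0, 2), (0, 3), (0, 0), (0, 1), (1, 1), (1, 2), (1, 3), (1, 0),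
  (2, 3), (2, 0), (2, 1), (2, 2), (3, 2), (3, 3), (3, 0), (3, 1), (4, 1), (4, 2), (4, 3), (4, 0)],
  [(2, 3), (3, 3), (0, 3), (1, 3), (2, 0), (3, 0), (0, 0), (1, 0), (2, 4), (3, 4), (0, 4), (1, 4),
  (2, 2), (3, 2), (0, 2), (1, 2), (2, 1), (3, 1), (0, 1), (1, 1), (2, 5), (3, 5), (0, 5), (1, 5)],
  [(3, 3), (5, 2), (3, 0), (5, 1), (0, 3), (2, 2), (0, 0), (2, 1), (4, 3), (0, 2), (4, 0), (0, 1),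
  (2, 3), (4, 2), (2, 0), (4, 1), (1, 3), (3, 2), (1, 0), (3, 1), (5, 3), (1, 2), (5, 0), (1, 1)],
  [(3, 2), (0, 4), (0, 2), (3, 4), (3, 0), (2, 5), (0, 0), (1, 5), (1, 1), (2, 0), (2, 1), (1, 0),
  (3, 5), (0, 1), (0, 5), (3, 1), (3, 3), (2, 2), (0, 3), (1, 2), (1, 4), (2, 3), (2, 4), (1, 3)],
  [(2, 1), (4, 0), (2, 0), (4, 1), (0, 1), (4, 3), (0, 0), (4, 2), (0, 2), (5, 3), (0, 3), (5, 2),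
  (5, 1), (1, 0), (5, 0), (1, 1), (3, 1), (1, 3), (3, 0), (1, 2), (3, 2), (2, 3), (3, 3), (2, 2)],
  [(3, 4), (0, 5), (2, 4), (1, 5), (1, 0), (3, 5), (0, 0), (2, 5), (2, 0), (1, 1), (3, 0), (0, 1),
  (3, 1), (0, 2), (2, 1), (1, 2), (1, 3), (3, 2), (0, 3), (2, 2), (2, 3), (1, 4), (3, 3), (0, 4)]]

/-- `genW[j]`: the generator `x_j` (for `j = 20`: `t`) as a product of elements `w_t(e)` or their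
  inverses; `(t, e, 0)` stands for `w_t(e)` and `(t, e, 1)` for its inverse -/
def genW : List (List (ℕ × ℕ × ℕ)) := [
  [(3, 1, 1), (2, 1, 0), (3, 1, 0)],
  [(4, 0, 0), (4, 1, 1), (3, 1, 1), (2, 1, 1), (1, 0, 1), (0, 3, 1)],
  [(2, 3, 1), (1, 1, 1), (0, 0, 1)],
  [(4, 0, 0), (4, 1, 1), (3, 1, 1), (2, 1, 1), (1, 0, 1), (2, 1, 0)],
  [(4, 0, 0), (4, 1, 1), (3, 1, 1), (2, 1, 1), (1, 0, 1), (1, 3, 0), (2, 3, 0), (3, 1, 0)],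
  [(4, 0, 0), (4, 3, 0), (4, 0, 1)],
  [(0, 3, 0), (5, 3, 1), (4, 3, 1), (3, 0, 1), (3, 1, 0)],
  [(3, 1, 1), (3, 3, 0)],
  [(3, 1, 1), (2, 2, 0), (3, 3, 0)],
  [(0, 3, 0), (0, 2, 1), (5, 1, 1), (4, 4, 1), (4, 0, 1)],
  [(3, 3, 1), (1, 3, 1), (0, 2, 1)],
  [(3, 1, 1), (2, 0, 0), (3, 1, 0), (4, 4, 0), (4, 0, 1)],
  [(3, 1, 1)],
  [(3, 1, 1), (2, 5, 0), (3, 1, 0)],
  [(0, 3, 0), (0, 4, 1), (5, 3, 1), (4, 0, 1), (4, 0, 1)],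
  [(2, 5, 1), (0, 4, 1)],
  [(3, 1, 1), (2, 3, 0), (3, 3, 0)],
  [(0, 3, 0), (0, 5, 1), (5, 1, 1), (4, 1, 1), (4, 0, 1)],
  [(4, 0, 0), (4, 2, 0), (4, 0, 1)],
  [(3, 3, 1), (2, 5, 1), (1, 3, 1), (0, 5, 1)],
  [(4, 0, 0)]]

end C40b0b
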