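import Mathlib
import Pool.Agent.Lib_c40b0b.FData

/-!
# MP_c40b0b_al, block F: words in free groups, certified reduction
-/

namespace C40b0b

/-- inverse letter -/
def invl (l : ℕ) : ℕ := bif Nat.beq (l % 2) 0 then l + 1 else l - 1

/-- push the letters of `w` on the stack `acc` (last letter first), with free reduction -/
noncomputable def pushAll (w : List ℕ) : List ℕ → List ℕ :=
  List.rec (motive := fun _ => List ℕ → List ℕ) (fun acc => acc)
    (fun l _ ih acc => List.casesOn (motive := fun _ => List ℕ) acc (ih [l])
      (fun h t => bif Nat.beq h (invl l) then ih t else ih (l :: h :: t))) w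

/-- the `n`-th entry of a table, with default value `d` -/
noncomputable def lookD {α : Type} (d : α) (T : List α) : ℕ → α :=
  List.rec (motive := fun _ => ℕ → α) (fun _ => d)
    (fun x _ ih n => Nat.casesOn (motive := fun _ => α) n x (fun m => ih m)) T

/-- the `n`-th entry of a table of lists -/
noncomputable def look {α : Type} (T : List (List α)) (n : ℕ) : List α := lookD [] T n

/-- substitution with free reduction on a stack -/
noncomputable def subAcc (T : List (List ℕ)) (w : List ℕ) : List ℕ → List ℕ :=
  List.rec (motive := fun _ => List ℕ → List ℕ) (fun acc => acc)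
    (fun l _ ih acc => List.casesOn (motive := fun _ => List ℕ) (pushAll (look T l) acc) (ih [])
      (fun h t => ih (h :: t))) w

/-- substitution with free reduction -/
noncomputable def sub (T : List (List ℕ)) (w : List ℕ) : List ℕ := (subAcc T w []).reverse

/-- formal inverse of a word -/
def invw (w : List ℕ) : List ℕ := (w.map invl).reverse

/-- boolean equality of lists -/
def beqL : List ℕ → List ℕ → Bool
  | [], [] => true
  | x :: l, y :: m => Nat.beq x y && beqL l m
  | _, _ => false

lemma beqL_eq {l m : List ℕ} (h : beqL l m = true) : l = m := by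
  induction l generalizing m with
  | nil => cases m with
    | nil => rfl
    | cons y m => simp [beqL] at h
  | cons x l ih => cases m with
    | nil => simp [beqL] at h
    | cons y m =>
      simp only [beqL, Bool.and_eq_true] at h
      rw [Nat.eq_of_beq_eq_true h.1, ih h.2]

section ev
variable {M : Type*} [Group M] (f : ℕ → M)

/-- value of a letter -/
def ev (l : ℕ) : M := if l % 2 = 0 then f (l / 2) else (f (l / 2))⁻¹

/-- value of a word -/
def evL (w : List ℕ) : M := (w.map (ev f)).prod

/-- value of a stack (reversed word) -/
def evR : List ℕ → M
  | [] => 1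
  | h :: t => evR t * ev f h

lemma ev_invl (l : ℕ) : ev f (invl l) = (ev f l)⁻¹ := by
  unfold invl
  by_cases h : l % 2 = 0
  · rw [h]
    have h1 : (l + 1) % 2 = 1 := by omega
    have h2 : (l + 1) / 2 = l / 2 := by omega
    simp [ev, h, h1, h2]
  · have h0 : l % 2 = 1 := by omega
    have h1 : (l - 1) % 2 = 0 := by omega
    have h2 : (l - 1) / 2 = l / 2 := by omega
    rw [h0]
    have h3 : Nat.beq 1 0 = false := rfl
    rw [h3, cond_false]
    simp [ev, h, h1, h2]

lemma evR_pushAll (w : List ℕ) : ∀ acc, evR f (pushAll w acc) = evR f acc * evL f w := by
  induction w with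
  | nil => intro acc; simp [pushAll, evL]
  | cons l w ih =>
    intro acc
    have e : evL f (l :: w) = ev f l * evL f w := by simp [evL]
    rw [e]
    cases acc with
    | nil =>
      have : pushAll (l :: w) [] = pushAll w [l] := rfl
      rw [this, ih]
      simp [evR]
    | cons h t =>
      have : pushAll (l :: w) (h :: t) = bif Nat.beq h (invl l) then pushAll w t
        else pushAll w (l :: h :: t) := rfl
      rw [this]
      cases hb : Nat.beq h (invl l) with
      | true =>
        rw [cond_true, ih]
        have hh := Nat.eq_of_beq_eq_true hb
        simp only [evR]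
        rw [hh, ev_invl]
        group
      | false =>
        rw [cond_false, ih]
        simp only [evR]
        group

lemma evL_append (v w : List ℕ) : evL f (v ++ w) = evL f v * evL f w := by
  simp [evL]

lemma evR_eq (w : List ℕ) : evR f w = evL f w.reverse := by
  induction w with
  | nil => simp [evR, evL]
  | cons l w ih => rw [List.reverse_cons, evL_append, ← ih]; simp [evR, evL]

lemma evL_invw (w : List ℕ) : evL f (invw w) = (evL f w)⁻¹ := by
  induction w with
  | nil => simp [invw, evL]
  | cons l w ih =>
    have e : invw (l :: w) = invw w ++ [invl l] := by simp [invw]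
    rw [e, evL_append, ih]
    simp only [evL, List.map_cons, List.map_nil, List.prod_cons, List.prod_nil, mul_one]
    rw [ev_invl, mul_inv_rev]

lemma evR_subAcc (g : ℕ → M) (T : List (List ℕ)) (h : ∀ l, evL f (look T l) = ev g l)
    (w : List ℕ) : ∀ acc, evR f (subAcc T w acc) = evR f acc * evL g w := by
  induction w with
  | nil => intro acc; simp [subAcc, evL]
  | cons l w ih =>
    intro acc
    have e : evL g (l :: w) = ev g l * evL g w := by simp [evL]
    have h1 : subAcc T (l :: w) acc = subAcc T w (pushAll (look T l) acc) := by
      have : subAcc T (l :: w) acc = List.casesOn (motive := fun _ => List ℕ)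
        (pushAll (look T l) acc) (subAcc T w []) (fun h t => subAcc T w (h :: t)) := rfl
      rw [this]
      cases pushAll (look T l) acc <;> rfl
    rw [h1, ih, evR_pushAll, h, e, mul_assoc]

lemma evL_sub (g : ℕ → M) (T : List (List ℕ)) (h : ∀ l, evL f (look T l) = ev g l)
    (w : List ℕ) : evL f (sub T w) = evL g w := by
  unfold sub
  rw [← evR_eq, evR_subAcc f g T h]
  simp [evR]

lemma map_ev {N : Type*} [Group N] (F : M →* N) (l : ℕ) : F (ev f l) = ev (fun j => F (f j)) l := by
  unfold ev
  split_ifs <;> simp

lemma map_evL {N : Type*} [Group N] (F : M →* N) (w : List ℕ) :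
    F (evL f w) = evL (fun j => F (f j)) w := by
  unfold evL
  rw [map_list_prod, List.map_map]
  congr 1
  apply List.map_congr_left
  intro l _
  exact map_ev f F l

end ev

lemma lookD_of_length_le {α : Type} (d : α) (T : List α) (n : ℕ) (h : T.length ≤ n) :
    lookD d T n = d := by
  induction T generalizing n with
  | nil => rfl
  | cons x T ih => cases n with
    | zero => simp at h
    | succ n => exact ih n (by simpa using h)

lemma look_of_length_le {α : Type} (T : List (List α)) (n : ℕ) (h : T.length ≤ n) :
    look T n = [] := lookD_of_length_le _ _ _ h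

/-- Check: the tables `phiT`, `psiT` are inverse automorphisms. -/
lemma check1 : ((List.range 20).all fun j =>
    beqL (sub phiT (look psiT (2 * j))) [2 * j] && beqL (sub psiT (look phiT (2 * j))) [2 * j])
      = true := by
  decide +kernel

end C40b0b
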