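import Mathlib
import Pool.Agent.Lib_c40b0b.Defs
import Pool.Agent.Lib_c40b0b.FWord

/-!
# MP_c40b0b_al, block F: the automorphism `φ` of `F_20` and the group `F_20 ⋊_φ ℤ`
-/

namespace C40b0b

noncomputable section

abbrev F20 : Type := FreeGroup (Fin 20)

/-- the generators, indexed by natural numbers -/
def xF (j : ℕ) : F20 := if h : j < 20 then FreeGroup.of ⟨j, h⟩ else 1

/-- the endomorphism given by a table -/
def homT (T : List (List ℕ)) : F20 →* F20 :=
  FreeGroup.lift (fun j : Fin 20 => evL xF (look T (2 * j.val)))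

/-- odd entries are the inverses of the even entries -/
def okT (T : List (List ℕ)) : Prop :=
  T.length = 40 ∧ ∀ j < 20, look T (2 * j + 1) = invw (look T (2 * j))

lemma homT_xF (T : List (List ℕ)) {j : ℕ} (hj : j < 20) :
    homT T (xF j) = evL xF (look T (2 * j)) := by
  unfold homT xF
  rw [dif_pos hj, FreeGroup.lift_apply_of]

lemma homT_evL {T : List (List ℕ)} (hT : okT T) (w : List ℕ) :
    homT T (evL xF w) = evL xF (sub T w) := by
  rw [map_evL]
  symm
  apply evL_sub
  intro l
  by_cases hl : l < 40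
  · unfold ev
    have hl2 : l / 2 < 20 := by omega
    split_ifs with h
    · beta_reduce
      rw [homT_xF T hl2]
      have : 2 * (l / 2) = l := by omega
      rw [this]
    · beta_reduce
      rw [homT_xF T hl2]
      have : l = 2 * (l / 2) + 1 := by omega
      conv_lhs => rw [this, hT.2 _ hl2, evL_invw]
  · rw [look_of_length_le _ _ (by rw [hT.1]; omega)]
    have h1 : xF (l / 2) = 1 := by unfold xF; rw [dif_neg (by omega)]
    unfold ev
    simp [h1, evL]

lemma okphi_check : (List.range 20).all (fun j =>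
    beqL (look phiT (2 * j + 1)) (invw (look phiT (2 * j))) &&
    beqL (look psiT (2 * j + 1)) (invw (look psiT (2 * j)))) = true := by
  decide +kernel

lemma okphi : okT phiT := by
  refine ⟨by decide, fun j hj => ?_⟩
  have h := List.all_eq_true.1 okphi_check j (List.mem_range.2 hj)
  rw [Bool.and_eq_true] at h
  exact beqL_eq h.1

lemma okpsi : okT psiT := by
  refine ⟨by decide, fun j hj => ?_⟩
  have h := List.all_eq_true.1 okphi_check j (List.mem_range.2 hj)
  rw [Bool.and_eq_true] at h
  exact beqL_eq h.2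

lemma xF_of (j : Fin 20) : xF j.val = FreeGroup.of j := by
  unfold xF; rw [dif_pos j.2]

lemma xF_ev (j : ℕ) : evL xF [2 * j] = xF j := by
  have h1 : 2 * j % 2 = 0 := by omega
  have h2 : 2 * j / 2 = j := by omega
  simp [evL, ev]

lemma comp1 : (homT psiT).comp (homT phiT) = MonoidHom.id F20 := by
  apply FreeGroup.ext_hom
  intro j
  have h := List.all_eq_true.1 check1 j.val (List.mem_range.2 j.2)
  rw [Bool.and_eq_true] at h
  rw [MonoidHom.comp_apply, ← xF_of, homT_xF _ j.2, homT_evL okpsi, beqL_eq h.2, xF_ev]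
  rfl

lemma comp2 : (homT phiT).comp (homT psiT) = MonoidHom.id F20 := by
  apply FreeGroup.ext_hom
  intro j
  have h := List.all_eq_true.1 check1 j.val (List.mem_range.2 j.2)
  rw [Bool.and_eq_true] at h
  rw [MonoidHom.comp_apply, ← xF_of, homT_xF _ j.2, homT_evL okphi, beqL_eq h.1, xF_ev]
  rfl

/-- the automorphism `φ` -/
def phiE : MulAut F20 := MonoidHom.toMulEquiv (homT phiT) (homT psiT) comp1 comp2

/-- the group `F_20 ⋊_φ ℤ` -/
abbrev G20 : Type := FreeByCyclic 20 phiE

/-- iterated substitution -/
def iterN (T : List (List ℕ)) (n : ℕ) (w : List ℕ) : List ℕ :=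
  Nat.rec (motive := fun _ => List ℕ) w (fun _ ih => sub T ih) n

/-- the action of `φ ^ a` on words -/
def subPow (a : ℤ) (w : List ℕ) : List ℕ :=
  Int.casesOn (motive := fun _ => List ℕ) a (fun n => iterN phiT n w)
    (fun n => iterN psiT (n + 1) w)

lemma phiE_pow (n : ℕ) (w : List ℕ) : (phiE ^ n) (evL xF w) = evL xF (iterN phiT n w) := by
  induction n with
  | zero => rfl
  | succ n ih =>
    rw [pow_succ', MulAut.mul_apply, ih]
    exact homT_evL okphi _

lemma phiE_inv_pow (n : ℕ) (w : List ℕ) :
    (phiE⁻¹ ^ n) (evL xF w) = evL xF (iterN psiT n w) := by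
  induction n with
  | zero => rfl
  | succ n ih =>
    rw [pow_succ', MulAut.mul_apply, ih]
    exact homT_evL okpsi _

lemma phiE_zpow (a : ℤ) (w : List ℕ) : (phiE ^ a) (evL xF w) = evL xF (subPow a w) := by
  cases a with
  | ofNat n => rw [Int.ofNat_eq_natCast, zpow_natCast]; exact phiE_pow n w
  | negSucc n => rw [zpow_negSucc, ← inv_pow]; exact phiE_inv_pow (n + 1) w

/-- the element of `F_20 ⋊ ℤ` given by a reversed word and an exponent -/
def evG (x : List ℕ × ℤ) : G20 := ⟨evR xF x.1, Multiplicative.ofAdd x.2⟩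

/-- the element of `F_20 ⋊ ℤ` given by a word and an exponent -/
def evP (x : List ℕ × ℤ) : G20 := ⟨evL xF x.1, Multiplicative.ofAdd x.2⟩

/-- multiplication in the model; the left factor is in reversed form -/
def mulM (x y : List ℕ × ℤ) : List ℕ × ℤ := (pushAll (subPow x.2 y.1) x.1, x.2 + y.2)

lemma evG_mulM (x y : List ℕ × ℤ) : evG (mulM x y) = evG x * evP y := by
  unfold evG evP mulM
  apply SemidirectProduct.ext
  · rw [SemidirectProduct.mul_left]
    simp only
    rw [evR_pushAll, zpowersHom_apply, toAdd_ofAdd, phiE_zpow]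
  · rw [SemidirectProduct.mul_right]
    rfl

/-- inversion in the model -/
def invM (x : List ℕ × ℤ) : List ℕ × ℤ := (subPow (-x.2) (invw x.1), -x.2)

lemma evP_invM (x : List ℕ × ℤ) : evP (invM x) = (evP x)⁻¹ := by
  unfold evP invM
  apply SemidirectProduct.ext
  · rw [SemidirectProduct.inv_left]
    simp only
    rw [← ofAdd_neg, zpowersHom_apply, toAdd_ofAdd, ← evL_invw, phiE_zpow]
  · rw [SemidirectProduct.inv_right]
    rfl

/-- product of a list in the model -/
def prodM (l : List (List ℕ × ℤ)) : List ℕ × ℤ → List ℕ × ℤ :=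
  List.rec (motive := fun _ => List ℕ × ℤ → List ℕ × ℤ) (fun x => x)
    (fun y _ ih x => Prod.casesOn (motive := fun _ => List ℕ × ℤ) (mulM x y)
      (fun u a => ih (u, a))) l

lemma evG_prodM (l : List (List ℕ × ℤ)) (x : List ℕ × ℤ) :
    evG (prodM l x) = evG x * (l.map evP).prod := by
  induction l generalizing x with
  | nil => simp [prodM]
  | cons y l ih =>
    have : prodM (y :: l) x = prodM l (mulM x y) := rfl
    rw [this, ih, evG_mulM, List.map_cons, List.prod_cons, mul_assoc]

/-- the model of `w_t(e)` -/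
def wM (t e : ℕ) : List ℕ × ℤ := lookD ([], 0) (look WT t) e

/-- labels of the edges of the chambers -/
def labN (k t : ℕ) : ℕ := lookD 0 (look labT k) t

lemma check2 : ((List.range 24).all fun k =>
    match prodM ((List.range 6).map fun t => wM t (labN k t)) ([], 0) with
    | (w, a) => beqL w [] && decide (a = 0)) = true := by
  decide +kernel

end

end C40b0b
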