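import Mathlib
import Pool.Agent.Lib_c40b0b.GP2
import Pool.Agent.Lib_c40b0b.FGroup

/-!
# MP_c40b0b_al, block F: certified computations in the graph product, the homomorphism `ι`
-/

namespace C40b0b

noncomputable section

/-- generators indexed by natural numbers -/
def aN (i : ℕ) : Gam := a (Fin.ofNat 6 i)

/-- orders -/
def qN (i : ℕ) : ℕ := lookD 1 [4, 6, 4, 6, 4, 6] (i % 6)

/-- adjacency -/
def adjN (i j : ℕ) : Bool := Nat.beq ((i + 1) % 6) j || Nat.beq ((j + 1) % 6) i

/-- insert the syllable `a_i ^ k` in a reversed word -/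
def insN (i k : ℕ) (L : List (ℕ × ℕ)) : List (ℕ × ℕ) :=
  bif Nat.beq (k % qN i) 0 then L else
  List.rec (motive := fun _ => List (ℕ × ℕ)) [(i, k)]
    (fun x L ih => Prod.casesOn (motive := fun _ => List (ℕ × ℕ)) x fun j m =>
      bif Nat.beq j i then
        (bif Nat.beq ((m + k) % qN i) 0 then L else (i, (m + k) % qN i) :: L)
      else bif adjN i j then (j, m) :: ih else (i, k) :: (j, m) :: L) L

/-- value of a list of syllables -/
def evU (u : List (ℕ × ℕ)) : Gam := (u.map fun x => aN x.1 ^ x.2).prod

/-- value of a reversed list of syllables -/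
def evN : List (ℕ × ℕ) → Gam
  | [] => 1
  | x :: L => evN L * aN x.1 ^ x.2

lemma qN_eq (i : ℕ) : qN i = q (Fin.ofNat 6 i) := by
  unfold qN
  have h : i % 6 < 6 := Nat.mod_lt _ (by norm_num)
  have h2 : Fin.ofNat 6 i = ⟨i % 6, h⟩ := rfl
  rw [h2]
  generalize i % 6 = j at h
  interval_cases j <;> rfl

lemma aN_pow_q (i : ℕ) : aN i ^ qN i = 1 := by
  rw [qN_eq]; exact a_pow _

lemma aN_pow_mod (i k : ℕ) : aN i ^ (k % qN i) = aN i ^ k := by
  conv_rhs => rw [← Nat.mod_add_div k (qN i), pow_add, pow_mul, aN_pow_q, one_pow, mul_one]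

lemma adjN_comm {i j : ℕ} (h : adjN i j = true) : aN i * aN j = aN j * aN i := by
  have key : ∀ i j : ℕ, Nat.beq ((i + 1) % 6) j = true → aN i * aN j = aN j * aN i := by
    intro i j h
    have h1 := Nat.eq_of_beq_eq_true h
    apply a_comm
    left
    apply Fin.ext
    rw [← h1, Fin.val_add]
    simp [Fin.ofNat]
  unfold adjN at h
  rw [Bool.or_eq_true] at h
  rcases h with h | h
  · exact key i j h
  · exact (key j i h).symm

lemma evN_insN (i k : ℕ) (L : List (ℕ × ℕ)) : evN (insN i k L) = evN L * aN i ^ k := by
  unfold insN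
  cases h0 : Nat.beq (k % qN i) 0 with
  | true =>
    rw [cond_true, ← aN_pow_mod, Nat.eq_of_beq_eq_true h0, pow_zero, mul_one]
  | false =>
    rw [cond_false]
    induction L with
    | nil => simp [evN]
    | cons x L ih =>
      obtain ⟨j, m⟩ := x
      simp only
      cases h1 : Nat.beq j i with
      | true =>
        rw [cond_true]
        have hji := Nat.eq_of_beq_eq_true h1
        subst hji
        cases h2 : Nat.beq ((m + k) % qN j) 0 with
        | true =>
          rw [cond_true]
          simp only [evN]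
          rw [mul_assoc, ← pow_add, ← aN_pow_mod j (m + k), Nat.eq_of_beq_eq_true h2, pow_zero,
            mul_one]
        | false =>
          rw [cond_false]
          simp only [evN]
          rw [aN_pow_mod, pow_add, mul_assoc]
      | false =>
        rw [cond_false]
        cases h2 : adjN i j with
        | true =>
          rw [cond_true]
          simp only [evN]
          rw [ih]
          have h3 : Commute (aN i ^ k) (aN j ^ m) :=
            Commute.pow_pow (adjN_comm h2 : Commute (aN i) (aN j)) k m
          rw [mul_assoc, mul_assoc, h3.eq]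
        | false =>
          rw [cond_false]
          simp only [evN]

/-- insert a list of syllables -/
def insAll (u : List (ℕ × ℕ)) : List (ℕ × ℕ) → List (ℕ × ℕ) :=
  List.rec (motive := fun _ => List (ℕ × ℕ) → List (ℕ × ℕ)) (fun acc => acc)
    (fun x _ ih acc => List.casesOn (motive := fun _ => List (ℕ × ℕ)) (insN x.1 x.2 acc) (ih [])
      (fun h t => ih (h :: t))) u

lemma evN_insAll (u : List (ℕ × ℕ)) : ∀ acc, evN (insAll u acc) = evN acc * evU u := by
  induction u with
  | nil => intro acc; simp [insAll, evU]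
  | cons x u ih =>
    intro acc
    have h1 : insAll (x :: u) acc = insAll u (insN x.1 x.2 acc) := by
      have : insAll (x :: u) acc = List.casesOn (motive := fun _ => List (ℕ × ℕ))
        (insN x.1 x.2 acc) (insAll u []) (fun h t => insAll u (h :: t)) := rfl
      rw [this]
      cases insN x.1 x.2 acc <;> rfl
    rw [h1, ih, evN_insN]
    simp [evU, mul_assoc]

/-- inverse of a list of syllables -/
def invU (u : List (ℕ × ℕ)) : List (ℕ × ℕ) :=
  (u.map (fun x => (x.1, qN x.1 - x.2 % qN x.1))).reverse

lemma qN_pos (i : ℕ) : 0 < qN i := by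
  rw [qN_eq]
  have : ∀ j : Fin 6, 0 < q j := by decide
  exact this _

lemma evU_append (u v : List (ℕ × ℕ)) : evU (u ++ v) = evU u * evU v := by simp [evU]

lemma evU_invU (u : List (ℕ × ℕ)) : evU (invU u) = (evU u)⁻¹ := by
  induction u with
  | nil => simp [invU, evU]
  | cons x u ih =>
    have e : invU (x :: u) = invU u ++ [(x.1, qN x.1 - x.2 % qN x.1)] := by simp [invU]
    have e2 : evU (x :: u) = aN x.1 ^ x.2 * evU u := by simp [evU]
    rw [e, evU_append, ih, e2, mul_inv_rev]
    congr 1
    have h1 : evU [(x.1, qN x.1 - x.2 % qN x.1)] = aN x.1 ^ (qN x.1 - x.2 % qN x.1) := by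
      simp [evU]
    rw [h1, eq_inv_iff_mul_eq_one, ← aN_pow_mod x.1 x.2, ← pow_add]
    have h2 : x.2 % qN x.1 < qN x.1 := Nat.mod_lt _ (qN_pos _)
    rw [Nat.sub_add_cancel h2.le, aN_pow_q]

/-- images of the free generators and of `t` (index 20) -/
def yG (j : ℕ) : Gam := evU (look XT (2 * j))

/-- insert the image of a word -/
def normW (w : List ℕ) : List (ℕ × ℕ) → List (ℕ × ℕ) :=
  List.rec (motive := fun _ => List (ℕ × ℕ) → List (ℕ × ℕ)) (fun acc => acc)
    (fun l _ ih acc => List.casesOn (motive := fun _ => List (ℕ × ℕ)) (insAll (look XT l) acc)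
      (ih []) (fun h t => ih (h :: t))) w

/-- is the list empty -/
def isNil : List (ℕ × ℕ) → Bool
  | [] => true
  | _ :: _ => false

lemma evN_isNil {L : List (ℕ × ℕ)} (h : isNil L = true) : evN L = 1 := by
  cases L with
  | nil => rfl
  | cons x L => simp [isNil] at h

lemma XT_check : (List.range 21).all (fun j =>
    isNil (insAll (look XT (2 * j + 1)) (insAll (look XT (2 * j)) []))) = true := by
  decide +kernel

lemma XT_inv (j : ℕ) : evU (look XT (2 * j + 1)) = (evU (look XT (2 * j)))⁻¹ := by
  by_cases hj : j < 21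
  · have h := List.all_eq_true.1 XT_check j (List.mem_range.2 hj)
    have h2 := evN_isNil h
    rw [evN_insAll, evN_insAll] at h2
    simp only [evN, one_mul] at h2
    exact eq_inv_of_mul_eq_one_right h2
  · have hl : XT.length = 42 := by decide
    rw [look_of_length_le _ _ (by omega), look_of_length_le _ _ (by omega)]
    simp [evU]

lemma evN_normW (w : List ℕ) : ∀ acc, evN (normW w acc) = evN acc * evL yG w := by
  induction w with
  | nil => intro acc; simp [normW, evL]
  | cons l w ih =>
    intro acc
    have h1 : normW (l :: w) acc = normW w (insAll (look XT l) acc) := by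
      have : normW (l :: w) acc = List.casesOn (motive := fun _ => List (ℕ × ℕ))
        (insAll (look XT l) acc) (normW w []) (fun h t => normW w (h :: t)) := rfl
      rw [this]
      cases insAll (look XT l) acc <;> rfl
    have h2 : evU (look XT l) = ev yG l := by
      unfold ev yG
      split_ifs with h
      · have : 2 * (l / 2) = l := by omega
        rw [this]
      · have : l = 2 * (l / 2) + 1 := by omega
        conv_lhs => rw [this, XT_inv]
    have h3 : evL yG (l :: w) = ev yG l * evL yG w := by simp [evL]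
    rw [h1, ih, evN_insAll, h2, h3, mul_assoc]

lemma V3_check : (List.range 20).all (fun j =>
    isNil (normW ([40, 2 * j, 41] ++ invw (look phiT (2 * j))) [])) = true := by
  decide +kernel

lemma V3 {j : ℕ} (hj : j < 20) : evL yG (look phiT (2 * j)) = yG 20 * yG j * (yG 20)⁻¹ := by
  have h := List.all_eq_true.1 V3_check j (List.mem_range.2 hj)
  have h2 := evN_isNil h
  rw [evN_normW, evL_append, evL_invw] at h2
  simp only [evN, one_mul] at h2
  rw [mul_inv_eq_one] at h2
  rw [← h2]
  have h1 : 2 * j % 2 = 0 := by omega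
  have h2 : 2 * j / 2 = j := by omega
  simp [evL, ev, h1, mul_assoc]

/-- the restriction of `ι` to the free group -/
def iotaF : F20 →* Gam := FreeGroup.lift (fun j : Fin 20 => yG j.val)

lemma iotaF_xF {j : ℕ} (hj : j < 20) : iotaF (xF j) = yG j := by
  unfold iotaF xF
  rw [dif_pos hj, FreeGroup.lift_apply_of]

/-- all letters `< 40` -/
lemma iotaF_evL (w : List ℕ) (hw : ∀ l ∈ w, l < 40) : iotaF (evL xF w) = evL yG w := by
  rw [map_evL]
  unfold evL
  congr 1
  apply List.map_congr_left
  intro l hl
  have : l / 2 < 20 := by have := hw l hl; omega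
  unfold ev
  beta_reduce
  rw [iotaF_xF this]

lemma small_check : (phiT.all fun w => w.all fun l => decide (l < 40)) = true ∧
    (WT.all fun r => r.all fun x => x.1.all fun l => decide (l < 40)) = true := by
  constructor <;> decide +kernel

lemma lookD_mem {α : Type} (d : α) (T : List α) (n : ℕ) : lookD d T n ∈ T ∨ lookD d T n = d := by
  induction T generalizing n with
  | nil => exact Or.inr rfl
  | cons x T ih => cases n with
    | zero => left; exact List.mem_cons_self
    | succ n => rcases ih n with h | h
                · left; exact List.mem_cons_of_mem _ h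
                · right; exact h

lemma phiT_small (j : ℕ) : ∀ l ∈ look phiT j, l < 40 := by
  intro l hl
  rcases lookD_mem [] phiT j with h | h
  · have h1 := List.all_eq_true.1 small_check.1 _ h
    exact of_decide_eq_true (List.all_eq_true.1 h1 l hl)
  · unfold look at hl
    rw [h] at hl
    simp at hl

lemma wM_small (t e : ℕ) : ∀ l ∈ (wM t e).1, l < 40 := by
  intro l hl
  unfold wM at hl
  rcases lookD_mem ([], 0) (look WT t) e with h | h
  · rcases lookD_mem [] WT t with h2 | h2
    · have h1 := List.all_eq_true.1 small_check.2 _ h2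
      have h3 := List.all_eq_true.1 h1 _ h
      exact of_decide_eq_true (List.all_eq_true.1 h3 l hl)
    · unfold look at h
      rw [h2] at h
      simp at h
  · rw [h] at hl
    simp at hl

/-- the image of `t` -/
def tG : Gam := yG 20

lemma iotaF_phi (x : F20) : iotaF (phiE x) = tG * iotaF x * tG⁻¹ := by
  have h : iotaF.comp (homT phiT) = (MulAut.conj tG).toMonoidHom.comp iotaF := by
    apply FreeGroup.ext_hom
    intro j
    rw [MonoidHom.comp_apply, ← xF_of, homT_xF _ j.2, iotaF_evL _ (phiT_small _), V3 j.2,
      MonoidHom.comp_apply, iotaF_xF j.2]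
    rfl
  exact DFunLike.congr_fun h x

lemma iotaF_phi_pow (n : ℕ) (x : F20) : iotaF ((phiE ^ n) x) = tG ^ n * iotaF x * (tG ^ n)⁻¹ := by
  induction n with
  | zero => simp
  | succ n ih =>
    rw [pow_succ', MulAut.mul_apply, iotaF_phi, ih, pow_succ']
    group

lemma iotaF_phi_zpow (n : ℤ) (x : F20) :
    iotaF ((phiE ^ n) x) = tG ^ n * iotaF x * (tG ^ n)⁻¹ := by
  cases n with
  | ofNat n => rw [Int.ofNat_eq_natCast, zpow_natCast, zpow_natCast]; exact iotaF_phi_pow n x
  | negSucc n =>
    have h := iotaF_phi_pow (n + 1) ((phiE ^ (Int.negSucc n)) x)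
    rw [zpow_negSucc] at h ⊢
    have h2 : (phiE ^ (n + 1)) (((phiE ^ (n + 1))⁻¹) x) = x := by
      rw [← MulAut.mul_apply, mul_inv_cancel]; rfl
    rw [h2] at h
    rw [h, zpow_negSucc]
    group

/-- the embedding `ι : F_20 ⋊ ℤ → Γ` -/
def iota : G20 →* Gam :=
  SemidirectProduct.lift iotaF (zpowersHom Gam tG) (by
    intro g
    ext x
    simp only [MonoidHom.comp_apply, zpowersHom_apply]
    exact iotaF_phi_zpow _ _)

/-- word for `t ^ a` -/
def tpow (a : ℤ) : List ℕ :=
  Int.casesOn (motive := fun _ => List ℕ) a (fun n => List.replicate n 40)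
    (fun n => List.replicate (n + 1) 41)

lemma evL_tpow (a : ℤ) : evL yG (tpow a) = tG ^ a := by
  cases a with
  | ofNat n =>
    have : tpow (Int.ofNat n) = List.replicate n 40 := rfl
    rw [this]
    simp [evL, ev, tG]
  | negSucc n =>
    have : tpow (Int.negSucc n) = List.replicate (n + 1) 41 := rfl
    rw [this]
    simp [evL, ev, tG]

lemma iota_evP (x : List ℕ × ℤ) (hx : ∀ l ∈ x.1, l < 40) :
    iota (evP x) = evL yG (x.1 ++ tpow x.2) := by
  have h : evP x = SemidirectProduct.inl (evL xF x.1) *
      SemidirectProduct.inr (Multiplicative.ofAdd x.2) := by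
    unfold evP
    rw [← SemidirectProduct.mk_eq_inl_mul_inr]
  rw [h, map_mul, evL_append, evL_tpow]
  unfold iota
  rw [SemidirectProduct.lift_inl, SemidirectProduct.lift_inr, iotaF_evL _ hx]
  rfl

/-- syllables of `u_i(k)` -/
def uN (i k : ℕ) : List (ℕ × ℕ) :=
  Prod.casesOn (motive := fun _ => List (ℕ × ℕ)) (lookD (0, 0) (look uT i) k)
    (fun x y => [((i + 5) % 6, x), (i, y)])

/-- action on chambers -/
def actN (i k : ℕ) : ℕ := lookD 0 (look actT i) k

lemma V4_check : (List.range 6).all (fun t => (List.range 24).all fun k =>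
    isNil (insAll (invU (uN t k)) (insAll (uN ((t + 1) % 6) k)
      (normW ((wM t (labN k t)).1 ++ tpow (wM t (labN k t)).2) [])))) = true := by
  decide +kernel

lemma V4 {t k : ℕ} (ht : t < 6) (hk : k < 24) :
    iota (evP (wM t (labN k t))) * evU (uN ((t + 1) % 6) k) = evU (uN t k) := by
  have h := List.all_eq_true.1 (List.all_eq_true.1 V4_check t (List.mem_range.2 ht)) k
    (List.mem_range.2 hk)
  have h2 := evN_isNil h
  rw [evN_insAll, evN_insAll, evN_normW, evU_invU] at h2
  simp only [evN, one_mul] at h2
  rw [iota_evP _ (wM_small _ _)]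
  exact mul_inv_eq_one.1 h2

lemma V4b_check : (List.range 6).all (fun i => (List.range 24).all fun k =>
    isNil (insAll (invU (uN i (actN i k))) (insN i 1 (insAll (uN i k) [])))) = true := by
  decide +kernel

lemma V4b {i k : ℕ} (hi : i < 6) (hk : k < 24) :
    evU (uN i k) * aN i = evU (uN i (actN i k)) := by
  have h := List.all_eq_true.1 (List.all_eq_true.1 V4b_check i (List.mem_range.2 hi)) k
    (List.mem_range.2 hk)
  have h2 := evN_isNil h
  rw [evN_insAll, evN_insN, evN_insAll, evU_invU] at h2
  simp only [evN, one_mul, pow_one] at h2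
  exact mul_inv_eq_one.1 h2

end

end C40b0b
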