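import Mathlib
import Pool.Agent.Lib_c40b0b.FGam

/-!
# MP_c40b0b_al, block F: `ι` is injective with image of finite index
-/

namespace C40b0b

noncomputable section

/-- chambers of the quotient complex -/
abbrev Ch : Type := Fin 24

/-- action of a generator on the chambers -/
def actF (i : Fin 6) (k : Ch) : Ch := Fin.ofNat 24 (actN i.val k.val)

lemma actF_val_check : (List.range 6).all (fun i => (List.range 24).all fun k =>
    Nat.blt (actN i k) 24) = true := by
  decide +kernel

lemma actF_val (i : Fin 6) (k : Ch) : (actF i k).val = actN i.val k.val := by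
  have h := List.all_eq_true.1 (List.all_eq_true.1 actF_val_check i.val (List.mem_range.2 i.2))
    k.val (List.mem_range.2 k.2)
  have h2 : actN i.val k.val < 24 := by
    rw [Nat.blt_eq] at h; exact h
  exact Nat.mod_eq_of_lt h2

/-- iterated action -/
def actP (i : Fin 6) (n : ℕ) (k : Ch) : Ch := (actF i)^[n] k

/-- the labels -/
def lab (k : Ch) (t : Fin 6) : ℕ := labN k.val t.val

lemma combi_check : (∀ i : Fin 6, ∀ k : Ch, (actF i)^[q i] k = k) ∧
    (∀ i : Fin 6, ∀ k : Ch, lab (actF i k) i = lab k i) ∧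
    (∀ i : Fin 6, ∀ k : Ch, actF i (actF (i + 1) k) = actF (i + 1) (actF i k)) := by
  refine ⟨?_, ?_, ?_⟩ <;> decide +kernel

/-- the action as a permutation -/
def actE (i : Fin 6) : Equiv.Perm Ch where
  toFun := actF i
  invFun := (actF i)^[q i - 1]
  left_inv k := by
    rw [← Function.iterate_succ_apply]
    have h : (q i - 1).succ = q i := by revert i; decide
    rw [h]; exact combi_check.1 i k
  right_inv k := by
    rw [← Function.iterate_succ_apply' (actF i)]
    have h : (q i - 1).succ = q i := by revert i; decide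
    rw [h]; exact combi_check.1 i k

lemma actE_apply (i : Fin 6) (k : Ch) : actE i k = actF i k := rfl

/-- the element `w_t(e)` of `F_20 ⋊ ℤ`, `e` the label of the chamber `k` -/
def wG (t : ℕ) (k : Ch) : G20 := evP (wM t (labN k.val t))

/-- potential of the `i`-th vertex of the chamber `k` -/
def V (n : ℕ) (k : Ch) : G20 := ((List.range n).map fun t => wG t k).prod

lemma V_zero (k : Ch) : V 0 k = 1 := by simp [V]

lemma V_succ (n : ℕ) (k : Ch) : V (n + 1) k = V n k * wG n k := by
  simp [V, List.range_succ]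

lemma evG_one : evG ([], 0) = 1 := by
  unfold evG
  apply SemidirectProduct.ext <;> rfl

lemma V_six (k : Ch) : V 6 k = 1 := by
  have h := List.all_eq_true.1 check2 k.val (List.mem_range.2 k.2)
  have h3 := evG_prodM ((List.range 6).map fun t => wM t (labN k.val t)) ([], 0)
  rw [evG_one, one_mul, List.map_map] at h3
  have h4 : V 6 k = ((List.range 6).map (evP ∘ fun t => wM t (labN k.val t))).prod := rfl
  rw [h4, ← h3]
  revert h
  generalize prodM ((List.range 6).map fun t => wM t (labN k.val t)) ([], 0) = y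
  intro h
  obtain ⟨w, a⟩ := y
  simp only [Bool.and_eq_true, decide_eq_true_eq] at h
  rw [beqL_eq h.1, h.2]
  exact evG_one

/-- the potential, indexed by the types -/
def Vc (i : Fin 6) (k : Ch) : G20 := V i.val k

lemma Vc_succ (i : Fin 6) (k : Ch) : Vc (i + 1) k = Vc i k * wG i.val k := by
  unfold Vc
  rw [← V_succ]
  by_cases h : i = 5
  · subst h
    have h1 : ((5 : Fin 6) + 1).val = 0 := by decide
    have h2 : (5 : Fin 6).val + 1 = 6 := by decide
    rw [h1, h2, V_zero, V_six]
  · have h1 : (i + 1).val = i.val + 1 := by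
      revert h; revert i; decide
    rw [h1]

/-- the two charts of `a_i` agree -/
lemma chart_eq (i : Fin 6) (k : Ch) :
    Vc (i + 1) k * (Vc (i + 1) (actF i k))⁻¹ = Vc i k * (Vc i (actF i k))⁻¹ := by
  rw [Vc_succ, Vc_succ]
  have h : wG i.val (actF i k) = wG i.val k := by
    unfold wG
    have := combi_check.2.1 i k
    unfold lab at this
    rw [this]
  rw [h]; group

/-- the permutation of `G × chambers` given by `a_i` -/
def rho (i : Fin 6) : Equiv.Perm (G20 × Ch) where
  toFun x := (x.1 * Vc i x.2 * (Vc i (actE i x.2))⁻¹, actE i x.2)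
  invFun x := (x.1 * Vc i x.2 * (Vc i ((actE i).symm x.2))⁻¹, (actE i).symm x.2)
  left_inv x := by simp
  right_inv x := by simp

lemma rho_apply (i : Fin 6) (g : G20) (k : Ch) :
    rho i (g, k) = (g * Vc i k * (Vc i (actE i k))⁻¹, actE i k) := rfl

lemma rho_apply' (i : Fin 6) (g : G20) (k : Ch) :
    rho i (g, k) = (g * Vc (i + 1) k * (Vc (i + 1) (actE i k))⁻¹, actE i k) := by
  rw [rho_apply, mul_assoc, mul_assoc, actE_apply, chart_eq]

lemma rho_pow (i : Fin 6) (n : ℕ) (g : G20) (k : Ch) :
    (rho i ^ n) (g, k) = (g * Vc i k * (Vc i ((actE i ^ n) k))⁻¹, (actE i ^ n) k) := by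
  induction n with
  | zero => simp
  | succ n ih =>
    rw [pow_succ', Equiv.Perm.mul_apply, ih, rho_apply, pow_succ', Equiv.Perm.mul_apply]
    simp

lemma rho_pow' (i : Fin 6) (n : ℕ) (g : G20) (k : Ch) :
    (rho i ^ n) (g, k) =
      (g * Vc (i + 1) k * (Vc (i + 1) ((actE i ^ n) k))⁻¹, (actE i ^ n) k) := by
  induction n with
  | zero => simp
  | succ n ih =>
    rw [pow_succ', Equiv.Perm.mul_apply, ih, rho_apply', pow_succ', Equiv.Perm.mul_apply]
    simp

lemma actE_pow_q (i : Fin 6) : actE i ^ q i = 1 := by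
  ext1 k
  have h : ∀ n, (actE i ^ n) k = (actF i)^[n] k := by
    intro n
    induction n with
    | zero => rfl
    | succ n ih =>
      rw [pow_succ', Equiv.Perm.mul_apply, ih, Function.iterate_succ_apply']; rfl
  rw [h, combi_check.1 i k]; rfl

lemma rho_comm (i : Fin 6) : rho i * rho (i + 1) = rho (i + 1) * rho i := by
  ext1 ⟨g, k⟩
  rw [Equiv.Perm.mul_apply, Equiv.Perm.mul_apply, rho_apply (i + 1), rho_apply' i, rho_apply' i,
    rho_apply (i + 1)]
  have h : actE i (actE (i + 1) k) = actE (i + 1) (actE i k) := combi_check.2.2 i k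
  rw [h]
  simp

/-- the right action of `Γ` on `G × chambers`, as a homomorphism to the opposite group -/
def Theta : Gam →* (Equiv.Perm (G20 × Ch))ᵐᵒᵖ :=
  lift (fun i => MulOpposite.op (rho i)) (by
    intro i
    rw [← MulOpposite.op_pow]
    have : rho i ^ q i = 1 := by
      ext1 ⟨g, k⟩
      rw [rho_pow, actE_pow_q]; simp
    rw [this]; rfl) (by
    intro i j hij
    rw [← MulOpposite.op_mul, ← MulOpposite.op_mul]
    congr 1
    rcases hij with rfl | rfl
    · exact (rho_comm i).symm
    · exact rho_comm j)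

/-- the right action of `Γ` on `G × chambers` -/
def ract (γ : Gam) (y : G20 × Ch) : G20 × Ch := (Theta γ).unop y

lemma ract_mul (γ δ : Gam) (y : G20 × Ch) : ract (γ * δ) y = ract δ (ract γ y) := by
  unfold ract
  rw [map_mul, MulOpposite.unop_mul, Equiv.Perm.mul_apply]

lemma ract_one (y : G20 × Ch) : ract 1 y = y := by
  unfold ract; simp

lemma ract_a_pow (i : Fin 6) (n : ℕ) (g : G20) (k : Ch) :
    ract (a i ^ n) (g, k) = (g * Vc i k * (Vc i ((actE i ^ n) k))⁻¹, (actE i ^ n) k) := by
  unfold ract Theta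
  rw [map_pow, lift_a, ← MulOpposite.op_pow, MulOpposite.unop_op, rho_pow]

lemma ract_a_pow' (i : Fin 6) (n : ℕ) (g : G20) (k : Ch) :
    ract (a i ^ n) (g, k) =
      (g * Vc (i + 1) k * (Vc (i + 1) ((actE i ^ n) k))⁻¹, (actE i ^ n) k) := by
  unfold ract Theta
  rw [map_pow, lift_a, ← MulOpposite.op_pow, MulOpposite.unop_op, rho_pow']

/-- the base chamber -/
def k0 : Ch := 6

/-- exponents -/
def uE (i : Fin 6) (k : Ch) : ℕ × ℕ := lookD (0, 0) (look uT i.val) k.val

/-- the element `u_i(k)` -/
def u (i : Fin 6) (k : Ch) : Gam := a (i + 5) ^ (uE i k).1 * a i ^ (uE i k).2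

lemma u_eq (i : Fin 6) (k : Ch) : u i k = evU (uN i.val k.val) := by
  unfold u uN uE evU
  generalize lookD (0, 0) (look uT i.val) k.val = y
  obtain ⟨x, y⟩ := y
  simp only [List.map_cons, List.map_nil, List.prod_cons, List.prod_nil, mul_one]
  unfold aN
  congr 2
  · congr 1
    revert i; decide
  · congr 1
    revert i; decide

lemma u_check : ∀ i : Fin 6, ∀ k : Ch,
    (actF i)^[(uE i k).2] ((actF (i + 5))^[(uE i k).1] k0) = k := by
  decide +kernel

lemma actE_pow_apply (i : Fin 6) (n : ℕ) (k : Ch) : (actE i ^ n) k = (actF i)^[n] k := by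
  induction n with
  | zero => rfl
  | succ n ih =>
    rw [pow_succ', Equiv.Perm.mul_apply, ih, Function.iterate_succ_apply']; rfl

lemma ract_u (i : Fin 6) (k : Ch) (g : G20) :
    ract (u i k) (g, k0) = (g * Vc i k0 * (Vc i k)⁻¹, k) := by
  unfold u
  have h1 : i + 5 + 1 = i := by revert i; decide
  rw [ract_mul, ract_a_pow' (i + 5) _ g k0, h1, ract_a_pow i]
  have h2 := u_check i k
  rw [← actE_pow_apply, ← actE_pow_apply] at h2
  rw [h2]
  simp

lemma base_check : (List.range 6).all (fun t =>
    match wM t (labN 6 t) with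
    | (w, a) => beqL w [] && decide (a = 0)) = true := by
  decide +kernel

lemma evP_one : evP ([], 0) = 1 := by
  unfold evP
  apply SemidirectProduct.ext <;> rfl

lemma V_base (n : ℕ) (hn : n ≤ 6) : V n k0 = 1 := by
  induction n with
  | zero => exact V_zero _
  | succ n ih =>
    rw [V_succ, ih (by omega), one_mul]
    have h := List.all_eq_true.1 base_check n (List.mem_range.2 (by omega))
    have h4 : wG n k0 = evP (wM n (labN 6 n)) := rfl
    rw [h4]
    revert h
    generalize wM n (labN 6 n) = y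
    intro h
    obtain ⟨w, a⟩ := y
    simp only [Bool.and_eq_true, decide_eq_true_eq] at h
    rw [beqL_eq h.1, h.2]
    exact evP_one

lemma Vc_base (i : Fin 6) : Vc i k0 = 1 := V_base _ (by omega)

lemma iota_wG (t : Fin 6) (k : Ch) : iota (wG t.val k) * u (t + 1) k = u t k := by
  have h := V4 t.2 k.2
  rw [u_eq, u_eq]
  have h2 : ∀ t : Fin 6, (t + 1).val = (t.val + 1) % 6 := by decide
  rw [h2]
  exact h

/-- the property `(h, k0) · ι(g) = (h g, k0)` -/
def Pr (g : G20) : Prop := ∀ h : G20, ract (iota g) (h, k0) = (h * g, k0)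

lemma Pr_mul {g g' : G20} (hg : Pr g) (hg' : Pr g') : Pr (g * g') := by
  intro h
  rw [map_mul, ract_mul, hg, hg', mul_assoc]

lemma Pr_inv {g : G20} (hg : Pr g) : Pr g⁻¹ := by
  intro h
  have h1 := hg (h * g⁻¹)
  rw [inv_mul_cancel_right] at h1
  rw [← h1, ← ract_mul, ← map_mul, mul_inv_cancel, map_one, ract_one]

lemma Pr_one : Pr 1 := by
  intro h
  rw [map_one, ract_one, mul_one]

lemma Pr_wG (t : Fin 6) (k : Ch) : Pr (wG t.val k) := by
  intro h
  have h1 := iota_wG t k
  have h2 : ract (iota (wG t.val k) * u (t + 1) k) (h, k0) = ract (u t k) (h, k0) := by rw [h1]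
  rw [ract_mul, ract_u, Vc_base, mul_one] at h2
  have h3 : ract (u (t + 1) k) (h * wG t.val k, k0) = (h * (Vc t k)⁻¹, k) := by
    rw [ract_u, Vc_base, mul_one, Vc_succ]
    congr 1
    group
  have hinj : Function.Injective (ract (u (t + 1) k)) := by
    intro x y hxy
    have := congrArg (ract (u (t + 1) k)⁻¹) hxy
    rwa [← ract_mul, ← ract_mul, mul_inv_cancel, ract_one, ract_one] at this
  exact hinj (h2.trans h3.symm)

/-- the factors in the tables `genW` -/
def genM (x : ℕ × ℕ × ℕ) : List ℕ × ℤ :=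
  Prod.casesOn (motive := fun _ => List ℕ × ℤ) x fun t y =>
    Prod.casesOn (motive := fun _ => List ℕ × ℤ) y fun e s =>
      bif Nat.beq s 0 then wM t e else invM (wM t e)

lemma gen_check : ((List.range 21).all fun j =>
    match prodM ((look genW j).map genM) ([], 0) with
    | (w, a) => bif Nat.beq j 20 then beqL w [] && decide (a = 1)
        else beqL w [2 * j] && decide (a = 0)) = true := by
  decide +kernel

lemma gen_check2 : (genW.all fun r => r.all fun x =>
    Nat.blt x.1 6 && (List.range 24).any fun k => Nat.beq (labN k x.1) x.2.1) = true := by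
  decide +kernel

lemma Pr_genM {x : ℕ × ℕ × ℕ} (h : (Nat.blt x.1 6 && (List.range 24).any fun k =>
    Nat.beq (labN k x.1) x.2.1) = true) : Pr (evP (genM x)) := by
  obtain ⟨t, e, s⟩ := x
  rw [Bool.and_eq_true] at h
  obtain ⟨h1, h2⟩ := h
  rw [Nat.blt_eq] at h1
  rw [List.any_eq_true] at h2
  obtain ⟨k, hk, h2⟩ := h2
  have h3 := Nat.eq_of_beq_eq_true h2
  have hk2 := List.mem_range.1 hk
  have h4 : Pr (evP (wM t e)) := by
    have := Pr_wG ⟨t, h1⟩ ⟨k, hk2⟩
    unfold wG at this
    simp only at this h3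
    rw [h3] at this
    exact this
  have h5 : genM (t, e, s) = bif Nat.beq s 0 then wM t e else invM (wM t e) := rfl
  rw [h5]
  cases Nat.beq s 0 with
  | true => exact h4
  | false => rw [cond_false, evP_invM]; exact Pr_inv h4

lemma Pr_prod (l : List (ℕ × ℕ × ℕ)) (h : ∀ x ∈ l, (Nat.blt x.1 6 && (List.range 24).any fun k =>
    Nat.beq (labN k x.1) x.2.1) = true) : Pr (((l.map genM).map evP).prod) := by
  induction l with
  | nil => simpa using Pr_one
  | cons x l ih =>
    rw [List.map_cons, List.map_cons, List.prod_cons]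
    exact Pr_mul (Pr_genM (h x List.mem_cons_self))
      (ih (fun y hy => h y (List.mem_cons_of_mem _ hy)))

lemma Pr_look (j : ℕ) : Pr (((look genW j).map genM).map evP).prod := by
  apply Pr_prod
  intro x hx
  rcases lookD_mem [] genW j with h | h
  · exact List.all_eq_true.1 (List.all_eq_true.1 gen_check2 _ h) x hx
  · unfold look at hx
    rw [h] at hx
    simp at hx

lemma Pr_x {j : ℕ} (hj : j < 20) : Pr (SemidirectProduct.inl (xF j)) := by
  have h := List.all_eq_true.1 gen_check j (List.mem_range.2 (by omega))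
  have h3 := evG_prodM ((look genW j).map genM) ([], 0)
  rw [evG_one, one_mul] at h3
  have h4 := Pr_look j
  rw [← h3] at h4
  revert h h4
  generalize prodM ((look genW j).map genM) ([], 0) = y
  intro h h4
  obtain ⟨w, a⟩ := y
  have hb : Nat.beq j 20 = false := by
    cases hb : Nat.beq j 20 with
    | true => have := Nat.eq_of_beq_eq_true hb; omega
    | false => rfl
  simp only [hb, cond_false, Bool.and_eq_true, decide_eq_true_eq] at h
  rw [beqL_eq h.1, h.2] at h4
  have h5 : evG ([2 * j], 0) = SemidirectProduct.inl (xF j) := by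
    unfold evG
    apply SemidirectProduct.ext
    · simp [evR, ev]
    · rfl
  rw [h5] at h4
  exact h4

lemma Pr_t : Pr (SemidirectProduct.inr (Multiplicative.ofAdd 1)) := by
  have h := List.all_eq_true.1 gen_check 20 (List.mem_range.2 (by omega))
  have h3 := evG_prodM ((look genW 20).map genM) ([], 0)
  rw [evG_one, one_mul] at h3
  have h4 := Pr_look 20
  rw [← h3] at h4
  revert h h4
  generalize prodM ((look genW 20).map genM) ([], 0) = y
  intro h h4
  obtain ⟨w, a⟩ := y
  have hb : Nat.beq 20 20 = true := rfl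
  simp only [hb, cond_true, Bool.and_eq_true, decide_eq_true_eq] at h
  rw [beqL_eq h.1, h.2] at h4
  have h5 : evG ([], 1) = SemidirectProduct.inr (Multiplicative.ofAdd 1) := by
    unfold evG
    apply SemidirectProduct.ext <;> rfl
  rw [h5] at h4
  exact h4

/-- induction principle for `F_20 ⋊ ℤ` -/
lemma G20_induction {p : G20 → Prop} (h1 : p 1) (hx : ∀ j < 20, p (SemidirectProduct.inl (xF j)))
    (ht : p (SemidirectProduct.inr (Multiplicative.ofAdd 1)))
    (hm : ∀ g g', p g → p g' → p (g * g')) (hi : ∀ g, p g → p g⁻¹) (g : G20) : p g := by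
  have hF : ∀ f : F20, p (SemidirectProduct.inl f) := by
    intro f
    induction f using FreeGroup.induction_on with
    | C1 => rw [map_one]; exact h1
    | of j => rw [← xF_of]; exact hx _ j.2
    | inv_of j _ => rw [map_inv, ← xF_of]; exact hi _ (hx _ j.2)
    | mul f f' h h' => rw [map_mul]; exact hm _ _ h h'
  have hn : ∀ n : ℕ, p (SemidirectProduct.inr (Multiplicative.ofAdd (n : ℤ))) := by
    intro n
    induction n with
    | zero => simpa using h1
    | succ n ih =>
      have : Multiplicative.ofAdd (((n + 1 : ℕ) : ℤ)) =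
        Multiplicative.ofAdd (n : ℤ) * Multiplicative.ofAdd (1 : ℤ) := by
        rw [← ofAdd_add]; push_cast; rfl
      rw [this, map_mul]
      exact hm _ _ ih ht
  have hz : ∀ n : ℤ, p (SemidirectProduct.inr (Multiplicative.ofAdd n)) := by
    intro n
    cases n with
    | ofNat n => exact hn n
    | negSucc n =>
      have : Multiplicative.ofAdd (Int.negSucc n) = (Multiplicative.ofAdd (((n + 1 : ℕ) : ℤ)))⁻¹ := by
        rw [← ofAdd_neg]; rfl
      rw [this, map_inv]
      exact hi _ (hn _)
  rw [← SemidirectProduct.inl_left_mul_inr_right g]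
  exact hm _ _ (hF _) (hz _)

lemma Pr_all (g : G20) : Pr g :=
  G20_induction Pr_one (fun _ hj => Pr_x hj) Pr_t (fun _ _ => Pr_mul) (fun _ => Pr_inv) g

theorem iota_injective : Function.Injective iota := by
  rw [injective_iff_map_eq_one]
  intro g hg
  have h := Pr_all g 1
  rw [hg, ract_one, one_mul] at h
  exact (Prod.mk.inj h).1.symm

lemma u_mul_a (i : Fin 6) (k : Ch) : u i k * a i = u i (actF i k) := by
  have h := V4b i.2 k.2
  rw [u_eq, u_eq, actF_val]
  have h3 : ∀ i : Fin 6, Fin.ofNat 6 i.val = i := by decide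
  have h2 : aN i.val = a i := by unfold aN; rw [h3]
  rw [← h2]
  exact h

lemma u_change (i : ℕ) (k : Ch) : ∃ g : G20, u (Fin.ofNat 6 i) k = iota g * u 0 k := by
  induction i with
  | zero => exact ⟨1, by simp⟩
  | succ i ih =>
    obtain ⟨g, hg⟩ := ih
    have h := iota_wG (Fin.ofNat 6 i) k
    have h2 : Fin.ofNat 6 (i + 1) = Fin.ofNat 6 i + 1 := by
      apply Fin.ext
      rw [Fin.val_add]
      simp [Fin.ofNat]
    refine ⟨(wG (Fin.ofNat 6 i).val k)⁻¹ * g, ?_⟩
    rw [h2, map_mul, mul_assoc, ← hg, ← h, map_inv]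
    group

/-- every element of `Γ` is in one of 24 cosets of the image of `ι` -/
theorem iota_cosets (γ : Gam) : ∃ (k : Ch) (g : G20), γ = iota g * u 0 k := by
  have key : ∀ γ : Gam, (∃ (k : Ch) (g : G20), γ = iota g * u 0 k) → ∀ i,
      ∃ (k : Ch) (g : G20), γ * a i = iota g * u 0 k := by
    rintro _ ⟨k, g, rfl⟩ i
    obtain ⟨g1, hg1⟩ := u_change i.val k
    obtain ⟨g2, hg2⟩ := u_change i.val (actF i k)
    have hi : ∀ i : Fin 6, Fin.ofNat 6 i.val = i := by decide
    rw [hi] at hg1 hg2
    refine ⟨actF i k, g * g1⁻¹ * g2, ?_⟩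
    have h1 : u 0 k = (iota g1)⁻¹ * u i k := by rw [hg1]; group
    rw [h1, mul_assoc, mul_assoc, u_mul_a, hg2]
    simp only [map_mul, map_inv]
    group
  have key2 : ∀ δ γ : Gam, (∃ (k : Ch) (g : G20), γ = iota g * u 0 k) →
      ∃ (k : Ch) (g : G20), γ * δ = iota g * u 0 k := by
    intro δ
    induction δ using gam_induction with
    | h1 => intro γ h; rw [mul_one]; exact h
    | ha j δ ih => intro γ h; rw [← mul_assoc]; exact ih _ (key γ h j)
  have h := key2 (u 0 k0)⁻¹ (u 0 k0) ⟨k0, 1, by simp⟩
  rw [mul_inv_cancel] at h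
  have := key2 γ 1 h
  rwa [one_mul] at this

theorem iota_finiteIndex : iota.range.FiniteIndex := by
  have hs : Function.Surjective (fun k : Ch => (((u 0 k)⁻¹ : Gam) : Gam ⧸ iota.range)) := by
    intro y
    induction y using QuotientGroup.induction_on with
    | H γ =>
      obtain ⟨k, g, h⟩ := iota_cosets γ⁻¹
      refine ⟨k, ?_⟩
      simp only
      rw [QuotientGroup.eq, inv_inv]
      refine ⟨g⁻¹, ?_⟩
      have : γ = (u 0 k)⁻¹ * (iota g)⁻¹ := by
        rw [← mul_inv_rev, ← h, inv_inv]
      rw [this, map_inv]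
      group
  have : Finite (Gam ⧸ iota.range) := Finite.of_surjective _ hs
  exact Subgroup.finiteIndex_of_finite_quotient

theorem G20_fg : Group.FG G20 := by
  rw [Group.fg_iff]
  refine ⟨(fun j => (SemidirectProduct.inl (xF j) : G20)) '' (Set.Iio 20) ∪
    {SemidirectProduct.inr (Multiplicative.ofAdd 1)}, ?_, ?_⟩
  · rw [eq_top_iff]
    intro g _
    refine G20_induction (p := fun g => g ∈ Subgroup.closure _) (Subgroup.one_mem _)
      (fun j hj => Subgroup.subset_closure (Or.inl ⟨j, hj, rfl⟩))
      (Subgroup.subset_closure (Or.inr rfl)) (fun _ _ => Subgroup.mul_mem _)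
      (fun _ => Subgroup.inv_mem _) g
  · exact ((Set.finite_Iio 20).image _).union (Set.finite_singleton _)

end

end C40b0b
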