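import Mathlib
import Pool.Agent.Lib_c40b0b.GP2

/-!
# MP_c40b0b_al, block B: the four point inequality
-/

namespace C40b0b

/-- two hyperplanes cross -/
def cross (H K : Hyp) : Prop := Adj6 H.1 K.1 ∧ ∃ z, H = hyp H.1 z ∧ K = hyp K.1 z

lemma cross.symm {H K : Hyp} (h : cross H K) : cross K H := by
  obtain ⟨h1, z, hz1, hz2⟩ := h
  exact ⟨h1.symm, z, hz2, hz1⟩

lemma exists_car (H : Hyp) : ∃ u, H = hyp H.1 u := by
  obtain ⟨i, c⟩ := H
  refine ⟨c.out, ?_⟩
  unfold hyp
  simp

/-- a hyperplane not crossing `H` does not separate points of the carrier of `H` -/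
lemma const_on_car {H K : Hyp} (hne : H ≠ K) (hc : ¬ cross H K) {u v : Gam}
    (hu : H = hyp H.1 u) (hv : H = hyp H.1 v) : sg K u = sg K v := by
  by_contra hs
  have h1 : u⁻¹ * v ∈ P H.1 := hyp_eq_iff.1 (hu.symm.trans hv)
  obtain ⟨j, hj, z, hz, hKz⟩ := sep_in_coset h1 hs
  have hz' : H = hyp H.1 z := hu.trans (hyp_eq_iff.2 hz)
  have hK1 : K.1 = j := by rw [hKz]; rfl
  rcases hj with hj | hj
  · apply hne
    rw [hKz, hj]
    exact hz'
  · refine hc ⟨by rw [hK1]; exact hj, z, hz', ?_⟩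
    rw [hK1]
    exact hKz

lemma nested {H K : Hyp} (hne : H ≠ K) (hc : ¬ cross H K) :
    ∃ a b, ∀ x, sg H x = a ∨ sg K x = b := by
  obtain ⟨uH, huH⟩ := exists_car H
  obtain ⟨uK, huK⟩ := exists_car K
  refine ⟨sg H uK, sg K uH, fun x => ?_⟩
  by_contra hcon
  push Not at hcon
  obtain ⟨h1, h2⟩ := hcon
  obtain ⟨u, hu1, hu2, hu3⟩ := exists_gate h1
  have h3 : sg K u = sg K uH := const_on_car hne hc hu1 huH
  have h4 : sg K x ≠ sg K u := by rw [h3]; exact h2
  obtain ⟨w, hw1, hw2, hw3⟩ := exists_gate h4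
  have h5 : sg H w = sg H uK := const_on_car hne.symm (fun h => hc h.symm) hw1 huK
  rcases hw3 H with h6 | h6
  · exact h1 (h6.trans h5)
  · exact h1 (hu2.symm.trans (h6.symm.trans h5))

/-- the class of hyperplanes separating `{x, z}` from `{y, w}` -/
def cls (x z y w : Gam) (H : Hyp) : Prop :=
  (sg H x = sg H z ∧ sg H x ≠ sg H y ∧ sg H x ≠ sg H w) ∨
    (sg H y = sg H w ∧ sg H y ≠ sg H x ∧ sg H y ≠ sg H z)

lemma cross_of_cls {x y z w : Gam} {H K : Hyp} (hH : cls x z y w H) (hK : cls x w y z K) :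
    cross H K := by
  have hne : H ≠ K := by
    rintro rfl
    unfold cls at hH hK
    rcases hH with ⟨h1, h2, h3⟩ | ⟨h1, h2, h3⟩ <;> rcases hK with ⟨h4, h5, h6⟩ | ⟨h4, h5, h6⟩
    · exact h3 h4
    · exact h2 (h1.trans h4.symm)
    · exact h2 (h1.trans h4.symm)
    · exact h3 h4
  by_contra hc
  obtain ⟨a, b, hab⟩ := nested hne hc
  have hx := hab x
  have hy := hab y
  have hz := hab z
  have hw := hab w
  unfold cls at hH hK
  grind

/-- a third hyperplane -/
lemma exists_third {H H₂ K K₂ : Hyp} (hne : H ≠ H₂) (hty : H.1 = H₂.1) (h1 : cross H K)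
    (h2 : cross H₂ K) (h3 : cross H K₂) (h4 : cross H₂ K₂) :
    ∃ J : Hyp, J.1 ∉ star H.1 ∧ cross J K ∧ cross J K₂ := by
  classical
  -- the minimal distance between the carriers
  obtain ⟨uH, huH⟩ := exists_car H
  obtain ⟨uH2, huH2⟩ := exists_car H₂
  have hex : ∃ n, ∃ h h2 : Gam, H = hyp H.1 h ∧ H₂ = hyp H₂.1 h2 ∧ X.dist h h2 = n :=
    ⟨_, uH, uH2, huH, huH2, rfl⟩
  obtain ⟨h, h', hh, hh', hd⟩ := Nat.find_spec hex
  have hmin : ∀ u v : Gam, H = hyp H.1 u → H₂ = hyp H₂.1 v → X.dist h h' ≤ X.dist u v := by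
    intro u v hu hv
    rw [hd]
    exact Nat.find_min' hex ⟨u, v, hu, hv, rfl⟩
  have hdne : h ≠ h' := by
    rintro rfl
    apply hne
    rw [hh, hh', hty]
  obtain ⟨p, hp⟩ := X_connected.exists_walk_length_eq_dist h h'
  cases p with
  | nil => exact absurd rfl hdne
  | @cons _ m _ hadj p =>
    have hlen : X.dist h h' = p.length + 1 := by
      rw [← hp]; rfl
    have hlt : X.dist m h' < X.dist h h' := by
      rw [hlen]
      exact Nat.lt_succ_of_le (SimpleGraph.dist_le p)
    obtain ⟨j, hj1, hj2, hj3⟩ := adj_cross hadj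
    -- the type is not in the star
    have hjs : j ∉ star H.1 := by
      intro hjs
      have hm : H = hyp H.1 m := by
        rw [hh]
        refine hyp_eq_iff.2 ?_
        obtain ⟨k, hk⟩ := Subgroup.mem_zpowers_iff.1 hj1
        rw [← hk]
        exact (P H.1).zpow_mem (a_mem_P hjs) k
      have := hmin m h' hm hh'
      omega
    -- `hyp j h` separates
    have hsep : sg (hyp j h) h ≠ sg (hyp j h) h' := by
      intro hcon
      have hsub : {L | sg L h ≠ sg L h'} ⊆ {L | sg L m ≠ sg L h'} := by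
        intro L hL
        by_cases hLj : L = hyp j h
        · rw [hLj] at hL
          exact absurd hcon hL
        · have h5 : sg L h = sg L m := by
            by_contra h6
            exact hLj ((hj3 L).1 h6)
          change sg L m ≠ sg L h'
          rw [← h5]
          exact hL
      have h6 := Set.ncard_le_ncard hsub (finite_sep m h')
      rw [← dist_eq, ← dist_eq] at h6
      omega
    have hJH : hyp j h ≠ H := by
      intro he
      apply hjs
      left
      exact congrArg Sigma.fst he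
    have hJH2 : hyp j h ≠ H₂ := by
      intro he
      apply hjs
      left
      rw [hty]
      exact congrArg Sigma.fst he
    have hJc : ∀ L : Hyp, L.1 = H.1 → ¬ cross L (hyp j h) := by
      intro L hL hcr
      apply hjs
      right
      rw [← hL]
      exact hcr.1
    -- `J` crosses `K`
    have key : ∀ K : Hyp, cross H K → cross H₂ K → cross (hyp j h) K := by
      intro K hHK hH2K
      obtain ⟨had, z, hz1, hz2⟩ := hHK
      obtain ⟨had2, z', hz1', hz2'⟩ := hH2K
      have h5 : sg (hyp j h) z = sg (hyp j h) h :=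
        const_on_car hJH.symm (hJc H rfl) hz1 hh
      have h6 : sg (hyp j h) z' = sg (hyp j h) h' :=
        const_on_car hJH2.symm (hJc H₂ hty.symm) hz1' hh'
      have h7 : sg (hyp j h) z ≠ sg (hyp j h) z' := by
        rw [h5, h6]
        exact hsep
      have h8 : z⁻¹ * z' ∈ P K.1 := hyp_eq_iff.1 (hz2.symm.trans hz2')
      obtain ⟨j', hj', v, hv, hJv⟩ := sep_in_coset h8 h7
      have hjj : j = j' := congrArg Sigma.fst hJv
      subst hjj
      have hKv : K = hyp K.1 v := hz2.trans (hyp_eq_iff.2 hv)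
      rcases hj' with hj' | hj'
      · exfalso
        apply hjs
        right
        rw [hj']
        exact had
      · exact ⟨hj'.symm, v, hJv, hKv⟩
    exact ⟨hyp j h, hjs, key K h1 h2, key K₂ h3 h4⟩

lemma common_nbr {i j k l : Fin 6} (hij : i ≠ j) (h1 : Adj6 i k) (h2 : Adj6 j k) (h3 : Adj6 i l)
    (h4 : Adj6 j l) : k = l := by
  revert i j k l
  decide

lemma no_grid {H₁ H₂ K₁ K₂ : Hyp} (hH : H₁ ≠ H₂) (hK : K₁ ≠ K₂) (h11 : cross H₁ K₁)
    (h12 : cross H₁ K₂) (h21 : cross H₂ K₁) (h22 : cross H₂ K₂) : False := by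
  have main : ∀ {H₁ H₂ K₁ K₂ : Hyp}, H₁ ≠ H₂ → K₁ ≠ K₂ → cross H₁ K₁ → cross H₁ K₂ →
      cross H₂ K₁ → cross H₂ K₂ → H₁.1 = H₂.1 → False := by
    intro H₁ H₂ K₁ K₂ hH hK h11 h12 h21 h22 hty
    obtain ⟨J, hJ, hJ1, hJ2⟩ := exists_third hH hty h11 h21 h12 h22
    have hne : H₁.1 ≠ J.1 := fun h => hJ (Or.inl h.symm)
    have hk : K₁.1 = K₂.1 := common_nbr hne h11.1 hJ1.1 h12.1 hJ2.1
    obtain ⟨J₂, hJ₂, hJ3, hJ4⟩ := exists_third hK hk h11.symm h12.symm hJ1.symm hJ2.symm
    exact hJ₂ (Or.inl (common_nbr hne hJ3.symm.1 hJ4.symm.1 h11.1 hJ1.1))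
  by_cases hty : H₁.1 = H₂.1
  · exact main hH hK h11 h12 h21 h22 hty
  · exact main hK hH h11.symm h21.symm h12.symm h22.symm
      (common_nbr hty h11.1 h21.1 h12.1 h22.1)

/-- The Cayley graph of `Γ` is Gromov hyperbolic (with `2 δ = 2`). -/
theorem X_hyperbolic : GromovHyperbolic X := by
  classical
  refine ⟨1, fun x y z w => ?_⟩
  let F : Gam → Gam → Finset Hyp := fun u v => (finite_sep u v).toFinset
  let U : Finset Hyp := F x y ∪ F z w ∪ F x z ∪ F y w ∪ F x w ∪ F y z
  have hd : ∀ u v : Gam, F u v ⊆ U →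
      X.dist u v = ∑ H ∈ U, if sg H u ≠ sg H v then 1 else 0 := by
    intro u v huv
    rw [dist_eq, ← Finset.card_filter, ← Set.ncard_coe_finset]
    congr 1
    ext H
    simp only [Set.mem_ofPred_eq, Finset.coe_filter]
    constructor
    · intro h
      refine ⟨huv ?_, h⟩
      rw [Set.Finite.mem_toFinset]
      exact h
    · exact fun h => h.2
  rw [hd x y (by intro H hH; simp only [U, Finset.mem_union]; tauto),
    hd z w (by intro H hH; simp only [U, Finset.mem_union]; tauto),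
    hd x z (by intro H hH; simp only [U, Finset.mem_union]; tauto),
    hd y w (by intro H hH; simp only [U, Finset.mem_union]; tauto),
    hd x w (by intro H hH; simp only [U, Finset.mem_union]; tauto),
    hd y z (by intro H hH; simp only [U, Finset.mem_union]; tauto),
    ← Finset.sum_add_distrib, ← Finset.sum_add_distrib, ← Finset.sum_add_distrib]
  have bound1 : ∀ a b c d : ZMod 12,
      (if a ≠ b then 1 else 0) + (if c ≠ d then 1 else 0) ≤
      (if a ≠ c then 1 else 0) + (if b ≠ d then 1 else 0) + 2 := by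
    intro a b c d
    split_ifs <;> omega
  have bound2 : ∀ a b c d : ZMod 12, ¬ ((a = c ∧ a ≠ b ∧ a ≠ d) ∨ (b = d ∧ b ≠ a ∧ b ≠ c)) →
      (if a ≠ b then 1 else 0) + (if c ≠ d then 1 else 0) ≤
      (if a ≠ c then 1 else 0) + (if b ≠ d then 1 else 0) := by
    intro a b c d h
    split_ifs <;> first | omega | (exfalso; grind)
  have main : ∀ x y z w : Gam,
      ∑ H ∈ U, ((if sg H x ≠ sg H y then 1 else 0) + if sg H z ≠ sg H w then 1 else 0) ≤
      ∑ H ∈ U, ((if sg H x ≠ sg H z then 1 else 0) + if sg H y ≠ sg H w then 1 else 0) +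
        2 * (U.filter (cls x z y w)).card := by
    intro x y z w
    rw [Finset.card_filter, Finset.mul_sum, ← Finset.sum_add_distrib]
    refine Finset.sum_le_sum fun H _ => ?_
    by_cases h : cls x z y w H
    · rw [if_pos h]
      exact bound1 _ _ _ _
    · rw [if_neg h]
      exact bound2 _ _ _ _ h
  by_cases hB : (U.filter (cls x z y w)).card ≤ 1
  · have h1 := main x y z w
    omega
  · by_cases hC : (U.filter (cls x w y z)).card ≤ 1
    · have h1 := main x y w z
      have h2 : ∑ H ∈ U, ((if sg H x ≠ sg H y then 1 else 0) + if sg H w ≠ sg H z then 1 else 0) =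
          ∑ H ∈ U, ((if sg H x ≠ sg H y then 1 else 0) + if sg H z ≠ sg H w then 1 else 0) := by
        refine Finset.sum_congr rfl fun H _ => ?_
        simp only [ne_comm]
      rw [h2] at h1
      omega
    · exfalso
      push Not at hB hC
      obtain ⟨H₁, hH₁, H₂, hH₂, hne⟩ := Finset.one_lt_card.1 hB
      obtain ⟨K₁, hK₁, K₂, hK₂, hne'⟩ := Finset.one_lt_card.1 hC
      rw [Finset.mem_filter] at hH₁ hH₂ hK₁ hK₂
      exact no_grid hne hne' (cross_of_cls hH₁.2 hK₁.2) (cross_of_cls hH₁.2 hK₂.2)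
        (cross_of_cls hH₂.2 hK₁.2) (cross_of_cls hH₂.2 hK₂.2)

end C40b0b
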