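import Mathlib
import Pool.Agent.Lib_c40b0b.GP2

/-!
# MP_c40b0b_al, block E2: a wild automorphism of the Cayley graph
-/

namespace C40b0b

/-! ### the homomorphism to the infinite dihedral group -/

/-- images of the generators -/
def dgen : Fin 6 → DihedralGroup 0 :=
  ![DihedralGroup.sr 0, 1, DihedralGroup.sr 1, 1, 1, 1]

/-- `a_0` and `a_2` go to reflections, the other generators to `1` -/
def dih : Gam →* DihedralGroup 0 :=
  lift dgen (by
    intro i
    fin_cases i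
    · show (DihedralGroup.sr 0 : DihedralGroup 0) ^ 4 = 1
      have h : (DihedralGroup.sr 0 : DihedralGroup 0) ^ 2 = 1 := by
        rw [pow_two, DihedralGroup.sr_mul_self]
      rw [show (4 : ℕ) = 2 * 2 from rfl, pow_mul, h, one_pow]
    · exact one_pow _
    · show (DihedralGroup.sr 1 : DihedralGroup 0) ^ 4 = 1
      have h : (DihedralGroup.sr 1 : DihedralGroup 0) ^ 2 = 1 := by
        rw [pow_two, DihedralGroup.sr_mul_self]
      rw [show (4 : ℕ) = 2 * 2 from rfl, pow_mul, h, one_pow]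
    · exact one_pow _
    · exact one_pow _
    · exact one_pow _) (by
    have h : ∀ i j : Fin 6, Adj6 i j → (i = 1 ∨ i = 3 ∨ i = 4 ∨ i = 5) ∨
        (j = 1 ∨ j = 3 ∨ j = 4 ∨ j = 5) := by decide
    have h1 : ∀ i : Fin 6, (i = 1 ∨ i = 3 ∨ i = 4 ∨ i = 5) → dgen i = 1 := by
      rintro i (rfl | rfl | rfl | rfl) <;> rfl
    intro i j hij
    rcases h i j hij with h2 | h2
    · rw [h1 i h2, one_mul, mul_one]
    · rw [h1 j h2, one_mul, mul_one])

lemma dih_a (i : Fin 6) : dih (a i) = dgen i := lift_a _ _ _ i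

lemma dih_a0 : dih (a 0) = DihedralGroup.sr 0 := dih_a 0

lemma dih_a2 : dih (a 2) = DihedralGroup.sr 1 := dih_a 2

/-- the image of `P 0` -/
lemma dih_P0 {γ : Gam} (h : γ ∈ P 0) : dih γ = 1 ∨ dih γ = DihedralGroup.sr 0 := by
  have key : P 0 ≤ (Subgroup.zpowers (DihedralGroup.sr 0 : DihedralGroup 0)).comap dih := by
    unfold P Cl
    rw [Subgroup.closure_le]
    rintro _ ⟨j, hj, rfl⟩
    show dih (a j) ∈ Subgroup.zpowers _
    rw [dih_a]
    have h2 : j = 0 ∨ j = 1 ∨ j = 5 := by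
      rcases hj with hj | hj
      · exact Or.inl hj
      · revert hj; revert j; decide
    rcases h2 with rfl | rfl | rfl
    · exact Subgroup.mem_zpowers _
    · exact Subgroup.one_mem _
    · exact Subgroup.one_mem _
  obtain ⟨n, hn⟩ := Subgroup.mem_zpowers_iff.1 (key h)
  have h3 : (DihedralGroup.sr 0 : DihedralGroup 0) ^ (2 : ℤ) = 1 := by
    rw [zpow_two, DihedralGroup.sr_mul_self]
  rcases Int.even_or_odd' n with ⟨m, rfl | rfl⟩
  · left
    rw [← hn, zpow_mul, h3, one_zpow]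
  · right
    rw [← hn, zpow_add, zpow_mul, h3, one_zpow, one_mul, zpow_one]

/-- the image of `P 2` -/
lemma dih_P2 {γ : Gam} (h : γ ∈ P 2) : dih γ = 1 ∨ dih γ = DihedralGroup.sr 1 := by
  have key : P 2 ≤ (Subgroup.zpowers (DihedralGroup.sr 1 : DihedralGroup 0)).comap dih := by
    unfold P Cl
    rw [Subgroup.closure_le]
    rintro _ ⟨j, hj, rfl⟩
    show dih (a j) ∈ Subgroup.zpowers _
    rw [dih_a]
    have h2 : j = 1 ∨ j = 2 ∨ j = 3 := by
      rcases hj with hj | hj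
      · exact Or.inr (Or.inl hj)
      · revert hj; revert j; decide
    rcases h2 with rfl | rfl | rfl
    · exact Subgroup.one_mem _
    · exact Subgroup.mem_zpowers _
    · exact Subgroup.one_mem _
  obtain ⟨n, hn⟩ := Subgroup.mem_zpowers_iff.1 (key h)
  have h3 : (DihedralGroup.sr 1 : DihedralGroup 0) ^ (2 : ℤ) = 1 := by
    rw [zpow_two, DihedralGroup.sr_mul_self]
  rcases Int.even_or_odd' n with ⟨m, rfl | rfl⟩
  · left
    rw [← hn, zpow_mul, h3, one_zpow]
  · right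
    rw [← hn, zpow_add, zpow_mul, h3, one_zpow, one_mul, zpow_one]

/-- the elements `(a_2 a_0)^n a_2` -/
def gm : ℕ → Gam
  | 0 => a 2
  | n + 1 => a 2 * (a 0 * gm n)

lemma dih_gm (n : ℕ) : dih (gm n) = DihedralGroup.sr ((n + 1 : ℕ) : ZMod 0) := by
  induction n with
  | zero =>
    show dih (a 2) = _
    rw [dih_a2, Nat.zero_add, Nat.cast_one]
  | succ n ih =>
    show dih (a 2 * (a 0 * gm n)) = _
    rw [map_mul, map_mul, ih, dih_a2, dih_a0, DihedralGroup.sr_mul_sr, DihedralGroup.sr_mul_r,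
      sub_zero]
    congr 1
    rw [Nat.cast_succ (n + 1), add_comm]

/-- natural numbers inject into `ZMod 0` -/
lemma cast_inj0 {m n : ℕ} (h : (m : ZMod 0) = n) : m = n := by
  have h2 : ((m : ℕ) : ℤ) = (n : ℤ) := h
  exact_mod_cast h2

lemma sr_inj0 {m n : ℕ} (h : DihedralGroup.sr (m : ZMod 0) = DihedralGroup.sr (n : ZMod 0)) :
    m = n := by
  injection h with h
  exact cast_inj0 h

lemma sr_ne_one (m : ZMod 0) : DihedralGroup.sr m ≠ 1 := by
  intro h
  rw [DihedralGroup.one_def] at h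
  cases h

lemma gm_not_mem_P0 (n : ℕ) : gm n ∉ P 0 := by
  intro h
  have h1 := dih_P0 h
  rw [dih_gm] at h1
  rcases h1 with h1 | h1
  · exact sr_ne_one _ h1
  · have h2 : DihedralGroup.sr ((n + 1 : ℕ) : ZMod 0) = DihedralGroup.sr ((0 : ℕ) : ZMod 0) := by
      rw [h1, Nat.cast_zero]
    have := sr_inj0 h2
    omega

lemma a0_gm_not_mem_P2 (n : ℕ) : a 0 * gm n ∉ P 2 := by
  intro h
  have h1 := dih_P2 h
  rw [map_mul, dih_gm, dih_a0, DihedralGroup.sr_mul_sr, sub_zero] at h1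
  rcases h1 with h1 | h1
  · rw [DihedralGroup.one_def] at h1
    injection h1 with h1
    have h2 : ((n + 1 : ℕ) : ZMod 0) = ((0 : ℕ) : ZMod 0) := by rw [h1, Nat.cast_zero]
    have := cast_inj0 h2
    omega
  · cases h1

lemma T0_gm (n : ℕ) : T 0 (gm n) = 0 := by
  induction n with
  | zero =>
    show T 0 (a 2) = 0
    have h := T_a_mul 0 2 1
    rw [mul_one, T_one, zero_add] at h
    rw [h]
    unfold inc
    rw [if_neg (by rintro ⟨h, -⟩; revert h; decide)]
  | succ n ih =>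
    show T 0 (a 2 * (a 0 * gm n)) = 0
    rw [T_a_mul, T_a_mul, ih]
    unfold inc
    rw [if_neg (by rintro ⟨-, h⟩; exact gm_not_mem_P0 n (mk_eq_bp.1 h)),
      if_neg (by rintro ⟨h, -⟩; revert h; decide), add_zero, add_zero]

lemma T2_gm (n : ℕ) : T 2 (gm n) = 3 := by
  induction n with
  | zero =>
    show T 2 (a 2) = 3
    have h := T_a_mul 2 2 1
    rw [mul_one, T_one, zero_add] at h
    rw [h]
    unfold inc
    rw [if_pos ⟨rfl, rfl⟩]
    rfl
  | succ n ih =>
    show T 2 (a 2 * (a 0 * gm n)) = 3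
    rw [T_a_mul, T_a_mul, ih]
    unfold inc
    rw [if_neg (by rintro ⟨h, -⟩; revert h; decide),
      if_neg (by rintro ⟨-, h⟩; exact a0_gm_not_mem_P2 n (mk_eq_bp.1 h)), add_zero, add_zero]

lemma hyp_gm_inj {m n : ℕ} (h : hyp 2 (gm m) = hyp 2 (gm n)) : m = n := by
  have h1 := dih_P2 (hyp_eq_iff.1 h)
  rw [map_mul, map_inv, dih_gm, dih_gm] at h1
  have h2 : (DihedralGroup.sr ((m + 1 : ℕ) : ZMod 0))⁻¹ = DihedralGroup.sr ((m + 1 : ℕ) : ZMod 0) :=
    rfl
  rw [h2, DihedralGroup.sr_mul_sr] at h1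
  rcases h1 with h1 | h1
  · rw [DihedralGroup.one_def] at h1
    injection h1 with h1
    have := cast_inj0 (sub_eq_zero.1 h1)
    omega
  · cases h1

/-! ### the automorphism -/

/-- the sector of `g` -/
noncomputable def tt (g : Gam) : ZMod 12 := T 0 g⁻¹

lemma T0_a0 (k : ℕ) : T 0 (a 0 ^ k) = k • (3 : ZMod 12) := by
  have h := T_pow_mul_same 0 k 1 (P 0).one_mem
  rw [mul_one, T_one, zero_add] at h
  exact h

lemma a0_pow_mem (k : ℕ) : a 0 ^ k ∈ P 0 := (P 0).pow_mem (a_mem_P (Or.inl rfl)) k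

lemma tt_pow_mul (k : ℕ) (g : Gam) : tt (a 0 ^ k * g) = tt g - k • (3 : ZMod 12) := by
  unfold tt
  rw [mul_inv_rev, T_mul_of_mem _ ((P 0).inv_mem (a0_pow_mem k))]
  have h := T_mul_of_mem (i := 0) (a 0 ^ k) ((P 0).inv_mem (a0_pow_mem k))
  rw [mul_inv_cancel, T_one, T0_a0] at h
  rw [eq_sub_iff_add_eq, add_assoc, add_comm (T 0 (a 0 ^ k)⁻¹), ← h, add_zero]

/-- the exponent of the automorphism -/
def ex (t : ZMod 12) : ℕ := if t = 3 then 3 else if t = 6 then 1 else 0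

/-- the automorphism -/
noncomputable def tau (g : Gam) : Gam := a 0 ^ ex (tt g) * g

lemma tt_tau (g : Gam) : tt (tau g) = tt g - ex (tt g) • (3 : ZMod 12) := tt_pow_mul _ _

lemma tau_tau (g : Gam) : tau (tau g) = g := by
  have h : ∀ t : ZMod 12, ex (t - ex t • (3 : ZMod 12)) + ex t = 0 ∨
      ex (t - ex t • (3 : ZMod 12)) + ex t = 4 := by decide
  have h1 : tau (tau g) = a 0 ^ (ex (tt (tau g)) + ex (tt g)) * g := by
    unfold tau
    rw [← mul_assoc, ← pow_add]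
  rw [h1, tt_tau]
  rcases h (tt g) with h2 | h2
  · rw [h2, pow_zero, one_mul]
  · rw [h2]
    have h3 : a 0 ^ 4 = 1 := a_pow 0
    rw [h3, one_mul]

lemma tau_adj {x y : Gam} (h : X.Adj x y) : X.Adj (tau x) (tau y) := by
  obtain ⟨hxy, j, hj⟩ := h
  have hinj : tau x ≠ tau y := by
    intro h
    apply hxy
    rw [← tau_tau x, h, tau_tau]
  refine ⟨hinj, j, ?_⟩
  have hy : y⁻¹ = (x⁻¹ * y)⁻¹ * x⁻¹ := by group
  by_cases hc : j = 0 ∧ x⁻¹ ∈ P 0
  · obtain ⟨rfl, hx⟩ := hc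
    have hx' : x ∈ P 0 := by simpa using (P 0).inv_mem hx
    have h1 : tau x = x * a 0 ^ ex (tt x) :=
      central (pow_mem_zpowers 0 _) hx'
    have hy' : y ∈ P 0 := by
      have := (P 0).mul_mem hx' (zpowers_le_P (i := 0) (Or.inl rfl) hj)
      simpa using this
    have h2 : tau y = y * a 0 ^ ex (tt y) :=
      central (pow_mem_zpowers 0 _) hy'
    rw [h1, h2]
    have h3 : (x * a 0 ^ ex (tt x))⁻¹ * (y * a 0 ^ ex (tt y)) =
        (a 0 ^ ex (tt x))⁻¹ * (x⁻¹ * y) * a 0 ^ ex (tt y) := by group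
    rw [h3]
    exact (Subgroup.zpowers (a 0)).mul_mem ((Subgroup.zpowers (a 0)).mul_mem
      ((Subgroup.zpowers (a 0)).inv_mem (pow_mem_zpowers 0 _)) hj) (pow_mem_zpowers 0 _)
  · have ht : tt y = tt x := by
      unfold tt
      rw [hy]
      exact T_letter_mul ((Subgroup.zpowers (a j)).inv_mem hj) _ hc
    have h1 : (tau x)⁻¹ * tau y = x⁻¹ * y := by
      unfold tau
      rw [ht]
      group
    rw [h1]
    exact hj

/-- the automorphism as an isomorphism of graphs -/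
noncomputable def tauIso : X ≃g X where
  toEquiv := ⟨tau, tau, tau_tau, tau_tau⟩
  map_rel_iff' := by
    intro x y
    constructor
    · intro h
      have h1 := tau_adj h
      have h2 : X.Adj (tau (tau x)) (tau (tau y)) := h1
      rwa [tau_tau, tau_tau] at h2
    · exact fun h => tau_adj h

lemma tau_fix {g : Gam} (h : tt g = 0) : tau g = g := by
  unfold tau
  rw [h]
  have : ex 0 = 0 := by decide
  rw [this, pow_zero, one_mul]

lemma exists_v (F : Finset Gam) : ∃ v : Gam, ∀ x ∈ F, T 0 (x⁻¹ * v) = 0 := by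
  have hfin : (⋃ x ∈ F, {H : Hyp | sg H 1 ≠ sg H x}).Finite :=
    F.finite_toSet.biUnion (fun x _ => finite_sep 1 x)
  have hpre : {n : ℕ | hyp 2 (gm n) ∈ ⋃ x ∈ F, {H : Hyp | sg H 1 ≠ sg H x}}.Finite :=
    hfin.preimage (fun m _ n _ h => hyp_gm_inj h)
  obtain ⟨n, hn⟩ := hpre.exists_notMem
  refine ⟨gm n, fun x hx => ?_⟩
  have h1 : sg (hyp 2 (gm n)) 1 = sg (hyp 2 (gm n)) x := by
    by_contra h
    apply hn
    simp only [Set.mem_ofPred_eq, Set.mem_iUnion]
    exact ⟨x, hx, h⟩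
  have h2 : sg (hyp 2 (gm n)) (gm n) ≠ sg (hyp 2 (gm n)) x := by
    rw [← h1, Ne, sg_eq_iff, inv_mul_cancel, T_one, inv_one, one_mul, T2_gm]
    decide
  by_contra h3
  have h4 : sg (hyp 0 (gm n)) (gm n) ≠ sg (hyp 0 (gm n)) x := by
    rw [Ne, sg_eq_iff, inv_mul_cancel, T_one]
    exact fun h => h3 h.symm
  have h5 := tails_adj h4 h2 (by decide)
  revert h5
  decide

theorem exists_tau : ∃ τ : X ≃g X,
    (∀ F : Finset Gam, ∃ v : Gam, ∀ x ∈ F, v * τ (v⁻¹ * x) = x) ∧
    {y : Gam | ∃ x : Gam, y = x⁻¹ * τ x}.Infinite := by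
  refine ⟨tauIso, fun F => ?_, ?_⟩
  · obtain ⟨v, hv⟩ := exists_v F
    refine ⟨v, fun x hx => ?_⟩
    have h1 : tau (v⁻¹ * x) = v⁻¹ * x := by
      apply tau_fix
      unfold tt
      rw [mul_inv_rev, inv_inv]
      exact hv x hx
    show v * tau (v⁻¹ * x) = x
    rw [h1]
    group
  · -- the displacements at `(gm m * a 0)⁻¹`
    have hinj : Function.Injective (fun m : ℕ => gm m * a 0 ^ 3 * (gm m)⁻¹) := by
      intro m n h
      have h1 := congrArg dih h
      simp only [map_mul, map_inv, map_pow, dih_gm, dih_a0] at h1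
      have h2 : (DihedralGroup.sr 0 : DihedralGroup 0) ^ 3 = DihedralGroup.sr 0 := by
        rw [pow_succ, pow_two, DihedralGroup.sr_mul_self, one_mul]
      have h3 : ∀ k : ZMod 0, (DihedralGroup.sr k)⁻¹ = DihedralGroup.sr k := fun _ => rfl
      rw [h2, h3, h3, DihedralGroup.sr_mul_sr, DihedralGroup.sr_mul_sr, DihedralGroup.r_mul_sr,
        DihedralGroup.r_mul_sr] at h1
      injection h1 with h1
      have h4 : ((m + 1 + (m + 1) : ℕ) : ZMod 0) = ((n + 1 + (n + 1) : ℕ) : ZMod 0) := by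
        rw [Nat.cast_add (m + 1), Nat.cast_add (n + 1)]
        rw [zero_sub, zero_sub, sub_neg_eq_add, sub_neg_eq_add] at h1
        exact h1
      have := cast_inj0 h4
      omega
    refine (Set.infinite_range_of_injective hinj).mono ?_
    rintro _ ⟨m, rfl⟩
    refine ⟨(gm m * a 0)⁻¹, ?_⟩
    have h1 : tt (gm m * a 0)⁻¹ = 3 := by
      unfold tt
      rw [inv_inv, T_mul_of_mem _ (a_mem_P (Or.inl rfl)), T0_gm, zero_add]
      have := T0_a0 1
      rw [pow_one, one_smul] at this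
      exact this
    show gm m * a 0 ^ 3 * (gm m)⁻¹ = ((gm m * a 0)⁻¹)⁻¹ * tau (gm m * a 0)⁻¹
    unfold tau
    rw [h1]
    have h2 : ex 3 = 3 := by decide
    rw [h2]
    group

end C40b0b
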