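import Mathlib
import Pool.Agent.Lib_c40b0b.Defs

/-!
# MP_c40b0b_al, block D: actions on trees
-/

namespace C40b0b

namespace TreeAct

section Tree

variable {W : Type*} {T : SimpleGraph W}

theorem closer_or (hT : T.IsTree) (w : W) {t t' : W} (h : T.Adj t t') :
    T.dist w t < T.dist w t' ∨ T.dist w t' < T.dist w t := by
  rcases hT.dist_eq_dist_add_one_of_adj w h with h1 | h1 <;> omega

theorem not_mem_support {w t t1 : W} (q : T.Walk w t1) (hq : q.length = T.dist w t1)
    (h : T.dist w t1 < T.dist w t) : t ∉ q.support := by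
  classical
  intro hm
  have h1 := T.dist_le (q.takeUntil t hm)
  have h2 := q.length_takeUntil_le_length hm
  omega

theorem closer_unique (hT : T.IsTree) {w t t1 t2 : W} (h1 : T.Adj t t1) (h2 : T.Adj t t2)
    (l1 : T.dist w t1 < T.dist w t) (l2 : T.dist w t2 < T.dist w t) : t1 = t2 := by
  obtain ⟨p, hp, -⟩ := hT.connected.exists_path_of_dist w t
  have key : ∀ s : W, T.Adj t s → T.dist w s < T.dist w t → s = p.penultimate := by
    intro s hs ls
    obtain ⟨q, hq, hql⟩ := hT.connected.exists_path_of_dist w s
    have hm := hT.isAcyclic.mem_support_of_ne_mem_support_of_adj_of_isPath hp hq hs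
      (not_mem_support q hql ls)
    exact hT.isAcyclic.eq_penultimate_of_adj_end hp hs hm
  rw [key t1 h1 l1, key t2 h2 l2]

theorem exists_closer (hT : T.IsTree) {w t : W} (h : t ≠ w) :
    ∃ s, T.Adj t s ∧ T.dist w s < T.dist w t := by
  obtain ⟨p, hp⟩ := hT.connected.exists_walk_length_eq_dist t w
  cases p with
  | nil => exact absurd rfl h
  | cons hadj q =>
    refine ⟨_, hadj, ?_⟩
    have h1 := T.dist_le q
    rw [SimpleGraph.Walk.length_cons] at hp
    rw [T.dist_comm, T.dist_comm (u := w)]
    omega

theorem step_unique (hT : T.IsTree) {w w' t t' : W} (hw : T.Adj w w') (ht : T.Adj t t')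
    (h1 : T.dist w t < T.dist w t') (h2 : T.dist w' t' < T.dist w' t) : w = t ∧ w' = t' := by
  have e1 := hT.dist_eq_dist_add_one_of_adj w ht
  have e2 := hT.dist_eq_dist_add_one_of_adj w' ht
  have e3 := hT.dist_eq_dist_add_one_of_adj t hw
  have e4 := hT.dist_eq_dist_add_one_of_adj t' hw
  rw [T.dist_comm (u := t), T.dist_comm (u := t)] at e3
  rw [T.dist_comm (u := t'), T.dist_comm (u := t')] at e4
  have hwt : w = t := by
    by_contra hne
    obtain ⟨s, hs, hs'⟩ := exists_closer hT (w := t) (t := w) hne
    have e5 := hT.dist_eq_dist_add_one_of_adj s ht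
    rw [T.dist_comm (u := t), T.dist_comm (u := t)] at hs'
    have h3 : s = w' := by
      refine closer_unique hT (w := t') hs hw ?_ ?_
      · rw [T.dist_comm (u := t'), T.dist_comm (u := t')]
        omega
      · rw [T.dist_comm (u := t'), T.dist_comm (u := t')]
        omega
    subst h3
    omega
  subst hwt
  refine ⟨rfl, ?_⟩
  rw [T.dist_self] at h1 e3 e1
  have h3 : T.dist w' t' = 0 := by omega
  exact hT.connected.dist_eq_zero_iff.1 h3

theorem mem_darts (hT : T.IsTree) {t t' : W} (ht : T.Adj t t') {w w' : W} (p : T.Walk w w')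
    (h1 : T.dist w t < T.dist w t') (h2 : T.dist w' t' < T.dist w' t) :
    (t, t') ∈ p.darts.map (fun d => d.toProd) := by
  induction p with
  | nil => omega
  | cons hadj q ih =>
    rename_i a b c
    rw [SimpleGraph.Walk.darts_cons, List.map_cons, List.mem_cons]
    rcases closer_or hT b ht with h | h
    · exact Or.inr (ih h h2)
    · left
      obtain ⟨e1, e2⟩ := step_unique hT hadj ht h1 h
      simp [e1, e2]

/-- The ordered edges `(t, t')` with `w` on the side of `t` and `w'` on the side of `t'`. -/
def sep (T : SimpleGraph W) (w w' : W) : Set (W × W) :=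
  {e | T.Adj e.1 e.2 ∧ T.dist w e.1 < T.dist w e.2 ∧ T.dist w' e.2 < T.dist w' e.1}

theorem finite_sep (hT : T.IsTree) (w w' : W) : (sep T w w').Finite := by
  obtain ⟨p⟩ := hT.connected w w'
  refine (List.finite_toSet (p.darts.map (fun d => d.toProd))).subset ?_
  rintro ⟨t, t'⟩ ⟨h0, h1, h2⟩
  exact mem_darts hT h0 p h1 h2

end Tree

section Inv

variable {G W : Type*} [Group G] {T : SimpleGraph W} [MulAction G W]

theorem dist_smul_le (hconn : T.Connected)
    (hact : ∀ (g : G) (x y : W), T.Adj x y → T.Adj (g • x) (g • y)) (g : G) (x y : W) :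
    T.dist (g • x) (g • y) ≤ T.dist x y := by
  obtain ⟨p, hp⟩ := hconn.exists_walk_length_eq_dist x y
  let f : T →g T := ⟨fun w => g • w, fun {a b} h => hact g a b h⟩
  have := T.dist_le (p.map f)
  rw [SimpleGraph.Walk.length_map, hp] at this
  exact this

theorem dist_smul (hconn : T.Connected)
    (hact : ∀ (g : G) (x y : W), T.Adj x y → T.Adj (g • x) (g • y)) (g : G) (x y : W) :
    T.dist (g • x) (g • y) = T.dist x y := by
  refine le_antisymm (dist_smul_le hconn hact g x y) ?_
  have := dist_smul_le hconn hact g⁻¹ (g • x) (g • y)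
  rwa [inv_smul_smul, inv_smul_smul] at this

theorem adj_smul (hact : ∀ (g : G) (x y : W), T.Adj x y → T.Adj (g • x) (g • y)) (g : G)
    (x y : W) : T.Adj (g • x) (g • y) ↔ T.Adj x y := by
  refine ⟨fun h => ?_, hact g x y⟩
  have := hact g⁻¹ _ _ h
  rwa [inv_smul_smul, inv_smul_smul] at this

theorem finite_ball {V : Type*} {X : SimpleGraph V} (hconn : X.Connected)
    (hlf : ∀ x, (X.neighborSet x).Finite) (o : V) (m : ℕ) : {y | X.dist o y ≤ m}.Finite := by
  induction m with
  | zero =>
    refine (Set.finite_singleton o).subset fun y hy => ?_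
    have : X.dist o y = 0 := Nat.le_zero.1 hy
    exact (hconn.dist_eq_zero_iff.1 this).symm
  | succ m ih =>
    have h2 : (⋃ x ∈ {y | X.dist o y ≤ m}, X.neighborSet x).Finite :=
      ih.biUnion fun x _ => hlf x
    refine ((ih.union h2)).subset fun y hy => ?_
    rcases Nat.lt_or_ge m (X.dist o y) with h | h
    · right
      obtain ⟨p, hp⟩ := hconn.exists_walk_length_eq_dist y o
      cases p with
      | nil =>
        rw [X.dist_self] at h
        omega
      | cons hadj q =>
        rename_i b
        rw [Set.mem_iUnion₂]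
        refine ⟨b, ?_, hadj.symm⟩
        have h1 := X.dist_le q
        rw [SimpleGraph.Walk.length_cons] at hp
        rw [X.dist_comm] at hp
        have hy' : X.dist o y ≤ m + 1 := hy
        change X.dist o b ≤ m
        rw [X.dist_comm]
        omega
    · exact Or.inl h

/-- A subgroup of finite index has finitely many right cosets. -/
theorem exists_reps {K : Type*} [Group K] (C : Subgroup K) (hC : C.FiniteIndex) :
    ∃ r : K → K, (Set.range r).Finite ∧ (∀ x, x * (r x)⁻¹ ∈ C) ∧
      ∀ c ∈ C, ∀ x, r (c * x) = r x := by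
  classical
  have := hC
  have : Finite (Quotient (QuotientGroup.rightRel C)) :=
    Finite.of_equiv _ (QuotientGroup.quotientRightRelEquivQuotientLeftRel C).symm
  refine ⟨fun x => (Quotient.mk (QuotientGroup.rightRel C) x).out, ?_, ?_, ?_⟩
  · refine (Set.finite_range (fun q : Quotient (QuotientGroup.rightRel C) => q.out)).subset ?_
    rintro _ ⟨x, rfl⟩
    exact ⟨_, rfl⟩
  · intro x
    have := Quotient.mk_out (s := QuotientGroup.rightRel C) x
    exact QuotientGroup.rightRel_apply.1 this
  · intro c hc x
    have : Quotient.mk (QuotientGroup.rightRel C) (c * x) =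
        Quotient.mk (QuotientGroup.rightRel C) x := by
      apply Quotient.sound
      apply QuotientGroup.rightRel_apply.2
      rw [mul_inv_rev, ← mul_assoc, mul_inv_cancel, one_mul]
      exact C.inv_mem hc
    change (Quotient.mk (QuotientGroup.rightRel C) (c * x)).out = _
    rw [this]

end Inv

end TreeAct



open TreeAct in
/-- Let `X` be a connected locally finite left-invariant graph on a group `Γ` and `Thin` a family
of thin subsets of `Γ`, closed under subsets and left translations, such that `Γ` is not a union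
of two thin sets, thin sets do not contain arbitrarily large balls, and a set whose edge boundary
stays close to a cyclic subgroup is thin or has thin complement.  Then for every finitely generated
group `G` with an injective homomorphism `ι : G → Γ` of finite index image, every action of `G` on
a tree with virtually cyclic edge stabilisers has a fixed vertex. -/
theorem tree_fixed_vertex {Γ G W : Type*} [Group Γ] [Group G] (hfg : Group.FG G)
    (ι : G →* Γ) (hι : Function.Injective ι) (hfin : ι.range.FiniteIndex)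
    (X : SimpleGraph Γ) (hconn : X.Connected) (hlf : ∀ x, (X.neighborSet x).Finite)
    (hleft : ∀ g x y, X.Adj x y → X.Adj (g * x) (g * y))
    (Thin : Set Γ → Prop)
    (hsub : ∀ A B : Set Γ, A ⊆ B → Thin B → Thin A)
    (htrans : ∀ (g : Γ) (A : Set Γ), Thin A → Thin ((fun x => g * x) '' A))
    (hcompl : ∀ A : Set Γ, Thin A → ¬ Thin Aᶜ)
    (hball : ∀ A : Set Γ, Thin A → ∃ n : ℕ, ∀ x : Γ, ∃ y : Γ, X.dist x y ≤ n ∧ y ∉ A)
    (hbdry : ∀ (z : Γ) (R : ℕ) (A : Set Γ),
      (∀ x y, X.Adj x y → x ∈ A → y ∉ A → ∃ n : ℤ, X.dist x (z ^ n) ≤ R) → Thin A ∨ Thin Aᶜ)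
    (T : SimpleGraph W) (hT : T.IsTree) [MulAction G W]
    (hact : ∀ (g : G) (x y : W), T.Adj x y → T.Adj (g • x) (g • y))
    (hstab : ∀ x y : W, T.Adj x y → VirtCyclic (edgeStab G x y)) :
    ∃ w : W, ∀ g : G, g • w = w := by
  classical
  have hTc := hT.connected
  obtain ⟨t0⟩ := hTc.nonempty
  -- the equivariant map
  obtain ⟨r, hrfin, hr1, hr2⟩ := exists_reps ι.range hfin
  choose γ hγ using hr1
  have hγ' : ∀ x, ι (γ x) * r x = x := fun x => by rw [hγ, inv_mul_cancel_right]
  have hrι : ∀ h x, r (ι h * x) = r x := fun h x => hr2 _ ⟨h, rfl⟩ x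
  have hγι : ∀ h x, γ (ι h * x) = h * γ x := by
    intro h x
    apply hι
    rw [hγ, map_mul, hγ, hrι, mul_assoc]
  set ψ : Γ → W := fun x => γ x • t0 with hψ
  have hψι : ∀ h x, ψ (ι h * x) = h • ψ x := by
    intro h x
    simp only [hψ]
    rw [hγι, mul_smul]
  have hd := dist_smul (T := T) hTc hact
  have hda : ∀ (g : Γ) (x y : Γ), X.dist (g * x) (g * y) = X.dist x y :=
    dist_smul (G := Γ) (T := X) hconn hleft
  -- half trees
  set A : W → W → Set Γ := fun t t' => {x | T.dist (ψ x) t' < T.dist (ψ x) t} with hA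
  have hAc : ∀ {t t' : W}, T.Adj t t' → (A t t')ᶜ = A t' t := by
    intro t t' h
    ext x
    simp only [hA, Set.mem_compl_iff, Set.mem_ofPred_eq]
    rcases closer_or hT (ψ x) h with h1 | h1 <;> omega
  have hAg : ∀ (g : G) (t t' : W), A (g • t) (g • t') = (fun x => ι g * x) '' A t t' := by
    intro g t t'
    ext x
    constructor
    · intro hx
      refine ⟨ι g⁻¹ * x, ?_, ?_⟩
      · simp only [hA, Set.mem_ofPred_eq] at hx ⊢
        rw [hψι, ← hd g (g⁻¹ • ψ x), ← hd g (g⁻¹ • ψ x), smul_inv_smul]
        exact hx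
      · simp [map_inv]
    · rintro ⟨y, hy, rfl⟩
      simp only [hA, Set.mem_ofPred_eq] at hy ⊢
      rw [hψι, hd, hd]
      exact hy
  -- thin or co-thin
  have hb : ∀ t t' : W, T.Adj t t' → Thin (A t t') ∨ Thin (A t t')ᶜ := by
    intro t t' ht
    obtain ⟨C, hCc, hCf⟩ := hstab t t' ht
    obtain ⟨c0, hc0⟩ := hCc.exists_generator
    obtain ⟨D, hDfin, hD1, -⟩ := exists_reps C hCf
    -- the finite set of separated edges
    have hFfin : (⋃ p ∈ Set.range r, ⋃ s ∈ X.neighborSet p, sep T (ψ p) (ψ s)).Finite :=
      hrfin.biUnion fun p _ => (hlf p).biUnion fun s _ => finite_sep hT _ _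
    set F := ⋃ p ∈ Set.range r, ⋃ s ∈ X.neighborSet p, sep T (ψ p) (ψ s) with hF
    have hex : ∀ f : W × W, ∃ gf : G, (∃ g : G, g • f.1 = t' ∧ g • f.2 = t) →
        gf • f.1 = t' ∧ gf • f.2 = t := by
      intro f
      by_cases h : ∃ g : G, g • f.1 = t' ∧ g • f.2 = t
      · obtain ⟨g, hg⟩ := h
        exact ⟨g, fun _ => hg⟩
      · exact ⟨1, fun h' => absurd h' h⟩
    choose gf hgf using hex
    set P : Set Γ := (fun q : (edgeStab G t t' × (W × W)) × Γ =>
      ι ((q.1.1 : G) * gf q.1.2) * q.2) '' ((Set.range D ×ˢ F) ×ˢ Set.range r) with hP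
    have hPfin : P.Finite := ((hDfin.prod hFfin).prod hrfin).image _
    obtain ⟨R, hR⟩ := (hPfin.image fun p => X.dist p 1).bddAbove
    refine hbdry (ι (c0 : edgeStab G t t')) R (A t t') fun x y hxy hx hy => ?_
    set g := γ x with hg
    set p := r x with hp
    set s := (ι g)⁻¹ * y with hs
    have hxg : ι g * p = x := hγ' x
    have hyg : ι g * s = y := by rw [hs, mul_inv_cancel_left]
    have hps : X.Adj p s := by
      have := hleft (ι g)⁻¹ _ _ hxy
      rw [← hxg, inv_mul_cancel_left] at this
      exact this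
    have hψx : ψ x = g • ψ p := by rw [← hxg, hψι]
    have hψy : ψ y = g • ψ s := by rw [← hyg, hψι]
    have hmem : (g⁻¹ • t', g⁻¹ • t) ∈ F := by
      rw [hF, Set.mem_iUnion₂]
      refine ⟨p, ⟨x, rfl⟩, ?_⟩
      rw [Set.mem_iUnion₂]
      refine ⟨s, hps, ?_⟩
      refine ⟨?_, ?_, ?_⟩
      · exact hact _ _ _ ht.symm
      · simp only
        rw [← hd g, ← hd g (ψ p), smul_inv_smul, smul_inv_smul, ← hψx]
        exact hx
      · simp only
        rw [← hd g, ← hd g (ψ s), smul_inv_smul, smul_inv_smul, ← hψy]
        have : y ∈ (A t t')ᶜ := hy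
        rw [hAc ht] at this
        exact this
    obtain ⟨hf1, hf2⟩ := hgf (g⁻¹ • t', g⁻¹ • t) ⟨g, smul_inv_smul _ _, smul_inv_smul _ _⟩
    simp only at hf1 hf2
    set k0 := gf (g⁻¹ • t', g⁻¹ • t) with hk0
    have hk : g * k0⁻¹ ∈ edgeStab G t t' := by
      refine ⟨?_, ?_⟩
      · change (g * k0⁻¹) • t = t
        rw [mul_smul]
        nth_rewrite 1 [← hf2]
        rw [inv_smul_smul, smul_inv_smul]
      · change (g * k0⁻¹) • t' = t'
        rw [mul_smul]
        nth_rewrite 1 [← hf1]
        rw [inv_smul_smul, smul_inv_smul]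
    set k : edgeStab G t t' := ⟨g * k0⁻¹, hk⟩ with hkdef
    obtain ⟨n, hn⟩ := hc0 ⟨k * (D k)⁻¹, hD1 k⟩
    have hn' : ((c0 : edgeStab G t t') : G) ^ n = (g * k0⁻¹) * ((D k : edgeStab G t t') : G)⁻¹ := by
      have h1 := congrArg (fun c : C => ((c : edgeStab G t t') : G)) hn
      simpa using h1
    refine ⟨n, ?_⟩
    have hgk : g = ((c0 : edgeStab G t t') : G) ^ n * (((D k : edgeStab G t t') : G) * k0) := by
      rw [hn']
      group
    have hx' : x = ι ((c0 : edgeStab G t t') : G) ^ n *
        (ι (((D k : edgeStab G t t') : G) * k0) * p) := by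
      rw [← mul_assoc, ← map_zpow, ← map_mul, ← hgk, hxg]
    have e1 : X.dist x (ι ((c0 : edgeStab G t t') : G) ^ n) =
        X.dist (ι (((D k : edgeStab G t t') : G) * k0) * p) 1 := by
      conv_lhs => rw [hx']
      have := hda (ι ((c0 : edgeStab G t t') : G) ^ n)
        (ι (((D k : edgeStab G t t') : G) * k0) * p) 1
      rwa [mul_one] at this
    rw [e1]
    refine hR ⟨_, ⟨((D k, (g⁻¹ • t', g⁻¹ • t)), p), ?_, rfl⟩, rfl⟩
    exact ⟨⟨⟨k, rfl⟩, hmem⟩, ⟨x, rfl⟩⟩
  -- orientation
  have hor : ∀ {t t' : W}, T.Adj t t' → (¬ Thin (A t t') ↔ Thin (A t' t)) := by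
    intro t t' ht
    constructor
    · intro h
      rcases hb t t' ht with h1 | h1
      · exact absurd h1 h
      · rwa [hAc ht] at h1
    · intro h h2
      have := hcompl _ h2
      rw [hAc ht] at this
      exact this h
  have huniq : ∀ {t t1 t2 : W}, T.Adj t t1 → T.Adj t t2 → ¬ Thin (A t t1) → ¬ Thin (A t t2) →
      t1 = t2 := by
    intro t t1 t2 h1 h2 o1 o2
    by_contra hne
    apply o2
    refine hsub _ (A t1 t) (fun x hx => ?_) ((hor h1).1 o1)
    simp only [hA, Set.mem_ofPred_eq] at hx ⊢
    rcases closer_or hT (ψ x) h1 with h3 | h3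
    · exact h3
    · exact absurd (closer_unique hT h1 h2 h3 hx) hne
  have hinv : ∀ (g : G) (t t' : W), Thin (A (g • t) (g • t')) ↔ Thin (A t t') := by
    intro g t t'
    constructor
    · intro h
      have h1 := htrans (ι g)⁻¹ _ h
      refine hsub _ _ (fun x hx => ?_) h1
      rw [hAg]
      exact ⟨ι g * x, ⟨x, hx, rfl⟩, by simp⟩
    · intro h
      rw [hAg]
      exact htrans _ _ h
  by_cases hsink : ∃ s : W, ∀ t' : W, T.Adj s t' → Thin (A s t')
  · -- a sink is unique, hence fixed
    obtain ⟨s, hs⟩ := hsink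
    have hpt : ∀ (n : ℕ) (v : W), T.dist s v = n → v ≠ s → ∃ v', T.Adj v v' ∧
        T.dist s v' < T.dist s v ∧ ¬ Thin (A v v') := by
      intro n
      induction n with
      | zero =>
        intro v hv hne
        exact absurd (hTc.dist_eq_zero_iff.1 hv).symm hne
      | succ n ih =>
        intro v hv hne
        obtain ⟨v', hadj, hlt⟩ := exists_closer hT hne
        refine ⟨v', hadj, hlt, ?_⟩
        by_cases hv's : v' = s
        · subst hv's
          rw [hor hadj]
          exact hs v hadj.symm
        · have hdv' : T.dist s v' = n := by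
            rcases hT.dist_eq_dist_add_one_of_adj s hadj with h1 | h1 <;> omega
          obtain ⟨v'', hadj', hlt', hout⟩ := ih v' hdv' hv's
          intro hthin
          have h2 : ¬ Thin (A v' v) := by
            rw [hor hadj.symm]
            exact hthin
          have h3 := huniq hadj.symm hadj' h2 hout
          subst h3
          omega
    refine ⟨s, fun g => ?_⟩
    by_contra hne
    obtain ⟨v', hadj, -, hout⟩ := hpt _ (g • s) rfl hne
    apply hout
    have h1 : T.Adj s (g⁻¹ • v') := by
      have := hact g⁻¹ _ _ hadj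
      rwa [inv_smul_smul] at this
    have h2 := hs _ h1
    rw [← hinv g, smul_inv_smul] at h2
    exact h2
  · push Not at hsink
    choose next hnadj hnout using hsink
    have hneq : ∀ {t t' : W}, T.Adj t t' → ¬ Thin (A t t') → t' = next t := fun h1 h2 =>
      huniq h1 (hnadj _) h2 (hnout _)
    have hnback : ∀ t, next (next t) ≠ t := by
      intro t h
      have h1 := hnout (next t)
      rw [h] at h1
      exact h1 ((hor (hnadj t)).1 (hnout t))
    have hneqv : ∀ (g : G) (t : W), next (g • t) = g • next t := by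
      intro g t
      symm
      apply hneq (hact _ _ _ (hnadj t))
      rw [hinv]
      exact hnout t
    have hiteqv : ∀ (g : G) (n : ℕ) (t : W), next^[n] (g • t) = g • next^[n] t := by
      intro g n t
      induction n with
      | zero => rfl
      | succ n ih => rw [Function.iterate_succ_apply', ih, hneqv, Function.iterate_succ_apply']
    have hdist : ∀ (t : W) (n : ℕ), T.dist t (next^[n] t) = n ∧ T.dist t (next^[n + 1] t) = n + 1 := by
      intro t n
      induction n with
      | zero =>
        refine ⟨T.dist_self, ?_⟩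
        rw [zero_add]
        exact SimpleGraph.dist_eq_one_iff_adj.2 (hnadj t)
      | succ n ih =>
        refine ⟨ih.2, ?_⟩
        have hadj1 : T.Adj (next^[n + 1] t) (next^[n] t) := by
          rw [Function.iterate_succ_apply']
          exact (hnadj _).symm
        have hadj2 : T.Adj (next^[n + 1] t) (next^[n + 1 + 1] t) := by
          rw [Function.iterate_succ_apply' next (n + 1)]
          exact hnadj _
        rcases closer_or hT t hadj2 with h1 | h1
        · rcases hT.dist_eq_dist_add_one_of_adj t hadj2 with h2 | h2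
          · omega
          · rw [h2, ih.2]
        · exfalso
          have h3 := closer_unique hT hadj1 hadj2 (by rw [ih.1, ih.2]; omega) h1
          apply hnback (next^[n] t)
          rw [Function.iterate_succ_apply', Function.iterate_succ_apply'] at h3
          exact h3.symm
    have hmerge : ∀ t t' : W, ∃ a b : ℕ, next^[a] t = next^[b] t' := by
      intro t t'
      obtain ⟨p⟩ := hTc t t'
      induction p with
      | nil => exact ⟨0, 0, rfl⟩
      | cons hadj q ih =>
        rename_i u v w
        obtain ⟨a, b, hab⟩ := ih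
        by_cases hth : Thin (A u v)
        · have hvu : ¬ Thin (A v u) := by
            rw [hor hadj.symm]
            exact hth
          have := hneq hadj.symm hvu
          refine ⟨a, b + 1, ?_⟩
          rw [Function.iterate_succ_apply', ← hab, ← Function.iterate_succ_apply' next a,
            Function.iterate_succ_apply, ← this]
        · have := hneq hadj hth
          refine ⟨a + 1, b, ?_⟩
          rw [Function.iterate_succ_apply, ← this, hab]
    by_cases hfix : ∀ g : G, ∃ a : ℕ, next^[a] t0 = g • next^[a] t0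
    · choose a ha using hfix
      obtain ⟨S, hS⟩ := hfg.out
      refine ⟨next^[S.sup a] t0, ?_⟩
      have hstabS : Subgroup.closure (S : Set G) ≤
          MulAction.stabilizer G (next^[S.sup a] t0) := by
        rw [Subgroup.closure_le]
        intro g hg
        have h1 : a g ≤ S.sup a := Finset.le_sup (f := a) hg
        obtain ⟨c, hc⟩ := Nat.exists_eq_add_of_le h1
        change g • next^[S.sup a] t0 = next^[S.sup a] t0
        rw [hc, Nat.add_comm, Function.iterate_add_apply, ← hiteqv, ← ha g]
      intro g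
      have : g ∈ Subgroup.closure (S : Set G) := by
        rw [hS]
        exact Subgroup.mem_top g
      exact hstabS this
    · exfalso
      push Not at hfix
      obtain ⟨g0, hg0⟩ := hfix
      have hex : ∃ (g : G) (t : W) (n : ℕ), 0 < n ∧ g • t = next^[n] t := by
        obtain ⟨a, b, hab⟩ := hmerge t0 (g0 • t0)
        rw [hiteqv] at hab
        rcases lt_trichotomy a b with h | h | h
        · obtain ⟨c, hc⟩ := Nat.exists_eq_add_of_lt h
          refine ⟨g0⁻¹, next^[a] t0, c + 1, Nat.succ_pos _, ?_⟩
          rw [hab, inv_smul_smul, ← hab, ← Function.iterate_add_apply]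
          congr 1
          omega
        · subst h
          exact absurd hab (hg0 a)
        · obtain ⟨c, hc⟩ := Nat.exists_eq_add_of_lt h
          refine ⟨g0, next^[b] t0, c + 1, Nat.succ_pos _, ?_⟩
          rw [← hab, ← Function.iterate_add_apply]
          congr 1
          omega
      obtain ⟨g, t, n, hn, hgt⟩ := hex
      have hgj : ∀ j : ℕ, g ^ j • t = next^[n * j] t := by
        intro j
        induction j with
        | zero => simp
        | succ j ih =>
          rw [pow_succ', mul_smul, ih, ← hiteqv, hgt, ← Function.iterate_add_apply,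
            Nat.mul_succ]
      have hB0 : Thin (A (next t) t) := (hor (hnadj t)).1 (hnout t)
      obtain ⟨m, hm⟩ := hball _ hB0
      have hev : ∀ y : Γ, ∃ d : ℕ, ∀ k, d ≤ k →
          T.dist (ψ y) (next^[k] t) < T.dist (ψ y) (next^[k + 1] t) := by
        intro y
        obtain ⟨c, d, hcd⟩ := hmerge (ψ y) t
        refine ⟨d, fun k hk => ?_⟩
        obtain ⟨e, rfl⟩ := Nat.exists_eq_add_of_le hk
        have e1 : next^[d + e] t = next^[e + c] (ψ y) := by
          rw [Nat.add_comm d e, Function.iterate_add_apply, ← hcd, ← Function.iterate_add_apply]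
        have e2 : next^[d + e + 1] t = next^[e + c + 1] (ψ y) := by
          rw [Function.iterate_succ_apply', e1, ← Function.iterate_succ_apply' next]
        rw [e1, e2, (hdist _ _).1, (hdist _ _).2]
        omega
      choose d hd' using hev
      obtain ⟨J, hJ⟩ := ((finite_ball hconn hlf 1 m).image d).bddAbove
      obtain ⟨y, hy1, hy2⟩ := hm (ι g ^ J)⁻¹
      apply hy2
      have hy3 : X.dist 1 (ι g ^ J * y) ≤ m := by
        have := hda (ι g ^ J) (ι g ^ J)⁻¹ y
        rw [mul_inv_cancel] at this
        rw [this]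
        exact hy1
      have hdJ : d (ι g ^ J * y) ≤ J := hJ ⟨_, hy3, rfl⟩
      have hle : d (ι g ^ J * y) ≤ n * J := hdJ.trans (Nat.le_mul_of_pos_left J hn)
      have h1 := hd' (ι g ^ J * y) (n * J) hle
      rw [Function.iterate_succ_apply', ← hgj J, hneqv, ← map_pow, hψι, hd, hd] at h1
      exact h1

end C40b0b
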