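import Mathlib
import Pool.Agent.Lib_c40b0b.Hyperb
import Pool.Agent.Lib_c40b0b.Morse
import Pool.Agent.Lib_c40b0b.Axis
import Pool.Agent.Lib_c40b0b.AutX
import Pool.Agent.Lib_c40b0b.Tau
import Pool.Agent.Lib_c40b0b.TreeAct
import Pool.Agent.Lib_c40b0b.FAct

/-!
# MP_c40b0b_al: assembly
-/

namespace C40b0b

/-- `F_20 ⋊ ℤ` acts on the Cayley graph of `Γ` through `ι` -/
@[reducible] noncomputable def gAct : MulAction G20 Gam := MulAction.compHom Gam iota

lemma gAct_smul (g : G20) (x : Gam) : gAct.toSMul.smul g x = iota g * x := rfl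

theorem geometric : @GeometricAction G20 _ Gam X gAct := by
  let _ := gAct
  have hs : ∀ (g : G20) (x : Gam), g • x = iota g * x := gAct_smul
  refine ⟨?_, ?_, ?_⟩
  · intro g x y h
    rw [hs, hs]
    exact X_left _ _ _ h
  · intro x
    have : MulAction.stabilizer G20 x = ⊥ := by
      rw [eq_bot_iff]
      intro g hg
      rw [MulAction.mem_stabilizer_iff, hs] at hg
      rw [Subgroup.mem_bot]
      apply iota_injective
      rw [map_one]
      exact mul_eq_right.1 hg
    rw [this]
    infer_instance
  · have hsurj : Function.Surjective (fun k : Ch =>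
        (Quotient.mk (MulAction.orbitRel G20 Gam) (u 0 k) :
          MulAction.orbitRel.Quotient G20 Gam)) := by
      intro y
      induction y using Quotient.inductionOn with
      | h γ =>
        obtain ⟨k, g, h⟩ := iota_cosets γ
        refine ⟨k, ?_⟩
        apply Quotient.sound
        change (MulAction.orbitRel G20 Gam) (u 0 k) γ
        rw [MulAction.orbitRel_apply]
        refine ⟨g⁻¹, ?_⟩
        change g⁻¹ • γ = u 0 k
        rw [hs, h, map_inv]
        group
    exact Finite.of_surjective _ hsurj

theorem noSplitting (W : Type) (T : SimpleGraph W) [MulAction G20 W] (hT : T.IsTree)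
    (hact : ∀ (g : G20) (x y : W), T.Adj x y → T.Adj (g • x) (g • y))
    (hstab : ∀ x y : W, T.Adj x y → VirtCyclic (edgeStab G20 x y)) :
    ∃ w : W, ∀ g : G20, g • w = w := by
  refine tree_fixed_vertex G20_fg iota iota_injective iota_finiteIndex X X_connected
    X_locallyFinite X_left Thin thin_subset thin_trans thin_compl thin_ball ?_ T hT hact hstab
  intro z R A h
  obtain ⟨S, R', hS, hz⟩ := axis z
  refine thin_bdry S hS (R + R') A (fun x y hxy hx hy => ?_)
  obtain ⟨n, hn⟩ := h x y hxy hx hy
  obtain ⟨s, hs, hd⟩ := hz n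
  refine ⟨s, hs, ?_⟩
  have := X_connected.dist_triangle (u := x) (v := z ^ n) (w := s)
  omega

theorem notCbD : ¬ AutCompactByDiscrete X := by
  obtain ⟨τ, h1, h2⟩ := exists_tau
  exact not_autCompactByDiscrete X X_left τ h1 h2

end C40b0b
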